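import Pool.Agent.K3h29.LH.Line

/-!
Hopping amplitudes at high frequencies.
-/

set_option autoImplicit false

namespace Pool.Agent.K3h29.LH.Amp

open MeasureTheory Filter Set
open scoped Topology ComplexConjugate
open Pool.Agent.W792.LL Pool.Agent.W792.WA UnitAddTorus Pool.Agent.W191.LL Pool.Agent.K3h29.LH
open Pool.Agent.K3h29.LH.Osc1 Pool.Agent.K3h29.LH.Line

noncomputable section

/-- The semicircle function has mean zero. -/
theorem mean_zero {ψ : C(UnitAddCircle, ℝ)} (hψ : IsSemi ψ) :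
    ∫ φ in Set.Ioc (0 : ℝ) 1, (ψ (φ : UnitAddCircle) : ℂ) = 0 := by
  have hPr : IsProbabilityMeasure (volume.restrict (Set.Ioc (0 : ℝ) 1)) := ⟨by simp⟩
  set I := ∫ φ in Set.Ioc (0 : ℝ) 1, (ψ (φ : UnitAddCircle) : ℂ) with hI
  have hcoe : Continuous fun φ : ℝ => (φ : UnitAddCircle) := AddCircle.continuous_mk' (1 : ℝ)
  have hψc : Continuous fun φ : ℝ => (ψ (φ : UnitAddCircle) : ℂ) :=
    Complex.continuous_ofReal.comp (ψ.continuous.comp hcoe)
  have hψ1 : ∀ φ : ℝ, ‖(ψ (φ : UnitAddCircle) : ℂ)‖ ≤ 1 := by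
    intro φ
    rw [Complex.norm_real]
    exact hψ.bound _
  have key : ∀ y : ℝ, 0 < y → ‖I‖ ≤ 5 / 4 / y := by
    intro y hy
    set w : ℂ := -(y : ℂ) * Complex.I with hw
    have hwi : w.im < 0 := by
      rw [hw]
      simp [hy]
    have hwn : ‖w‖ = y := by
      rw [hw, norm_mul, norm_neg, Complex.norm_real, Complex.norm_I, mul_one, Real.norm_eq_abs,
        abs_of_pos hy]
    obtain ⟨-, h2⟩ := hψ.eqn w hwi
    have hden : ∀ φ : ℝ, y ≤ ‖w + (ψ (φ : UnitAddCircle) : ℂ)‖ := by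
      intro φ
      have h1 := Complex.abs_im_le_norm (w + (ψ (φ : UnitAddCircle) : ℂ))
      have h3 : |(w + (ψ (φ : UnitAddCircle) : ℂ)).im| = y := by
        rw [hw]
        simp [abs_of_pos hy]
      linarith
    have hne : ∀ φ : ℝ, w + (ψ (φ : UnitAddCircle) : ℂ) ≠ 0 := fun φ =>
      norm_pos_iff.1 (hy.trans_le (hden φ))
    set h := ∫ φ in Set.Ioc (0 : ℝ) 1, 1 / (w + (ψ (φ : UnitAddCircle) : ℂ)) with hh
    have hc1 : Continuous fun φ : ℝ => 1 / (w + (ψ (φ : UnitAddCircle) : ℂ)) :=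
      continuous_const.div (continuous_const.add hψc) hne
    have hb1 : ∀ φ : ℝ, ‖1 / (w + (ψ (φ : UnitAddCircle) : ℂ))‖ ≤ 1 / y := by
      intro φ
      rw [norm_div, norm_one]
      exact one_div_le_one_div_of_le hy (hden φ)
    have hi1 : Integrable (fun φ : ℝ => 1 / (w + (ψ (φ : UnitAddCircle) : ℂ)))
        (volume.restrict (Set.Ioc (0 : ℝ) 1)) :=
      Integrable.of_bound hc1.aestronglyMeasurable _ (Eventually.of_forall hb1)
    have hhn : ‖h‖ ≤ 1 / y := by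
      have := norm_integral_le_of_norm_le_const (μ := volume.restrict (Set.Ioc (0 : ℝ) 1))
        (f := fun φ : ℝ => 1 / (w + (ψ (φ : UnitAddCircle) : ℂ))) (Eventually.of_forall hb1)
      rw [probReal_univ, mul_one] at this
      exact this
    -- `∫ ψ² / (w + ψ) = ∫ ψ - w (1 - w h)`
    have hi2 : Integrable (fun φ : ℝ => (ψ (φ : UnitAddCircle) : ℂ))
        (volume.restrict (Set.Ioc (0 : ℝ) 1)) :=
      Integrable.of_bound hψc.aestronglyMeasurable 1 (Eventually.of_forall hψ1)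
    have e1 : ∀ φ : ℝ, (ψ (φ : UnitAddCircle) : ℂ) ^ 2 * (1 / (w + (ψ (φ : UnitAddCircle) : ℂ)))
        = (ψ (φ : UnitAddCircle) : ℂ) - w + w ^ 2 * (1 / (w + (ψ (φ : UnitAddCircle) : ℂ))) := by
      intro φ
      have := hne φ
      field_simp
      ring
    have e2 : ∫ φ in Set.Ioc (0 : ℝ) 1, (ψ (φ : UnitAddCircle) : ℂ) ^ 2
        * (1 / (w + (ψ (φ : UnitAddCircle) : ℂ))) = I - w + w ^ 2 * h := by
      simp only [e1]
      have a1 := integral_add (hi2.sub (integrable_const w)) (hi1.const_mul (w ^ 2))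
      have a2 := integral_sub hi2 (integrable_const w)
      simp only [Pi.sub_apply] at a1
      have a3 : (∫ φ in Set.Ioc (0 : ℝ) 1, w ^ 2 * (1 / (w + (ψ (φ : UnitAddCircle) : ℂ))))
          = w ^ 2 * h := by rw [hh]; exact integral_const_mul _ _
      have a4 : ∫ _φ in Set.Ioc (0 : ℝ) 1, w = w := by
        simp only [integral_const, probReal_univ, one_smul]
      rw [a1, a2, a3, a4]
    have e3 : ‖∫ φ in Set.Ioc (0 : ℝ) 1, (ψ (φ : UnitAddCircle) : ℂ) ^ 2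
        * (1 / (w + (ψ (φ : UnitAddCircle) : ℂ)))‖ ≤ 1 / y := by
      have := norm_integral_le_of_norm_le_const (μ := volume.restrict (Set.Ioc (0 : ℝ) 1))
        (f := fun φ : ℝ => (ψ (φ : UnitAddCircle) : ℂ) ^ 2
        * (1 / (w + (ψ (φ : UnitAddCircle) : ℂ)))) (C := 1 / y) (Eventually.of_forall fun φ => by
          rw [norm_mul, norm_pow]
          have h3 : ‖(ψ (φ : UnitAddCircle) : ℂ)‖ ^ 2 ≤ 1 := pow_le_one₀ (norm_nonneg _) (hψ1 φ)
          calc _ ≤ 1 * (1 / y) := mul_le_mul h3 (hb1 φ) (norm_nonneg _) zero_le_one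
            _ = _ := one_mul _)
      simpa using this
    have e4 : I = (∫ φ in Set.Ioc (0 : ℝ) 1, (ψ (φ : UnitAddCircle) : ℂ) ^ 2
        * (1 / (w + (ψ (φ : UnitAddCircle) : ℂ)))) - w * h ^ 2 / 4 := by
      rw [e2]
      linear_combination w * h2
    have e5 : ‖w * h ^ 2 / 4‖ ≤ 1 / 4 / y := by
      rw [norm_div, norm_mul, norm_pow, hwn]
      have h4 : ‖(4 : ℂ)‖ = 4 := by norm_num
      rw [h4]
      calc y * ‖h‖ ^ 2 / 4 ≤ y * (1 / y) ^ 2 / 4 := by gcongr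
        _ = 1 / 4 / y := by field_simp
    rw [e4]
    refine (norm_sub_le _ _).trans ?_
    calc _ ≤ 1 / y + 1 / 4 / y := add_le_add e3 e5
      _ = 5 / 4 / y := by ring
  by_contra hne
  have hpos : 0 < ‖I‖ := norm_pos_iff.2 hne
  have h1 := key (5 / ‖I‖) (by positivity)
  have h2 : 5 / 4 / (5 / ‖I‖) = ‖I‖ / 4 := by field_simp
  rw [h2] at h1
  linarith

theorem fc_zero {ψ : C(UnitAddCircle, ℝ)} (hψ : IsSemi ψ) : fourierCoeff (cx ψ) 0 = 0 := by
  rw [fourierCoeff_eq_intervalIntegral _ 0 (0 : ℝ)]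
  have e : ∫ x in (0 : ℝ)..0 + 1, fourier (-0) (x : UnitAddCircle) • (cx ψ) (x : UnitAddCircle)
      = ∫ φ in Set.Ioc (0 : ℝ) 1, (ψ (φ : UnitAddCircle) : ℂ) := by
    rw [zero_add, intervalIntegral.integral_of_le zero_le_one]
    refine integral_congr_ae (Eventually.of_forall fun φ => ?_)
    simp only [neg_zero, fourier_zero, one_smul]
    rfl
  rw [e, mean_zero hψ, smul_zero]

/-- Bound at high frequencies. -/
theorem hf {η : ℝ} (hη0 : 0 < η) (hη1 : η ≤ 1 / 2) {M : ℕ} (hM : 0 < M) (h n : ℤ) (hh : h ≠ 0) :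
    ‖fourierCoeff (ee (h * M)) n‖
      ≤ 5 * (M : ℝ) ^ (-η) / (1 + |(n : ℝ)|) ^ (1 / 2 - η) := by
  have hM1 : (1 : ℝ) ≤ M := by exact_mod_cast hM
  have hM0 : (0 : ℝ) < M := by linarith
  have hn1 : (1 : ℝ) ≤ 1 + |(n : ℝ)| := by linarith [abs_nonneg (n : ℝ)]
  have hn0 : (0 : ℝ) < 1 + |(n : ℝ)| := by linarith
  have hp : 0 < (1 + |(n : ℝ)|) ^ (1 / 2 - η) := Real.rpow_pos_of_pos hn0 _
  have hη : 0 ≤ 1 / 2 - η := by linarith
  rcases le_total (1 + |(n : ℝ)|) M with hc | hc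
  · have hh1 : (1 : ℝ) ≤ |(h : ℝ)| := by
      rw [← Int.cast_abs]
      exact_mod_cast Int.one_le_abs hh
    have ha : (h : ℝ) * M ≠ 0 := mul_ne_zero (by exact_mod_cast hh) hM0.ne'
    have h1 := le_vdc (h * M) n ha
    have h2 : Real.sqrt (12 * M) ≤ Real.sqrt (4 * Real.pi * |(h : ℝ) * M|) := by
      apply Real.sqrt_le_sqrt
      rw [abs_mul, Nat.abs_cast]
      have hpi := Real.pi_gt_three
      have h3 : (M : ℝ) ≤ |(h : ℝ)| * M := le_mul_of_one_le_left hM0.le hh1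
      calc 12 * (M : ℝ) ≤ 4 * Real.pi * M := by nlinarith
        _ ≤ 4 * Real.pi * (|(h : ℝ)| * M) := mul_le_mul_of_nonneg_left h3 (by positivity)
    have h3 : (8 / 5 : ℝ) ≤ Real.sqrt 12 := by
      apply Real.le_sqrt_of_sq_le
      norm_num
    have h4 : 8 / Real.sqrt (4 * Real.pi * |(h : ℝ) * M|) ≤ 5 / Real.sqrt M := by
      have h5 : 0 < Real.sqrt M := Real.sqrt_pos.2 hM0
      rw [Real.sqrt_mul (by norm_num)] at h2
      have h6 : 8 / 5 * Real.sqrt M ≤ Real.sqrt (4 * Real.pi * |(h : ℝ) * M|) :=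
        (mul_le_mul_of_nonneg_right h3 h5.le).trans h2
      rw [div_le_div_iff₀ (lt_of_lt_of_le (by positivity) h6) h5]
      linarith
    refine h1.trans (h4.trans ?_)
    have h5 : 5 / Real.sqrt M = 5 * (M : ℝ) ^ (-η) / (M : ℝ) ^ (1 / 2 - η) := by
      rw [mul_div_assoc, ← Real.rpow_sub hM0, Real.sqrt_eq_rpow, div_eq_mul_inv,
        ← Real.rpow_neg hM0.le]
      congr 2
      ring
    rw [h5]
    apply div_le_div_of_nonneg_left (by positivity) hp
    exact Real.rpow_le_rpow hn0.le hc hη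
  · refine (bound _ n).trans ?_
    have h5 : 5 / Real.sqrt (1 + |(n : ℝ)|)
        = 5 * (1 + |(n : ℝ)|) ^ (-η) / (1 + |(n : ℝ)|) ^ (1 / 2 - η) := by
      rw [mul_div_assoc, ← Real.rpow_sub hn0, Real.sqrt_eq_rpow, div_eq_mul_inv,
        ← Real.rpow_neg hn0.le]
      congr 2
      ring
    rw [h5]
    refine div_le_div_of_nonneg_right ?_ hp.le
    refine mul_le_mul_of_nonneg_left ?_ (by norm_num)
    exact Real.rpow_le_rpow_of_nonpos hM0 hc (by linarith)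

/-- Levels of high frequency. -/
theorem level' {ψ : C(UnitAddCircle, ℝ)} (hψ : IsSemi ψ)
    (hsum : Summable fun h : ℤ => ‖fourierCoeff (fun t : UnitAddCircle => ((ψ t : ℝ) : ℂ)) h‖)
    {η : ℝ} (hη0 : 0 < η) (hη1 : η ≤ 1 / 2) :
    ∃ C : ℝ, 0 < C ∧ ∀ (M : ℕ) (n : ℤ), 0 < M →
      ‖fourierCoeff ((cx ψ).comp (th M)) n‖ ≤ C * (M : ℝ) ^ (-η) / (1 + |(n : ℝ)|) ^ (1 / 2 - η) := by
  have hsum' : Summable fun h : ℤ => ‖fourierCoeff (cx ψ) h‖ := hsum
  have hS := hasSum_fourier_series_of_summable hsum'.of_norm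
  have hT : 0 ≤ ∑' h : ℤ, ‖fourierCoeff (cx ψ) h‖ := tsum_nonneg fun _ => norm_nonneg _
  refine ⟨(∑' h : ℤ, ‖fourierCoeff (cx ψ) h‖) * 5 + 1, by positivity, fun M n hM => ?_⟩
  have hM0 : (0 : ℝ) < M := by exact_mod_cast hM
  have h1 := hS.map ((fcH n).comp (pcH (th M)))
    ((fcH_cont n).comp (ContinuousMap.continuous_precomp (th M)))
  have h2 : ∀ h : ℤ, ((fcH n).comp (pcH (th M))) (fourierCoeff (cx ψ) h • fourier h)
      = fourierCoeff (cx ψ) h * fourierCoeff (ee (h * M)) n := by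
    intro h
    change fourierCoeff (⇑(fourierCoeff (cx ψ) h • ((fourier h).comp (th M)))) n = _
    rw [fc_smul]
    congr 2
    ext t
    exact four_ee _ _ _
  have hn0 : (0 : ℝ) < 1 + |(n : ℝ)| := by positivity
  have hp : 0 < (1 + |(n : ℝ)|) ^ (1 / 2 - η) := Real.rpow_pos_of_pos hn0 _
  have hMη : 0 < (M : ℝ) ^ (-η) := Real.rpow_pos_of_pos hM0 _
  have h3 : ∀ h : ℤ, ‖((fcH n).comp (pcH (th M))) (fourierCoeff (cx ψ) h • fourier h)‖
      ≤ ‖fourierCoeff (cx ψ) h‖ * (5 * (M : ℝ) ^ (-η) / (1 + |(n : ℝ)|) ^ (1 / 2 - η)) := by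
    intro h
    rw [h2, norm_mul]
    by_cases hh : h = 0
    · subst hh
      rw [fc_zero hψ, norm_zero, zero_mul, zero_mul]
    · exact mul_le_mul_of_nonneg_left (hf hη0 hη1 hM h n hh) (norm_nonneg _)
  have h4 := h1.norm_le_of_bounded (hsum'.hasSum.mul_right _) h3
  have h5 : ((fcH n).comp (pcH (th M))) (cx ψ) = fourierCoeff ((cx ψ).comp (th M)) n := rfl
  rw [h5] at h4
  refine h4.trans ?_
  rw [← mul_div_assoc, ← mul_assoc]
  refine div_le_div_of_nonneg_right ?_ hp.le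
  refine mul_le_mul_of_nonneg_right ?_ hMη.le
  linarith

end

end Pool.Agent.K3h29.LH.Amp
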