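import Pool.Agent.K3h29.LH.Defs
import Pool.Agent.W191.LL.Avg0

/-!
Averaging for one function, arbitrary phases.
-/

set_option autoImplicit false

namespace Pool.Agent.K3h29.LH.Avg

open MeasureTheory Filter Set
open scoped Topology ComplexConjugate
open Pool.Agent.W792.LL UnitAddTorus Pool.Agent.W191.LL Pool.Agent.K3h29.LH

noncomputable section

variable {d : ℕ} (P : Phs d)

/-- The averaged symbol. -/
def A (M : ℕ) (F : C(UnitAddTorus (Fin d) × UnitAddCircle, ℂ)) (k : UnitAddTorus (Fin d)) : ℂ :=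
  F (k, P M k) - fib F k

lemma A_cont (M : ℕ) (F : C(UnitAddTorus (Fin d) × UnitAddCircle, ℂ)) : Continuous (A P M F) := by
  unfold A
  exact (F.continuous.comp (continuous_id.prodMk (P M).continuous)).sub (fib_cont F)

lemma A_le (M : ℕ) (F : C(UnitAddTorus (Fin d) × UnitAddCircle, ℂ)) (k : UnitAddTorus (Fin d)) :
    ‖A P M F k‖ ≤ 2 * ‖F‖ := by
  unfold A
  calc _ ≤ ‖F (k, P M k)‖ + ‖fib F k‖ := norm_sub_le _ _
    _ ≤ ‖F‖ + ‖F‖ := add_le_add (F.norm_coe_le_norm _) (fib_le F k)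
    _ = _ := by ring

lemma A_add (M : ℕ) (F G : C(UnitAddTorus (Fin d) × UnitAddCircle, ℂ)) :
    A P M (F + G) = fun k => A P M F k + A P M G k := by
  funext k
  unfold A fib
  have h : ∫ φ in Set.Ioc (0 : ℝ) 1, (F + G) (k, (φ : UnitAddCircle))
      = (∫ φ in Set.Ioc (0 : ℝ) 1, F (k, (φ : UnitAddCircle)))
        + ∫ φ in Set.Ioc (0 : ℝ) 1, G (k, (φ : UnitAddCircle)) := by
    rw [← integral_add (fib_int F k) (fib_int G k)]
    rfl
  rw [h, ContinuousMap.add_apply]
  ring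

lemma A_smul (M : ℕ) (c : ℂ) (F : C(UnitAddTorus (Fin d) × UnitAddCircle, ℂ)) :
    A P M (c • F) = fun k => c * A P M F k := by
  funext k
  unfold A fib
  have h : ∫ φ in Set.Ioc (0 : ℝ) 1, (c • F) (k, (φ : UnitAddCircle))
      = c * (∫ φ in Set.Ioc (0 : ℝ) 1, F (k, (φ : UnitAddCircle))) := by
    rw [← integral_const_mul]
    rfl
  rw [h, ContinuousMap.smul_apply, smul_eq_mul]
  ring

/-- The set of functions for which the averaging holds. -/
def Good : Submodule ℂ C(UnitAddTorus (Fin d) × UnitAddCircle, ℂ) where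
  carrier := {F | ∀ δ : ℝ, 0 < δ → ∃ M₀ : ℕ, ∀ M : ℕ, M₀ ≤ M → ∀ x : Fin d → ℤ,
    ‖mFourierCoeff (A P M F) x‖ ≤ δ}
  zero_mem' := by
    intro δ hδ
    refine ⟨0, fun M _ x => ?_⟩
    refine (mfc_le _ 0 (fun k => ?_) x).trans hδ.le
    simpa using A_le P M 0 k
  add_mem' := by
    intro F G hF hG δ hδ
    obtain ⟨M₁, h₁⟩ := hF (δ / 2) (by positivity)
    obtain ⟨M₂, h₂⟩ := hG (δ / 2) (by positivity)
    refine ⟨max M₁ M₂, fun M hM x => ?_⟩
    rw [A_add, mfc_add _ _ (A_cont P M F) (A_cont P M G)]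
    calc _ ≤ _ := norm_add_le _ _
      _ ≤ δ / 2 + δ / 2 := add_le_add (h₁ M ((le_max_left _ _).trans hM) x)
          (h₂ M ((le_max_right _ _).trans hM) x)
      _ = δ := by ring
  smul_mem' := by
    intro c F hF δ hδ
    obtain ⟨M₁, h₁⟩ := hF (δ / (‖c‖ + 1)) (by positivity)
    refine ⟨M₁, fun M hM x => ?_⟩
    rw [A_smul, mfc_smul, norm_mul]
    calc ‖c‖ * _ ≤ (‖c‖ + 1) * (δ / (‖c‖ + 1)) := by
          gcongr
          · linarith
          · exact h₁ M hM x
      _ = δ := by field_simp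

lemma good_closed : (Good P).topologicalClosure ≤ Good P := by
  intro F hF δ hδ
  have hF' : F ∈ closure (Good P : Set C(UnitAddTorus (Fin d) × UnitAddCircle, ℂ)) := hF
  rw [Metric.mem_closure_iff] at hF'
  obtain ⟨G, hG, hFG⟩ := hF' (δ / 4) (by positivity)
  obtain ⟨M₁, h₁⟩ := hG (δ / 2) (by positivity)
  refine ⟨M₁, fun M hM x => ?_⟩
  have e : F = G + (F - G) := by abel
  rw [e, A_add, mfc_add _ _ (A_cont P M G) (A_cont P M (F - G))]
  rw [dist_eq_norm] at hFG
  calc _ ≤ _ := norm_add_le _ _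
    _ ≤ δ / 2 + 2 * (δ / 4) := add_le_add (h₁ M hM x)
        ((mfc_le _ _ (A_le P M (F - G)) x).trans (by gcongr))
    _ = δ := by ring


lemma good_mono (h : OS P) (n : (Fin d → ℤ) × ℤ) : mono n ∈ Good P := by
  obtain ⟨n, j⟩ := n
  intro δ hδ
  by_cases hj : j = 0
  · subst hj
    refine ⟨0, fun M _ x => ?_⟩
    refine (mfc_le _ 0 (fun k => ?_) x).trans hδ.le
    unfold A
    rw [fib_mono_zero, mono_apply]
    simp
  · obtain ⟨M₀, hM₀⟩ := h j hj δ hδ
    refine ⟨M₀, fun M hM x => ?_⟩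
    have e : A P M (mono (n, j)) = fun k => mFourier n k * (fourier j (P M k) : ℂ) := by
      funext k
      unfold A
      rw [fib_mono_ne n j hj, sub_zero, mono_apply]
    rw [e, mfc_shift]
    exact hM₀ M hM (x - n)

theorem main (h : OS P) : AV P := by
  intro F δ hδ
  have h1 : Submodule.span ℂ (range (mono (d := d))) ≤ Good P := by
    rw [Submodule.span_le]
    rintro _ ⟨n, rfl⟩
    exact good_mono P h n
  have h2 : F ∈ Good P := by
    apply good_closed P
    apply Submodule.topologicalClosure_mono h1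
    rw [span_dense]
    trivial
  exact h2 δ hδ

end

end Pool.Agent.K3h29.LH.Avg
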