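import Pool.Agent.K3h29.LH.Defs
import Pool.Agent.W378.WA.SC1
import Pool.Agent.W918.LL.Opr
import Pool.Agent.W792.LL.Dia
import Pool.Agent.W762.LL.Zf
import Pool.Agent.W978.LL.Mz
import Pool.Agent.W335.LLCay

/-!
WA-C1: the limit theorem, by analytic continuation in the coupling.
-/

set_option autoImplicit false

namespace Pool.Agent.K3h29.LH.C1

open MeasureTheory Filter Pool.Agent.W792.LL Pool.Agent.W792.WA Pool.Agent.K3h29.LH
open scoped Topology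

theorem WP_apply {d : ℕ} (W : C(Tor d × UnitAddCircle, ℂ)) (θ : C(Tor d, UnitAddCircle))
    (k : Tor d) : WP W θ k = W (k, θ k) := rfl

theorem WP_smul {d : ℕ} (W : C(Tor d × UnitAddCircle, ℂ)) (θ : C(Tor d, UnitAddCircle)) (t : ℂ) :
    WP (t • W) θ = t • WP W θ := rfl

theorem WP_norm {d : ℕ} (W : C(Tor d × UnitAddCircle, ℂ)) (θ : C(Tor d, UnitAddCircle)) (q : ℝ)
    (hW : ‖W‖ ≤ q) : ‖WP W θ‖ ≤ q := by
  rw [ContinuousMap.norm_le _ ((norm_nonneg _).trans hW)]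
  intro k
  exact (W.norm_coe_le_norm _).trans hW

theorem ps_bound {C p m s : ℂ} (h : C = p / (1 - m * p)) (h0 : 1 - m * p ≠ 0)
    (h1 : 1 - m * s ≠ 0) (hm : ‖m‖ ≤ 1) (hp : ‖p‖ ≤ 1) (hs : ‖s‖ ≤ 1) :
    ‖p - s‖ ≤ 4 * ‖C - s / (1 - m * s)‖ := by
  have e1 : p - s = (C - s / (1 - m * s)) * ((1 - m * p) * (1 - m * s)) := by
    have a1 : p / (1 - m * p) * (1 - m * p) = p := div_mul_cancel₀ _ h0
    have a2 : s / (1 - m * s) * (1 - m * s) = s := div_mul_cancel₀ _ h1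
    rw [h]
    linear_combination (-(1 - m * s)) * a1 + (1 - m * p) * a2
  have b1 : ∀ z : ℂ, ‖z‖ ≤ 1 → ‖1 - m * z‖ ≤ 2 := by
    intro z hz
    calc ‖1 - m * z‖ ≤ ‖(1 : ℂ)‖ + ‖m * z‖ := norm_sub_le _ _
      _ ≤ 1 + 1 * 1 := by
        rw [norm_one, norm_mul]
        gcongr
      _ = 2 := by norm_num
  rw [e1, norm_mul, norm_mul]
  have h2 := b1 p hp
  have h3 := b1 s hs
  have h4 : ‖1 - m * p‖ * ‖1 - m * s‖ ≤ 2 * 2 :=
    mul_le_mul h2 h3 (norm_nonneg _) (by norm_num)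
  calc _ ≤ ‖C - s / (1 - m * s)‖ * (2 * 2) := mul_le_mul_of_nonneg_left h4 (norm_nonneg _)
    _ = _ := by ring

theorem small_t (hPsi : S_PSI) (hSm : S_SMALL) {d : ℕ} {P : Phs d} (hAvg : AV P)
    (ν : Measure ℝ) [IsProbabilityMeasure ν]
    (V : C(UnitAddTorus (Fin d) × UnitAddCircle, ℂ)) (hV : ‖V‖ ≤ 1 / 16)
    (s U : C(UnitAddTorus (Fin d), ℂ)) (hs : ‖s‖ ≤ 1) (hU : ‖U‖ ≤ 1 / 16) (hpsi : psi ν U = s)
    (hB : ∀ k, U k / (1 - U k * s k)
      = ∫ φ in Set.Ioc (0 : ℝ) 1, V (k, (φ : UnitAddCircle)) / (1 - V (k, φ) * s k))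
    (e : ℝ) (he : 0 < e) : ∃ M₀ : ℕ, ∀ M : ℕ, M₀ ≤ M →
      ‖psi ν (WP V (P M)) - s‖ ≤ 4 * e ∧
      ∫ v, ‖Zf (WP V (P M)) (fun x => cay (v x)) - Zf U (fun x => cay (v x))‖
        ∂(Pn ν (Fin d → ℤ)) ≤ e := by
  obtain ⟨δ, hδ, H⟩ := hSm ν d s U hs hU hpsi e he
  have hden : ∀ p : UnitAddTorus (Fin d) × UnitAddCircle, 1 - V p * s p.1 ≠ 0 := by
    intro p h
    have h1 : ‖V p * s p.1‖ ≤ 1 / 16 := by
      rw [norm_mul]
      calc ‖V p‖ * ‖s p.1‖ ≤ (1 / 16) * 1 :=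
            mul_le_mul ((V.norm_coe_le_norm p).trans hV) ((s.norm_coe_le_norm _).trans hs)
              (norm_nonneg _) (by norm_num)
        _ = 1 / 16 := by ring
    have h2 : V p * s p.1 = 1 := by linear_combination -h
    rw [h2, norm_one] at h1
    norm_num at h1
  let F : C(UnitAddTorus (Fin d) × UnitAddCircle, ℂ) :=
    ⟨fun p => V p / (1 - V p * s p.1), V.continuous.div
      (continuous_const.sub (V.continuous.mul (s.continuous.comp continuous_fst))) hden⟩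
  obtain ⟨M₀, hM₀⟩ := hAvg F δ hδ
  refine ⟨M₀, fun M hM => ?_⟩
  have hWn : ‖WP V (P M)‖ ≤ 1 / 16 := WP_norm V (P M) _ hV
  have hfun : (fun k : UnitAddTorus (Fin d) =>
      F (k, P M k)
          - ∫ φ in Set.Ioc (0 : ℝ) 1, F (k, (φ : UnitAddCircle)))
      = fun k => WP V (P M) k / (1 - WP V (P M) k * s k) - U k / (1 - U k * s k) := by
    funext k
    rw [hB k, WP_apply]
    rfl
  obtain ⟨h5, h6⟩ := H (WP V (P M)) hWn (by
    intro x
    have h4 := hM₀ M hM x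
    rw [hfun] at h4
    exact h4)
  refine ⟨?_, h6⟩
  rw [ContinuousMap.norm_le _ (by positivity)]
  intro k
  rw [ContinuousMap.sub_apply]
  obtain ⟨hP, -, -⟩ := hPsi ν d (1 / 16) (WP V (P M)) (WP V (P M)) (by norm_num) (by norm_num) hWn hWn
  obtain ⟨-, -, p1, p2, p3, -⟩ := hP k
  have hmk : ‖WP V (P M) k‖ ≤ 1 := ((WP V (P M)).norm_coe_le_norm k).trans (hWn.trans (by norm_num))
  have hsk : ‖s k‖ ≤ 1 := (s.norm_coe_le_norm k).trans hs
  have hdk : 1 - WP V (P M) k * s k ≠ 0 := by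
    rw [WP_apply]
    exact hden (k, _)
  calc _ ≤ 4 * ‖csym ν (WP V (P M)) k - s k / (1 - WP V (P M) k * s k)‖ :=
        ps_bound p3 p2 hdk hmk p1 hsk
    _ ≤ 4 * e := mul_le_mul_of_nonneg_left (h5 k) (by norm_num)

theorem inv_rel {U s B : ℂ} (h0 : 1 - U * s ≠ 0) (h : U / (1 - U * s) = B) :
    B / (1 + s * B) = U := by
  have h1 : B * (1 - U * s) = U := by rw [← h, div_mul_cancel₀ _ h0]
  have h2 : (1 + s * B) * (1 - U * s) = 1 := by linear_combination s * h1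
  have h3 : 1 + s * B ≠ 0 := fun h4 => by
    rw [h4, zero_mul] at h2
    exact zero_ne_one h2
  rw [div_eq_iff h3]
  linear_combination h1

theorem main : S_SYMB → S_CSYM → S_PSI → S_UUC → S_FIX → S_HOLC → S_HOLF → S_VIT1 → S_VIT2 →
    S_SMALL → ∀ {d : ℕ} {P : Phs d}, AV P → S_C1P P := by
  intro _ _ hPsi hUUC hFix hHolC hHolF hVit1 hVit2 hSmall d P hAvg ν _ hvr q W s U hq hW hU hs hpsi
    hB e he
  have hO : S_OPR := Pool.Agent.W918.LL.main
  have hD : S_DIA := Pool.Agent.W792.LL.DiaP.main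
  have hCay : S_CAY := Pool.Agent.W335.LLCay.main
  have hZ : S_ZF := Pool.Agent.W762.LL.main hO hD
  have hM : S_MZ := Pool.Agent.W978.LL.main hO hD hZ hCay
  have hSC1 : S_SC1 := Pool.Agent.W378.WA.SC1.main
  have hq0 : 0 ≤ q := (norm_nonneg _).trans hW
  have hc1 : ∀ (v : (Fin d → ℤ) → ℝ) (x : Fin d → ℤ), ‖cay (v x)‖ ≤ 1 :=
    fun v x => (hCay.1 (v x)).le
  -- the uniform measure
  obtain ⟨ρ, hρ⟩ : ∃ ρ : Measure ℝ, ρ = volume.restrict (Set.Ioc (0 : ℝ) 1) := ⟨_, rfl⟩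
  have hρP : IsProbabilityMeasure ρ := by
    rw [hρ]
    exact ⟨by simp⟩
  have hρs : ρ (Set.Icc (-1) 1)ᶜ = 0 := by
    rw [hρ, Measure.restrict_apply measurableSet_Icc.compl]
    have h0 : (Set.Icc (-1 : ℝ) 1)ᶜ ∩ Set.Ioc 0 1 = ∅ := by
      rw [Set.eq_empty_iff_forall_notMem]
      rintro x ⟨h1, h2⟩
      exact h1 ⟨by linarith [h2.1], h2.2⟩
    rw [h0, measure_empty]
  have hae : ∀ᵐ a ∂ρ, a ∈ Set.Icc (-1 : ℝ) 1 := by
    rw [ae_iff]
    exact hρs
  obtain ⟨w, hw⟩ : ∃ w : UnitAddTorus (Fin d) → ℝ → ℂ,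
      w = fun k (a : ℝ) => W (k, (a : UnitAddCircle)) := ⟨_, rfl⟩
  have hwc : Continuous (Function.uncurry w) := by
    rw [hw]
    exact W.continuous.comp (continuous_fst.prodMk
      ((AddCircle.continuous_mk' (1 : ℝ)).comp continuous_snd))
  have hwq : ∀ k, ∀ a ∈ Set.Icc (-1 : ℝ) 1, ‖w k a‖ ≤ q := by
    intro k a _
    rw [hw]
    exact (W.norm_coe_le_norm _).trans hW
  -- scaled versions
  have htc : ∀ t : ℂ, Continuous (Function.uncurry fun k a => t * w k a) := fun t =>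
    continuous_const.mul hwc
  have htq : ∀ t : ℂ, ∀ k, ∀ a ∈ Set.Icc (-1 : ℝ) 1, ‖t * w k a‖ ≤ ‖t‖ * q := by
    intro t k a ha
    rw [norm_mul]
    exact mul_le_mul_of_nonneg_left (hwq k a ha) (norm_nonneg _)
  have htk : ∀ (t : ℂ) k, Measurable fun a => t * w k a := by
    intro t k
    have h1 : (fun a => t * w k a) = (Function.uncurry fun k a => t * w k a) ∘ fun a => (k, a) :=
      rfl
    rw [h1]
    exact ((htc t).comp (by fun_prop)).measurable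
  have hrel : ∀ (t : ℂ) (σ : C(UnitAddTorus (Fin d), ℂ)), ‖t‖ * q < 1 → ‖σ‖ ≤ 1 →
      (∀ k, UU ρ (fun k a => t * w k a) σ k / (1 - UU ρ (fun k a => t * w k a) σ k * σ k)
        = ∫ φ in Set.Ioc (0 : ℝ) 1, (t • W) (k, (φ : UnitAddCircle))
            / (1 - (t • W) (k, φ) * σ k)) ∧
      ‖UU ρ (fun k a => t * w k a) σ‖ ≤ ‖t‖ * q := by
    intro t σ h1 h2
    have h0 : 0 ≤ ‖t‖ * q := mul_nonneg (norm_nonneg _) hq0
    have h3 : ‖t‖ * q * ‖σ‖ < 1 :=
      lt_of_le_of_lt (mul_le_of_le_one_right h0 h2) h1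
    obtain ⟨u1, u2⟩ := hUUC d ρ 1 (‖t‖ * q) (fun k a => t * w k a) σ hρs (htc t) h0 h1.le
      (htq t) h2 h3
    refine ⟨fun k => ?_, u2⟩
    have h4 : ‖σ k‖ ≤ ‖σ‖ := σ.norm_coe_le_norm k
    obtain ⟨-, -, -, -, h5⟩ := hSC1 ρ (fun a => t * w k a) (‖t‖ * q) (σ k) (htk t k) h0 h1.le
      (hae.mono fun a ha => htq t k a ha) (h4.trans h2)
      (lt_of_le_of_lt (mul_le_mul_of_nonneg_left h4 h0) h3)
    rw [u1 k, h5, hρ, hw]
    rfl
  -- the symbol at `t = 1`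
  have hUU : UU ρ w s = U := by
    have h3 : q * ‖s‖ < 1 := lt_of_le_of_lt (mul_le_of_le_one_right hq0 hs) hq
    obtain ⟨u1, -⟩ := hUUC d ρ 1 q w s hρs hwc hq0 hq.le hwq hs h3
    ext k
    rw [u1 k]
    have hb : Bs ρ (w k) (s k) = U k / (1 - U k * s k) := by
      rw [hB k, hρ, hw]
      rfl
    unfold Us
    refine inv_rel ?_ hb.symm
    intro h
    have h1 : ‖U k * s k‖ ≤ q * 1 := by
      rw [norm_mul]
      exact mul_le_mul ((U.norm_coe_le_norm k).trans hU) ((s.norm_coe_le_norm k).trans hs)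
        (norm_nonneg _) hq0
    have h2 : U k * s k = 1 := by linear_combination -h
    rw [h2, norm_one] at h1
    linarith
  have hfix1 : IsFix ν ρ w s := ⟨hs, by rw [hUU]; exact hpsi⟩
  have hone : (fun k a => (1 : ℂ) * w k a) = w := by
    funext k a
    rw [one_mul]
  -- the radius
  obtain ⟨r, hr⟩ : ∃ r : ℝ, r = 2 / (1 + q) := ⟨_, rfl⟩
  have hq1 : 0 < 1 + q := by linarith
  have hr1 : 1 < r := by
    rw [hr, lt_div_iff₀ hq1]
    linarith
  have hrq : r * q < 1 := by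
    rw [hr, div_mul_eq_mul_div, div_lt_one hq1]
    linarith
  have hrq0 : 0 ≤ r * q := mul_nonneg (by linarith) hq0
  have hball : ∀ t ∈ Metric.ball (0 : ℂ) r, ‖t‖ * q ≤ r * q := by
    intro t ht
    rw [mem_ball_zero_iff] at ht
    exact mul_le_mul_of_nonneg_right ht.le hq0
  obtain ⟨S, hS1, hS2, hS3⟩ := hHolF ν d ρ 1 q r w hvr hρs hwc hq0 hwq (by linarith) hrq
  have h1b : (1 : ℂ) ∈ Metric.ball (0 : ℂ) r := by
    rw [mem_ball_zero_iff, norm_one]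
    exact hr1
  have hS1s : S 1 = s := by
    have h1 := hS3 1 h1b
    rw [hone] at h1
    exact (hFix ν d ρ 1 q w hvr hρs hwc hq0 hq hwq).1.unique h1 hfix1
  have hU1 : UU ρ (fun k a => (1 : ℂ) * w k a) (S 1) = U := by
    rw [hone, hS1s, hUU]
  -- the symbols
  have hWMn : ∀ M, ∀ t ∈ Metric.ball (0 : ℂ) r, ‖t • WP W (P M)‖ ≤ r * q := by
    intro M t ht
    rw [norm_smul]
    exact (mul_le_mul_of_nonneg_left (WP_norm W (P M) q hW) (norm_nonneg _)).trans (hball t ht)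
  have hUn : ∀ t ∈ Metric.ball (0 : ℂ) r, ‖UU ρ (fun k a => t * w k a) (S t)‖ ≤ r * q := by
    intro t ht
    exact ((hrel t (S t) ((hball t ht).trans_lt hrq) (hS3 t ht).1).2).trans (hball t ht)
  have hWMd : ∀ M, DifferentiableOn ℂ (fun t : ℂ => t • WP W (P M)) (Metric.ball 0 r) := by
    intro M
    exact (differentiable_id.smul_const _).differentiableOn
  have key : ∀ t ∈ Metric.ball (0 : ℂ) (1 / 16), ∀ ε : ℝ, 0 < ε → ∃ M₀ : ℕ, ∀ M : ℕ, M₀ ≤ M →
      ‖psi ν (t • WP W (P M)) - S t‖ ≤ 4 * ε ∧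
      ∫ v, ‖Zf (t • WP W (P M)) (fun x => cay (v x))
          - Zf (UU ρ (fun k a => t * w k a) (S t)) (fun x => cay (v x))‖
        ∂(Pn ν (Fin d → ℤ)) ≤ ε := by
    intro t ht ε hε
    have ht' : t ∈ Metric.ball (0 : ℂ) r := Metric.ball_subset_ball (by linarith) ht
    have htn : ‖t‖ * q ≤ 1 / 16 := by
      rw [mem_ball_zero_iff] at ht
      exact (mul_le_of_le_one_right (norm_nonneg _) hq.le).trans ht.le
    obtain ⟨g1, g2⟩ := hrel t (S t) ((hball t ht').trans_lt hrq) (hS3 t ht').1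
    have hVn : ‖t • W‖ ≤ 1 / 16 := by
      rw [norm_smul]
      exact (mul_le_mul_of_nonneg_left hW (norm_nonneg _)).trans htn
    obtain ⟨M₀, hM₀⟩ := small_t hPsi hSmall hAvg ν (t • W) hVn (S t)
      (UU ρ (fun k a => t * w k a) (S t)) (hS3 t ht').1 (g2.trans htn) (hS3 t ht').2 g1 ε hε
    refine ⟨M₀, fun M hM => ?_⟩
    have := hM₀ M hM
    rwa [WP_smul] at this
  -- first limit
  have L1 : Tendsto (fun M : ℕ => psi ν ((1 : ℂ) • WP W (P M)) - S 1) atTop (𝓝 0) := by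
    refine hVit1 C(UnitAddTorus (Fin d), ℂ) r (1 / 16) 2 (fun M t => psi ν (t • WP W (P M)) - S t)
      hr1 (by norm_num) ?_ ?_ ?_
    · intro M
      exact ((hHolC ν d (Metric.ball 0 r) (fun t => t • WP W (P M)) (r * q) Metric.isOpen_ball hrq
        (hWMd M) (hWMn M)).2.1).sub hS1
    · intro M t ht
      have h1 : ‖psi ν (t • WP W (P M))‖ ≤ 1 := by
        rw [ContinuousMap.norm_le _ zero_le_one]
        intro k
        exact ((hPsi ν d (r * q) _ _ hrq0 hrq (hWMn M t ht) (hWMn M t ht)).1 k).2.2.1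
      calc _ ≤ ‖psi ν (t • WP W (P M))‖ + ‖S t‖ := norm_sub_le _ _
        _ ≤ 1 + 1 := add_le_add h1 (hS3 t ht).1
        _ = 2 := by norm_num
    · intro t ht
      rw [Metric.tendsto_atTop]
      intro ε hε
      obtain ⟨M₀, hM₀⟩ := key t ht (ε / 8) (by positivity)
      refine ⟨M₀, fun M hM => ?_⟩
      rw [dist_zero_right]
      have := (hM₀ M hM).1
      linarith
  have L2 : Tendsto (fun M : ℕ => ∫ v, ‖Zf ((1 : ℂ) • WP W (P M)) (fun x => cay (v x))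
          - Zf (UU ρ (fun k a => (1 : ℂ) * w k a) (S 1)) (fun x => cay (v x))‖
        ∂(Pn ν (Fin d → ℤ))) atTop (𝓝 0) := by
    refine hVit2 ((Fin d → ℤ) → ℝ) (Pn ν (Fin d → ℤ)) r (1 / 16) (2 / (1 - r * q))
      (fun M t v => Zf (t • WP W (P M)) (fun x => cay (v x))
          - Zf (UU ρ (fun k a => t * w k a) (S t)) (fun x => cay (v x)))
      hr1 (by norm_num) ?_ ?_ ?_ ?_
    · intro M v
      exact ((hHolC ν d (Metric.ball 0 r) (fun t => t • WP W (P M)) (r * q) Metric.isOpen_ball hrq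
        (hWMd M) (hWMn M)).2.2 v).sub
        ((hHolC ν d (Metric.ball 0 r) (fun t => UU ρ (fun k a => t * w k a) (S t)) (r * q)
        Metric.isOpen_ball hrq hS2 hUn).2.2 v)
    · intro M v t ht
      have z1 := (hZ d _ _ (fun x => cay (v x)) (r * q) hrq0 hrq (hWMn M t ht) (hUn t ht)
        (hc1 v)).2.1
      have z2 := (hZ d _ _ (fun x => cay (v x)) (r * q) hrq0 hrq (hUn t ht) (hWMn M t ht)
        (hc1 v)).2.1
      calc _ ≤ _ := norm_sub_le _ _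
        _ ≤ 1 / (1 - r * q) + 1 / (1 - r * q) := add_le_add z1 z2
        _ = 2 / (1 - r * q) := by ring
    · intro M t ht
      exact (hM d _ (r * q) hrq0 hrq (hWMn M t ht)).sub (hM d _ (r * q) hrq0 hrq (hUn t ht))
    · intro t ht
      rw [Metric.tendsto_atTop]
      intro ε hε
      obtain ⟨M₀, hM₀⟩ := key t ht (ε / 2) (by positivity)
      refine ⟨M₀, fun M hM => ?_⟩
      rw [dist_zero_right, Real.norm_of_nonneg (integral_nonneg fun v => norm_nonneg _)]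
      have := (hM₀ M hM).2
      linarith
  simp only [one_smul] at L1 L2
  rw [hU1] at L2
  rw [hS1s] at L1
  rw [Metric.tendsto_atTop] at L1 L2
  obtain ⟨M₁, hM₁⟩ := L1 e he
  obtain ⟨M₂, hM₂⟩ := L2 e he
  refine ⟨max M₁ M₂, fun M hM => ⟨?_, ?_⟩⟩
  · have := hM₁ M ((le_max_left _ _).trans hM)
    rw [dist_zero_right] at this
    exact this.le
  · have := hM₂ M ((le_max_right _ _).trans hM)
    rw [dist_zero_right, Real.norm_of_nonneg (integral_nonneg fun v => norm_nonneg _)] at this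
    exact this.le

end Pool.Agent.K3h29.LH.C1
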