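import Pool.Agent.W792.WA.Stm6

/-!
Definitions for the project LH: the W792.WA construction with arbitrary oscillating phases.
-/

set_option autoImplicit false

namespace Pool.Agent.K3h29.LH

open MeasureTheory Filter Pool.Agent.W792.LL Pool.Agent.W792.WA
open scoped Topology

noncomputable section

/-- The torus. -/
abbrev Tor (d : ℕ) : Type := UnitAddTorus (Fin d)

/-- A sequence of phases. -/
abbrev Phs (d : ℕ) : Type := ℕ → C(Tor d, UnitAddCircle)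

/-- The phases average out. -/
def AV {d : ℕ} (P : Phs d) : Prop :=
  ∀ (F : C(Tor d × UnitAddCircle, ℂ)) (δ : ℝ), 0 < δ → ∃ M₀ : ℕ, ∀ M : ℕ, M₀ ≤ M →
    ∀ x : Fin d → ℤ, ‖UnitAddTorus.mFourierCoeff (fun k : Tor d =>
      F (k, P M k) - ∫ φ in Set.Ioc (0 : ℝ) 1, F (k, (φ : UnitAddCircle))) x‖ ≤ δ

/-- The harmonics of the phases have small Fourier coefficients. -/
def OS {d : ℕ} (P : Phs d) : Prop :=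
  ∀ (j : ℤ), j ≠ 0 → ∀ δ : ℝ, 0 < δ → ∃ M₀ : ℕ, ∀ M : ℕ, M₀ ≤ M → ∀ x : Fin d → ℤ,
    ‖UnitAddTorus.mFourierCoeff (fun k : Tor d => (fourier j (P M k) : ℂ)) x‖ ≤ δ

/-- `K + l ψ(θ)`. -/
def addP {d : ℕ} (ψ : C(UnitAddCircle, ℝ)) (K : C(Tor d, ℝ)) (l : ℝ)
    (θ : C(Tor d, UnitAddCircle)) : C(Tor d, ℝ) where
  toFun k := K k + l * ψ (θ k)
  continuous_toFun := K.continuous.add (continuous_const.mul (ψ.continuous.comp θ.continuous))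

/-- `W(k, θ(k))`. -/
def WP {d : ℕ} (W : C(Tor d × UnitAddCircle, ℂ)) (θ : C(Tor d, UnitAddCircle)) : C(Tor d, ℂ) where
  toFun k := W (k, θ k)
  continuous_toFun := W.continuous.comp (continuous_id.prodMk θ.continuous)

/-- The limit theorem for the phases `P`. -/
def S_C1P {d : ℕ} (P : Phs d) : Prop :=
  ∀ (ν : Measure ℝ) [IsProbabilityMeasure ν], 0 < vr ν → ∀ (q : ℝ)
    (W : C(Tor d × UnitAddCircle, ℂ)) (s U : C(Tor d, ℂ)),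
    q < 1 → ‖W‖ ≤ q → ‖U‖ ≤ q → ‖s‖ ≤ 1 → psi ν U = s →
    (∀ k, U k / (1 - U k * s k)
      = ∫ φ in Set.Ioc (0 : ℝ) 1, W (k, (φ : UnitAddCircle)) / (1 - W (k, φ) * s k)) →
    ∀ e : ℝ, 0 < e → ∃ M₀ : ℕ, ∀ M : ℕ, M₀ ≤ M →
      ‖psi ν (WP W (P M)) - s‖ ≤ e ∧
      ∫ v, ‖Zf (WP W (P M)) (fun x => cay (v x)) - Zf U (fun x => cay (v x))‖
        ∂(Pn ν (Fin d → ℤ)) ≤ e

/-- Adding one level. -/
def S_STEPP {d : ℕ} (P : Phs d) : Prop :=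
  ∀ (ν : Measure ℝ) [IsProbabilityMeasure ν] (ψ : C(UnitAddCircle, ℝ))
    (ρ : Measure ℝ) [IsProbabilityMeasure ρ] (C σ l : ℝ) (K : C(Tor d, ℝ)),
    IsLv ψ → 0 < vr ν → ρ (Set.Icc (-C) C)ᶜ = 0 → (∀ a b : ℝ, ρ {a, b} < 1) →
    0 < l → 0 < σ → (∀ z ∈ Zs d, ∀ s, IsFix ν ((lev ψ l).conv ρ) (wz K z) s → ‖s‖ ≤ 1 - σ) →
    ∀ e : ℝ, 0 < e → ∃ M₀ : ℕ, ∀ M : ℕ, M₀ ≤ M → ∀ z ∈ Zs d, ∀ s s',
      IsFix ν ((lev ψ l).conv ρ) (wz K z) s → IsFix ν ρ (wz (addP ψ K l (P M)) z) s' →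
      ‖s - s'‖ ≤ e ∧ ∫ v, ‖Zf (UU ((lev ψ l).conv ρ) (wz K z) s) (fun x => cay (v x))
        - Zf (UU ρ (wz (addP ψ K l (P M)) z) s') (fun x => cay (v x))‖ ∂(Pn ν (Fin d → ℤ)) ≤ e

/-- Adding one level, uniformly in the law. -/
def S_STEP2P {d : ℕ} (P : Phs d) : Prop :=
  ∀ (ψ : C(UnitAddCircle, ℝ)) (ρ : Measure ℝ) [IsProbabilityMeasure ρ] (C σ l : ℝ)
    (K : C(Tor d, ℝ)) (𝓧 : Set MX),
    IsLv ψ → (∀ X ∈ 𝓧, 0 < vr (qlaw X)) → TB 𝓧 → ρ (Set.Icc (-C) C)ᶜ = 0 →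
    (∀ a b : ℝ, ρ {a, b} < 1) → 0 < l → 0 < σ →
    (∀ X ∈ 𝓧, ∀ z ∈ Zs d, ∀ s, IsFix (qlaw X) ((lev ψ l).conv ρ) (wz K z) s → ‖s‖ ≤ 1 - σ) →
    ∀ e : ℝ, 0 < e → ∃ M₀ : ℕ, ∀ M : ℕ, M₀ ≤ M → ∀ X ∈ 𝓧, ∀ z ∈ Zs d, ∀ s s',
      IsFix (qlaw X) ((lev ψ l).conv ρ) (wz K z) s →
      IsFix (qlaw X) ρ (wz (addP ψ K l (P M)) z) s' →
      ‖s - s'‖ ≤ e ∧ ∫ v, ‖Zf (UU ((lev ψ l).conv ρ) (wz K z) s) (fun x => cay (v x))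
        - Zf (UU ρ (wz (addP ψ K l (P M)) z) s') (fun x => cay (v x))‖
          ∂(Pn (qlaw X) (Fin d → ℤ)) ≤ e

/-- The lower bound is almost preserved by adding a level. -/
def S_JSTEPP {d : ℕ} (P : Phs d) : Prop :=
  ∀ (ψ : C(UnitAddCircle, ℝ)), IsSemi ψ → ∀ (K : C(Tor d, ℝ)) (l l' C : ℝ)
    (ρ'' : Measure ℝ) [IsProbabilityMeasure ρ''], 0 < l → 0 < l' →
    ρ'' (Set.Icc (-C) C)ᶜ = 0 → ∀ e : ℝ, 0 < e → ∃ M₀ : ℕ, ∀ M : ℕ, M₀ ≤ M → ∀ z ∈ Zs d,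
      jf ((lev ψ l).conv ((lev ψ l').conv ρ'')) K z - e
        ≤ jf ((lev ψ l').conv ρ'') (addP ψ K l (P M)) z

theorem IsSemi.lv {ψ : C(UnitAddCircle, ℝ)} (h : IsSemi ψ) : IsLv ψ := ⟨h.bound, h.atom⟩

end

end Pool.Agent.K3h29.LH
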