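import Pool.Agent.W792.WA.G9
import Pool.Agent.K3h29.LH.Defs

/-!
Estimates for a chain, arbitrary phases.
-/

namespace Pool.Agent.K3h29.LH.Ch

open MeasureTheory Filter Pool.Agent.W792.LL Pool.Agent.W792.WA Pool.Agent.W792.WA.Ch
  Pool.Agent.K3h29.LH
open scoped Topology

noncomputable section

/-- The kinetic energy `K + g`. -/
def kg {d : ℕ} (K g : C(Tor d, ℝ)) : C(Tor d, ℝ) := K + g

theorem kg_nx {d : ℕ} (K : C(Tor d, ℝ)) (ψ : C(UnitAddCircle, ℝ)) (g : C(Tor d, ℝ))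
    (l : ℝ) (θ : C(Tor d, UnitAddCircle)) : kg K (addP ψ g l θ) = addP ψ (kg K g) l θ := by
  ext k
  change K k + (g k + l * ψ _) = K k + g k + l * ψ _
  ring

theorem kg_zero {d : ℕ} (K : C(UnitAddTorus (Fin d), ℝ)) : kg K 0 = K := by
  ext k
  change K k + 0 = K k
  ring

theorem kg_le {d : ℕ} (K : C(UnitAddTorus (Fin d), ℝ)) {g : C(Tor d, ℝ)} {b : ℝ}
    (hg : ∀ t, |g t| ≤ b) : ‖kg K g‖ ≤ ‖K‖ + b := by
  have hb : 0 ≤ b := (abs_nonneg _).trans (hg 0)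
  rw [ContinuousMap.norm_le _ (by positivity)]
  intro k
  change ‖K k + g k‖ ≤ _
  refine (norm_add_le _ _).trans ?_
  have h1 := K.norm_coe_le_norm k
  have h2 := hg k
  rw [Real.norm_eq_abs (g k)]
  linarith

/-- The invariant of a stage. -/
def GapK (ν : Measure ℝ) [IsProbabilityMeasure ν] {d : ℕ} (ρ : Measure ℝ)
    (K : C(UnitAddTorus (Fin d), ℝ)) (σ : ℝ) : Prop :=
  ∀ z ∈ Zs d, ∀ s, IsFix ν ρ (wz K z) s → ‖s‖ ≤ 1 - σ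

/-- The bound for the effective contraction. -/
def CtrK (ν : Measure ℝ) [IsProbabilityMeasure ν] {d : ℕ} (ρ : Measure ℝ)
    (K : C(UnitAddTorus (Fin d), ℝ)) (q : ℝ) : Prop :=
  ∀ z ∈ Zs d, ∀ s, IsFix ν ρ (wz K z) s → ‖UU ρ (wz K z) s‖ ≤ q

/-- Data of a chain. -/
structure CEK (ν : Measure ℝ) [IsProbabilityMeasure ν] {d : ℕ}
    (K : C(UnitAddTorus (Fin d), ℝ)) where
  /-- laws of the future levels -/
  ρ : ℕ → Measure ℝ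
  /-- tails -/
  T : ℕ → ℝ
  /-- gap -/
  σ : ℝ
  /-- kinetic energies -/
  f : ℕ → C(Tor d, ℝ)
  /-- limit -/
  fI : C(Tor d, ℝ)
  /-- bound -/
  B : ℝ
  /-- positivity constants -/
  p : ℕ → ℝ
  /-- contraction constants -/
  q : ℕ → ℝ
  hv : 0 < vr ν
  T_anti : Antitone T
  hTp : ∀ n, 0 ≤ T n
  hT0 : Tendsto T atTop (𝓝 0)
  hρ1 : ∀ n, IsProbabilityMeasure (ρ n)
  hρ3 : ∀ n, ρ n (Set.Icc (-(T n)) (T n))ᶜ = 0
  hρ4 : ∀ (n : ℕ) (a b : ℝ), ρ n {a, b} < 1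
  hσ : 0 < σ
  gap : ∀ n, GapK ν (ρ n) (kg K (f n)) σ
  hp : ∀ n, 0 < p n
  anti : ∀ n, p (n + 1) ≤ p n
  hq0 : ∀ n, 0 ≤ q n
  hq1 : ∀ n, q n < 1
  hq2 : ∀ n, p n ≤ (1 - q n ^ 2) / 8
  ctr : ∀ n, CtrK ν (ρ n) (kg K (f n)) (q n)
  fI_diff : ∀ n t, |fI t - f n t| ≤ T n
  fI_id : ∀ t, |fI t| ≤ B
  f_id : ∀ n t, |f n t| ≤ B
  rel : ∀ (n : ℕ), ∀ z ∈ Zs d, ∀ s s',
    IsFix ν (ρ n) (wz (kg K (f n)) z) s → IsFix ν (ρ (n + 1)) (wz (kg K (f (n + 1))) z) s' →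
      ∫ v, ‖Zf (UU (ρ n) (wz (kg K (f n)) z) s) (fun x => cay (v x))
        - Zf (UU (ρ (n + 1)) (wz (kg K (f (n + 1))) z) s') (fun x => cay (v x))‖
          ∂(Pn ν (Fin d → ℤ)) ≤ p n / (64 * 8 ^ n)

namespace CEK

variable {ν : Measure ℝ} [IsProbabilityMeasure ν] {d : ℕ} {K : C(UnitAddTorus (Fin d), ℝ)}
  (D : CEK ν K)

theorem p_anti : Antitone D.p := antitone_nat_of_succ_le D.anti

open Classical in
/-- The solution at stage `n`. -/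
def sol (n : ℕ) (z : ℂ) : C(UnitAddTorus (Fin d), ℂ) :=
  if h : ∃ s, IsFix ν (D.ρ n) (wz (kg K (D.f n)) z) s then Classical.choose h else 0

theorem sol_fix (hU : S_UNI) (n : ℕ) {z : ℂ} (hz : z ∈ Zs d) :
    IsFix ν (D.ρ n) (wz (kg K (D.f n)) z) (D.sol n z) := by
  have := D.hρ1 n
  have h := ((hU ν d (D.ρ n) (D.T n) D.σ (kg K (D.f n)) D.hv (D.hρ3 n) (D.hρ4 n) D.hσ
    (D.gap n)).1 z hz).exists
  unfold sol
  rw [dif_pos h]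
  exact Classical.choose_spec h

/-- The effective contraction at stage `n`. -/
def Un (n : ℕ) (z : ℂ) : C(UnitAddTorus (Fin d), ℂ) :=
  UU (D.ρ n) (wz (kg K (D.f n)) z) (D.sol n z)

theorem Un_le (hU : S_UNI) (n : ℕ) {z : ℂ} (hz : z ∈ Zs d) : ‖D.Un n z‖ ≤ D.q n :=
  D.ctr n z hz _ (D.sol_fix hU n hz)

/-- The limit symbol. -/
def V (z : ℂ) : C(UnitAddTorus (Fin d), ℂ) := us (Measure.dirac 0) 1 z (kg K D.fI)

theorem K_bound (g : C(Tor d, ℝ)) (hg : ∀ t, |g t| ≤ D.B) {z : ℂ} (hz : z ∈ Zs d)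
    (k : UnitAddTorus (Fin d)) : ‖((kg K g k : ℝ) : ℂ) - z‖ ≤ ‖K‖ + 4 * d + D.B + 1 ∧
      (((kg K g k : ℝ) : ℂ) - z).im ≤ -z.im := by
  obtain ⟨h1, h2, h3, h4⟩ := hz
  constructor
  · have e2 : ‖kg K g k‖ ≤ ‖K‖ + D.B := ((kg K g).norm_coe_le_norm k).trans (kg_le K hg)
    have e3 : ‖z‖ ≤ 4 * d + 1 := by
      refine (Complex.norm_le_abs_re_add_abs_im z).trans ?_
      rw [abs_of_nonneg h1, abs_of_pos h3]
      linarith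
    calc ‖((kg K g k : ℝ) : ℂ) - z‖ ≤ ‖((kg K g k : ℝ) : ℂ)‖ + ‖z‖ := norm_sub_le _ _
      _ ≤ _ := by
        rw [Complex.norm_real]
        linarith
  · simp

/-- Bounds at a fixed energy, uniform in the stage. -/
theorem fixed_z (hX : S_CX) (hUU : S_UUC) (hL : S_SCL) (hU : S_UNI) {z : ℂ} (hz : z ∈ Zs d) :
    ∃ q : ℝ, 0 ≤ q ∧ q < 1 ∧ ‖D.V z‖ ≤ q ∧ (∀ n, ‖D.Un n z‖ ≤ q) ∧
      ∀ n, ‖D.V z - D.Un n z‖ ≤ 8 / D.σ ^ 2 * (4 * D.T n) := by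
  obtain ⟨q, hq0, hq1, hq⟩ := hX.2.2.1 (D.T 0) (‖K‖ + 4 * d + D.B + 1) z.im hz.2.2.1
  have hT0 := D.hTp 0
  have hVk : ∀ k, D.V z k = cayx (((kg K D.fI k : ℝ) : ℂ) - z) 0 := fun k =>
    us_dirac hX _ hz.2.2.1.le k
  have hb : ∀ (n : ℕ) (k : UnitAddTorus (Fin d)), ∀ a ∈ Set.Icc (-(D.T n)) (D.T n),
      ‖wz (kg K (D.f n)) z k a‖ ≤ q := by
    intro n k a ha
    have h1 := D.K_bound (D.f n) (D.f_id n) hz k
    refine hq _ a h1.1 h1.2 ?_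
    have := D.T_anti (Nat.zero_le n)
    rw [abs_le]
    constructor <;> linarith [ha.1, ha.2]
  have hV : ‖D.V z‖ ≤ q := by
    rw [ContinuousMap.norm_le _ hq0]
    intro k
    rw [hVk]
    have h1 := D.K_bound D.fI D.fI_id hz k
    exact hq _ 0 h1.1 h1.2 (by simpa using hT0)
  have hcont : ∀ n, Continuous (Function.uncurry (wz (kg K (D.f n)) z)) := fun n =>
    hX.2.2.2 d _ z hz.2.2.1.le
  have huu : ∀ n, (∀ k, D.Un n z k = Us (D.ρ n) (wz (kg K (D.f n)) z k) (D.sol n z k)) ∧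
      ‖D.Un n z‖ ≤ q := by
    intro n
    have := D.hρ1 n
    have hs := (D.sol_fix hU n hz).1
    refine hUU d (D.ρ n) (D.T n) q (wz (kg K (D.f n)) z) (D.sol n z) (D.hρ3 n) (hcont n) hq0
      hq1.le (hb n) hs ?_
    calc q * ‖D.sol n z‖ ≤ q * 1 := by gcongr
      _ < 1 := by linarith
  refine ⟨q, hq0, hq1, hV, fun n => (huu n).2, fun n => ?_⟩
  have hTn := D.hTp n
  have hσ := D.hσ
  have hnn : (0 : ℝ) ≤ 8 / D.σ ^ 2 * (4 * D.T n) := by positivity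
  rw [ContinuousMap.norm_le _ hnn]
  intro k
  have := D.hρ1 n
  rw [ContinuousMap.sub_apply, hVk, (huu n).1 k]
  set w₀ : ℂ := cayx (((kg K D.fI k : ℝ) : ℂ) - z) 0 with hw₀
  have him0 : (((kg K D.fI k : ℝ) : ℂ) - z).im ≤ 0 := by
    have := (D.K_bound D.fI D.fI_id hz k).2
    linarith [hz.2.2.1]
  have him1 : (((kg K (D.f n) k : ℝ) : ℂ) - z).im ≤ 0 := by
    have := (D.K_bound (D.f n) (D.f_id n) hz k).2
    linarith [hz.2.2.1]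
  have hw1 : ‖w₀‖ ≤ 1 := (hX.1 _ 0 him0).1
  have hsn : ‖D.sol n z k‖ ≤ 1 - D.σ :=
    ((D.sol n z).norm_coe_le_norm k).trans (D.gap n z hz _ (D.sol_fix hU n hz))
  have hs1 : ‖D.sol n z k‖ ≤ 1 := by linarith
  have hne : 1 - w₀ * D.sol n z k ≠ 0 := by
    intro h
    have h1 : w₀ * D.sol n z k = 1 := by linear_combination -h
    have h2 := congrArg norm h1
    rw [norm_mul, norm_one] at h2
    have h3 : ‖w₀‖ * ‖D.sol n z k‖ ≤ 1 * (1 - D.σ) := by gcongr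
    linarith
  rw [← Us_const (ρ := D.ρ n) hne]
  have hprod : ∀ w : ℂ, ‖w‖ ≤ 1 → ‖w‖ * ‖D.sol n z k‖ ≤ 1 - D.σ := by
    intro w hw
    calc ‖w‖ * ‖D.sol n z k‖ ≤ 1 * (1 - D.σ) := by gcongr
      _ = _ := one_mul _
  have hcy : ∀ a, ‖wz (kg K (D.f n)) z k a‖ ≤ 1 := fun a => (hX.1 _ a him1).1
  refine (hL (D.ρ n) (fun _ => w₀) (wz (kg K (D.f n)) z k) D.σ (4 * D.T n) (D.sol n z k)
    (D.sol n z k) measurable_const
    ((hcont n).comp (continuous_const.prodMk continuous_id)).measurable hσ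
    (ae_of_all _ fun _ => hw1) (ae_of_all _ hcy) hs1 hs1 (ae_of_all _ fun _ => hprod _ hw1)
    (ae_of_all _ fun a => hprod _ (hcy a)) ?_).trans ?_
  · have hae : ∀ᵐ a ∂(D.ρ n), a ∈ Set.Icc (-(D.T n)) (D.T n) := by
      rw [ae_iff]
      exact D.hρ3 n
    filter_upwards [hae] with a ha
    refine (hX.2.1 _ _ 0 a him0 him1).trans ?_
    have h1 : ‖(((kg K D.fI k : ℝ) : ℂ) - z) - (((kg K (D.f n) k : ℝ) : ℂ) - z)‖ ≤ D.T n := by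
      rw [sub_sub_sub_cancel_right, ← Complex.ofReal_sub, Complex.norm_real, Real.norm_eq_abs]
      have e0 : kg K D.fI k - kg K (D.f n) k = D.fI k - D.f n k := by
        change K k + D.fI k - (K k + D.f n k) = _
        ring
      rw [e0]
      exact D.fI_diff n k
    have h2 : |(0 : ℝ) - a| ≤ D.T n := by
      rw [zero_sub, abs_neg, abs_le]
      exact ha
    linarith
  · simp

/-- Errors of the steps. -/
def de (n : ℕ) : ℝ := D.p n / (64 * 8 ^ n)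

theorem sum_de_le (n m : ℕ) :
    ∑ j ∈ Finset.range m, D.de (n + j) ≤ D.p n / (32 * 8 ^ n) := by
  have h1 : ∀ j ∈ Finset.range m, D.de (n + j) ≤ D.p n / (64 * 8 ^ n) * (1 / 8) ^ j := by
    intro j _
    have h2 := D.p_anti (Nat.le_add_right n j)
    have h3 := D.hp n
    unfold de
    calc D.p (n + j) / (64 * 8 ^ (n + j)) ≤ D.p n / (64 * 8 ^ (n + j)) := by gcongr
      _ = D.p n / (64 * 8 ^ n) * (1 / 8) ^ j := by
        rw [pow_add, one_div, inv_pow]; field_simp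
  refine (Finset.sum_le_sum h1).trans ?_
  rw [← Finset.mul_sum]
  have h4 : ∑ j ∈ Finset.range m, ((1 : ℝ) / 8) ^ j ≤ 2 := by
    have h5 : ∑ j ∈ Finset.range m, ((1 : ℝ) / 8) ^ j = (1 - (1 / 8) ^ m) * (8 / 7) := by
      rw [geom_sum_eq (by norm_num)]
      field_simp; ring
    rw [h5]
    have : (0 : ℝ) ≤ (1 / 8) ^ m := by positivity
    linarith
  have h6 := D.hp n
  calc D.p n / (64 * 8 ^ n) * ∑ j ∈ Finset.range m, ((1 : ℝ) / 8) ^ j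
      ≤ D.p n / (64 * 8 ^ n) * 2 := by gcongr
    _ = D.p n / (32 * 8 ^ n) := by field_simp; ring

/-- Phase function of stage `n`. -/
def Zn (n : ℕ) (z : ℂ) (v : (Fin d → ℤ) → ℝ) : ℂ := Zf (D.Un n z) (fun x => cay (v x))

/-- Phase function of the limit. -/
def Zi (z : ℂ) (v : (Fin d → ℤ) → ℝ) : ℂ := Zf (D.V z) (fun x => cay (v x))

theorem int_Zn (hZ : S_ZF) (hCay : S_CAY) (hM : S_MZP) (hU : S_UNI) (n : ℕ) {z : ℂ}
    (hz : z ∈ Zs d) : Integrable (D.Zn n z) (Pn ν (Fin d → ℤ)) :=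
  Zf_int hZ hCay hM ν (D.hq0 n) (D.hq1 n) (D.Un_le hU n hz)

theorem chain (hZ : S_ZF) (hCay : S_CAY) (hM : S_MZP) (hU : S_UNI) {z : ℂ}
    (hz : z ∈ Zs d) (n m : ℕ) :
    ∫ v, ‖D.Zn n z v - D.Zn (n + m) z v‖ ∂(Pn ν (Fin d → ℤ))
      ≤ ∑ j ∈ Finset.range m, D.de (n + j) := by
  induction m with
  | zero => simp
  | succ m ih =>
    have a1 := D.int_Zn hZ hCay hM hU n hz
    have a2 := D.int_Zn hZ hCay hM hU (n + m) hz
    have a3 := D.int_Zn hZ hCay hM hU (n + m + 1) hz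
    have i2 := D.rel (n + m) z hz _ _ (D.sol_fix hU (n + m) hz) (D.sol_fix hU (n + m + 1) hz)
    have e : n + (m + 1) = n + m + 1 := by omega
    rw [Finset.sum_range_succ, e]
    calc ∫ v, ‖D.Zn n z v - D.Zn (n + m + 1) z v‖ ∂(Pn ν (Fin d → ℤ))
        ≤ ∫ v, (‖D.Zn n z v - D.Zn (n + m) z v‖
            + ‖D.Zn (n + m) z v - D.Zn (n + m + 1) z v‖) ∂(Pn ν (Fin d → ℤ)) := by
          refine integral_mono (a1.sub a3).norm ((a1.sub a2).norm.add (a2.sub a3).norm) fun v => ?_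
          exact norm_sub_le_norm_sub_add_norm_sub _ _ _
      _ = ∫ v, ‖D.Zn n z v - D.Zn (n + m) z v‖ ∂(Pn ν (Fin d → ℤ))
          + ∫ v, ‖D.Zn (n + m) z v - D.Zn (n + m + 1) z v‖ ∂(Pn ν (Fin d → ℤ)) :=
          integral_add (a1.sub a2).norm (a2.sub a3).norm
      _ ≤ _ := add_le_add ih i2

theorem int_Zi (hX : S_CX) (hUU : S_UUC) (hL : S_SCL) (hZ : S_ZF) (hCay : S_CAY) (hM : S_MZP)
    (hU : S_UNI) {z : ℂ} (hz : z ∈ Zs d) : Integrable (D.Zi z) (Pn ν (Fin d → ℤ)) := by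
  obtain ⟨q, h0, h1, h2, -⟩ := D.fixed_z hX hUU hL hU hz
  exact Zf_int hZ hCay hM ν h0 h1 h2

theorem mean_close (hX : S_CX) (hUU : S_UUC) (hL : S_SCL) (hZ : S_ZF) (hCay : S_CAY)
    (hM : S_MZP) (hU : S_UNI) {z : ℂ} (hz : z ∈ Zs d) (n : ℕ) :
    ∫ v, ‖D.Zi z v - D.Zn n z v‖ ∂(Pn ν (Fin d → ℤ)) ≤ D.p n / (32 * 8 ^ n) := by
  refine le_of_forall_pos_le_add fun τ hτ => ?_
  obtain ⟨q, h0, h1, h2, h3, h4⟩ := D.fixed_z hX hUU hL hU hz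
  have hq : 0 < 1 - q := by linarith
  have hlim : Tendsto (fun k : ℕ => 8 / D.σ ^ 2 * (4 * D.T k) / (1 - q) ^ 2) atTop (𝓝 0) := by
    have h5 := ((D.hT0.const_mul 4).const_mul (8 / D.σ ^ 2)).div_const ((1 - q) ^ 2)
    simpa using h5
  obtain ⟨k₀, hk₀⟩ := (hlim.eventually_lt_const hτ).exists_forall_of_atTop
  have i1 := D.int_Zi hX hUU hL hZ hCay hM hU hz
  have i2 := D.int_Zn hZ hCay hM hU (n + k₀) hz
  have i3 := D.int_Zn hZ hCay hM hU n hz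
  calc ∫ v, ‖D.Zi z v - D.Zn n z v‖ ∂(Pn ν (Fin d → ℤ))
      ≤ ∫ v, (‖D.Zi z v - D.Zn (n + k₀) z v‖
          + ‖D.Zn n z v - D.Zn (n + k₀) z v‖) ∂(Pn ν (Fin d → ℤ)) := by
        refine integral_mono (i1.sub i3).norm ((i1.sub i2).norm.add (i3.sub i2).norm) fun v => ?_
        simp only
        rw [norm_sub_rev (D.Zn n z v)]
        exact norm_sub_le_norm_sub_add_norm_sub _ _ _
    _ = ∫ v, ‖D.Zi z v - D.Zn (n + k₀) z v‖ ∂(Pn ν (Fin d → ℤ))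
        + ∫ v, ‖D.Zn n z v - D.Zn (n + k₀) z v‖ ∂(Pn ν (Fin d → ℤ)) :=
        integral_add (i1.sub i2).norm (i3.sub i2).norm
    _ ≤ τ + D.p n / (32 * 8 ^ n) := by
        refine add_le_add ?_ ((D.chain hZ hCay hM hU hz n k₀).trans (D.sum_de_le n k₀))
        calc ∫ v, ‖D.Zi z v - D.Zn (n + k₀) z v‖ ∂(Pn ν (Fin d → ℤ))
            ≤ ∫ _, τ ∂(Pn ν (Fin d → ℤ)) := by
              refine integral_mono (i1.sub i2).norm (integrable_const _) fun v => ?_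
              refine (Zf_lip hZ hCay h0 h1 h2 (h3 (n + k₀)) v).trans ?_
              refine le_trans ?_ (hk₀ (n + k₀) (by omega)).le
              gcongr
              exact h4 (n + k₀)
          _ = τ := by simp
    _ = _ := by ring

/-- The phase function of the limit, real part. -/
theorem Pf_eq (η E : ℝ) (v : (Fin d → ℤ) → ℝ) :
    PfK (kg K D.fI) η E v = 2 * (D.Zi ⟨E, η⟩ v).re - 1 := rfl

theorem mean_diff (hX : S_CX) (hUU : S_UUC) (hL : S_SCL) (hZ : S_ZF) (hCay : S_CAY)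
    (hM : S_MZP) (hU : S_UNI) (n : ℕ) {η η' E θ ω : ℝ} (hz : (⟨E, η⟩ : ℂ) ∈ Zs d)
    (hz' : (⟨E, η'⟩ : ℂ) ∈ Zs d)
    (hθ : ∀ z ∈ Zs d, ∀ z' ∈ Zs d, ‖z - z'‖ ≤ θ → ∀ s s',
      IsFix ν (D.ρ n) (wz (kg K (D.f n)) z) s → IsFix ν (D.ρ n) (wz (kg K (D.f n)) z') s' →
        ‖s - s'‖ ≤ ω ∧
          ‖UU (D.ρ n) (wz (kg K (D.f n)) z) s - UU (D.ρ n) (wz (kg K (D.f n)) z') s'‖ ≤ ω)
    (hη : |η - η'| ≤ θ) :
    ∫ v, |PfK (kg K D.fI) η E v - PfK (kg K D.fI) η' E v| ∂(Pn ν (Fin d → ℤ))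
      ≤ 2 * (D.p n / (16 * 8 ^ n) + ω / (1 - D.q n) ^ 2) := by
  have c1 := D.mean_close hX hUU hL hZ hCay hM hU hz n
  have c2 := D.mean_close hX hUU hL hZ hCay hM hU hz' n
  have i1 := D.int_Zi hX hUU hL hZ hCay hM hU hz
  have i1' := D.int_Zi hX hUU hL hZ hCay hM hU hz'
  have i2 := D.int_Zn hZ hCay hM hU n hz
  have i2' := D.int_Zn hZ hCay hM hU n hz'
  set L : ℝ := ω / (1 - D.q n) ^ 2 with hLdef
  have hd : ‖(⟨E, η⟩ : ℂ) - ⟨E, η'⟩‖ ≤ θ := by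
    have e : (⟨E, η⟩ : ℂ) - ⟨E, η'⟩ = ((η - η' : ℝ) : ℂ) * Complex.I := by
      apply Complex.ext <;> simp
    rw [e, norm_mul, Complex.norm_I, mul_one, Complex.norm_real]
    exact hη
  have hω := (hθ _ hz _ hz' hd _ _ (D.sol_fix hU n hz) (D.sol_fix hU n hz')).2
  have hlip : ∀ v, ‖D.Zn n ⟨E, η⟩ v - D.Zn n ⟨E, η'⟩ v‖ ≤ L := by
    intro v
    refine (Zf_lip hZ hCay (D.hq0 n) (D.hq1 n) (D.Un_le hU n hz) (D.Un_le hU n hz') v).trans ?_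
    have : 0 < 1 - D.q n := by linarith [D.hq1 n]
    rw [hLdef]
    gcongr
    exact hω
  have key : ∀ v, |PfK (kg K D.fI) η E v - PfK (kg K D.fI) η' E v|
      ≤ 2 * ‖D.Zi ⟨E, η⟩ v - D.Zn n ⟨E, η⟩ v‖
        + (2 * ‖D.Zi ⟨E, η'⟩ v - D.Zn n ⟨E, η'⟩ v‖ + 2 * L) := by
    intro v
    rw [Pf_eq, Pf_eq]
    have e1 : 2 * (D.Zi ⟨E, η⟩ v).re - 1 - (2 * (D.Zi ⟨E, η'⟩ v).re - 1)
        = 2 * (D.Zi ⟨E, η⟩ v - D.Zi ⟨E, η'⟩ v).re := by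
      rw [Complex.sub_re]; ring
    rw [e1, abs_mul, abs_two]
    have e2 := Complex.abs_re_le_norm (D.Zi ⟨E, η⟩ v - D.Zi ⟨E, η'⟩ v)
    have e3 : ‖D.Zi ⟨E, η⟩ v - D.Zi ⟨E, η'⟩ v‖
        ≤ ‖D.Zi ⟨E, η⟩ v - D.Zn n ⟨E, η⟩ v‖
          + ‖D.Zn n ⟨E, η⟩ v - D.Zn n ⟨E, η'⟩ v‖
          + ‖D.Zn n ⟨E, η'⟩ v - D.Zi ⟨E, η'⟩ v‖ := by
      have : D.Zi ⟨E, η⟩ v - D.Zi ⟨E, η'⟩ v
          = (D.Zi ⟨E, η⟩ v - D.Zn n ⟨E, η⟩ v)
          + (D.Zn n ⟨E, η⟩ v - D.Zn n ⟨E, η'⟩ v)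
          + (D.Zn n ⟨E, η'⟩ v - D.Zi ⟨E, η'⟩ v) := by ring
      rw [this]
      exact norm_add₃_le
    rw [norm_sub_rev (D.Zn n ⟨E, η'⟩ v)] at e3
    have e4 := hlip v
    linarith
  calc ∫ v, |PfK (kg K D.fI) η E v - PfK (kg K D.fI) η' E v| ∂(Pn ν (Fin d → ℤ))
      ≤ ∫ v, (2 * ‖D.Zi ⟨E, η⟩ v - D.Zn n ⟨E, η⟩ v‖
        + (2 * ‖D.Zi ⟨E, η'⟩ v - D.Zn n ⟨E, η'⟩ v‖ + 2 * L)) ∂(Pn ν (Fin d → ℤ)) := by
        refine integral_mono ?_ (((i1.sub i2).norm.const_mul 2).add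
          (((i1'.sub i2').norm.const_mul 2).add (integrable_const _))) key
        refine ((((i1.re).const_mul 2).sub (integrable_const 1)).sub
          (((i1'.re).const_mul 2).sub (integrable_const 1))).abs
    _ = 2 * ∫ v, ‖D.Zi ⟨E, η⟩ v - D.Zn n ⟨E, η⟩ v‖ ∂(Pn ν (Fin d → ℤ))
        + (2 * ∫ v, ‖D.Zi ⟨E, η'⟩ v - D.Zn n ⟨E, η'⟩ v‖ ∂(Pn ν (Fin d → ℤ)) + 2 * L) := by
        have j1 : Integrable (fun v => 2 * ‖D.Zi ⟨E, η⟩ v - D.Zn n ⟨E, η⟩ v‖)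
            (Pn ν (Fin d → ℤ)) := (i1.sub i2).norm.const_mul 2
        have j2 : Integrable (fun v => 2 * ‖D.Zi ⟨E, η'⟩ v - D.Zn n ⟨E, η'⟩ v‖)
            (Pn ν (Fin d → ℤ)) := (i1'.sub i2').norm.const_mul 2
        have j3 : Integrable (fun v => 2 * ‖D.Zi ⟨E, η'⟩ v - D.Zn n ⟨E, η'⟩ v‖ + 2 * L)
            (Pn ν (Fin d → ℤ)) := j2.add (integrable_const _)
        rw [integral_add j1 j3, integral_add j2 (integrable_const _),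
          integral_const_mul, integral_const_mul]
        simp
    _ ≤ 2 * (D.p n / (32 * 8 ^ n)) + (2 * (D.p n / (32 * 8 ^ n)) + 2 * L) := by gcongr
    _ = 2 * (D.p n / (16 * 8 ^ n) + L) := by
        have : D.p n / (32 * 8 ^ n) = D.p n / (16 * 8 ^ n) / 2 := by field_simp; ring
        rw [this]; ring

theorem rarely_small (hX : S_CX) (hUU : S_UUC) (hL : S_SCL) (hZ : S_ZF) (hCay : S_CAY)
    (hM : S_MZP) (hU : S_UNI) (n : ℕ) {η E : ℝ} (hz : (⟨E, η⟩ : ℂ) ∈ Zs d) :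
    ((Pn ν (Fin d → ℤ)) {v | PfK (kg K D.fI) η E v < D.p n}).toReal ≤ 1 / 4 ^ n := by
  have hp := D.hp n
  have c1 := D.mean_close hX hUU hL hZ hCay hM hU hz n
  have i1 := D.int_Zi hX hUU hL hZ hCay hM hU hz
  have i2 := D.int_Zn hZ hCay hM hU n hz
  have hsub : {v | PfK (kg K D.fI) η E v < D.p n} ⊆
      {v | D.p n / 2 ≤ ‖D.Zi ⟨E, η⟩ v - D.Zn n ⟨E, η⟩ v‖} := by
    intro v hv
    have h1 := Zf_pos hZ hCay (D.hq0 n) (D.hq1 n) (D.Un_le hU n hz) v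
    have h2 : PfK (kg K D.fI) η E v < D.p n := hv
    have h3 := Complex.abs_re_le_norm (D.Zi ⟨E, η⟩ v - D.Zn n ⟨E, η⟩ v)
    rw [Complex.sub_re] at h3
    have h4 := neg_abs_le ((D.Zi ⟨E, η⟩ v).re - (D.Zn n ⟨E, η⟩ v).re)
    have h5 : (1 - D.q n ^ 2) / 4 ≤ 2 * (D.Zn n ⟨E, η⟩ v).re - 1 := h1
    have h6 := D.hq2 n
    rw [Pf_eq] at h2
    change D.p n / 2 ≤ _
    linarith
  have hmk := mul_meas_ge_le_integral_of_nonneg (μ := Pn ν (Fin d → ℤ))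
    (ae_of_all _ fun v => norm_nonneg (D.Zi ⟨E, η⟩ v - D.Zn n ⟨E, η⟩ v))
    (i1.sub i2).norm (D.p n / 2)
  have h5 : ((Pn ν (Fin d → ℤ)) {v | PfK (kg K D.fI) η E v < D.p n}).toReal
      ≤ ((Pn ν (Fin d → ℤ)) {v | D.p n / 2 ≤ ‖D.Zi ⟨E, η⟩ v - D.Zn n ⟨E, η⟩ v‖}).toReal :=
    ENNReal.toReal_mono (measure_ne_top _ _) (measure_mono hsub)
  refine h5.trans ?_
  have h6 : (D.p n / 2) * ((Pn ν (Fin d → ℤ)) {v | D.p n / 2
        ≤ ‖D.Zi ⟨E, η⟩ v - D.Zn n ⟨E, η⟩ v‖}).toReal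
      ≤ D.p n / (32 * 8 ^ n) := by
    refine le_trans ?_ c1
    exact hmk
  have h7 : D.p n / (32 * 8 ^ n) ≤ (D.p n / 2) * (1 / 4 ^ n) := by
    have h8 : (4 : ℝ) ^ n ≤ 8 ^ n := pow_le_pow_left₀ (by norm_num) (by norm_num) n
    have h9 : (0 : ℝ) < 4 ^ n := by positivity
    calc D.p n / (32 * 8 ^ n) ≤ D.p n / (2 * 4 ^ n) := by
          apply div_le_div_of_nonneg_left hp.le (by positivity)
          linarith
      _ = _ := by field_simp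
  exact le_of_mul_le_mul_left (h6.trans h7) (by positivity)

/-- Conclusion for a chain. -/
theorem concl (hX : S_CX) (hUU : S_UUC) (hL : S_SCL) (hZ : S_ZF) (hCay : S_CAY)
    (hM : S_MZP) (hU : S_UNI) :
    ∃ η p : ℕ → ℝ, (∀ n, 0 < η n ∧ η n ≤ 1) ∧
      Tendsto η atTop (𝓝 0) ∧ (∀ n, 0 < p n) ∧ Antitone p ∧
      ∀ (n : ℕ) (E : ℝ), 0 ≤ E → E ≤ 4 * d →
        ∫ v, |PfK (kg K D.fI) (η (n + 1)) E v - PfK (kg K D.fI) (η n) E v| ∂(Pn ν (Fin d → ℤ))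
          ≤ p n / 4 ^ n ∧
        (Pn ν (Fin d → ℤ) {v | PfK (kg K D.fI) (η n) E v < p n}).toReal ≤ 1 / 4 ^ n := by
  have hθ : ∀ n, ∃ θ : ℝ, 0 < θ ∧ ∀ z ∈ Zs d, ∀ z' ∈ Zs d, ‖z - z'‖ ≤ θ → ∀ s s',
      IsFix ν (D.ρ n) (wz (kg K (D.f n)) z) s → IsFix ν (D.ρ n) (wz (kg K (D.f n)) z') s' →
        ‖s - s'‖ ≤ (1 - D.q n) ^ 2 * (D.p n / (8 * 4 ^ n)) ∧
          ‖UU (D.ρ n) (wz (kg K (D.f n)) z) s - UU (D.ρ n) (wz (kg K (D.f n)) z') s'‖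
            ≤ (1 - D.q n) ^ 2 * (D.p n / (8 * 4 ^ n)) := by
    intro n
    have := D.hρ1 n
    have h1 : 0 < 1 - D.q n := by linarith [D.hq1 n]
    have h2 := D.hp n
    exact (hU ν d (D.ρ n) (D.T n) D.σ (kg K (D.f n)) D.hv (D.hρ3 n) (D.hρ4 n) D.hσ
      (D.gap n)).2.2 _ (by positivity)
  choose θ hθ0 hθ1 using hθ
  obtain ⟨η, hη0, hη1, hηa, hηle, hηt⟩ := exists_eta θ hθ0
  refine ⟨η, D.p, fun n => ⟨hη0 n, hη1 n⟩, hηt, D.hp, D.p_anti, fun n E h0 h1 => ?_⟩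
  have hz : ∀ m, (⟨E, η m⟩ : ℂ) ∈ Zs d := fun m => ⟨h0, h1, hη0 m, hη1 m⟩
  refine ⟨?_, D.rarely_small hX hUU hL hZ hCay hM hU n (hz n)⟩
  have hab : |η (n + 1) - η n| ≤ θ n := by
    rw [abs_le]
    have := hηa (Nat.le_succ n)
    have := hηle n
    have := hη0 (n + 1)
    have := hη0 n
    constructor <;> linarith
  refine (D.mean_diff hX hUU hL hZ hCay hM hU n (hz (n + 1)) (hz n) (hθ1 n) hab).trans ?_
  have h2 : 0 < 1 - D.q n := by linarith [D.hq1 n]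
  have h3 := D.hp n
  have h4 : (1 - D.q n) ^ 2 * (D.p n / (8 * 4 ^ n)) / (1 - D.q n) ^ 2 = D.p n / (8 * 4 ^ n) := by
    field_simp
  rw [h4]
  have h5 : D.p n / (16 * 8 ^ n) ≤ D.p n / (8 * 4 ^ n) := by
    have h8 : (4 : ℝ) ^ n ≤ 8 ^ n := pow_le_pow_left₀ (by norm_num) (by norm_num) n
    have h9 : (0 : ℝ) < 4 ^ n := by positivity
    apply div_le_div_of_nonneg_left h3.le (by positivity)
    linarith
  have h6 : D.p n / 4 ^ n = 8 * (D.p n / (8 * 4 ^ n)) := by field_simp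
  have h7 : 0 ≤ D.p n / (8 * 4 ^ n) := by positivity
  linarith

end CEK

end

end Pool.Agent.K3h29.LH.Ch
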