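import Pool.Agent.K3h29.LH.ScalGap
import Pool.Agent.K3h29.LH.Ch

/-!
The gap for nearly constant kinetic energies.
-/

set_option autoImplicit false

namespace Pool.Agent.K3h29.LH.GapE

open MeasureTheory Filter Set
open scoped Topology
open Pool.Agent.W792.LL Pool.Agent.W792.WA Pool.Agent.K3h29.LH Pool.Agent.K3h29.LH.Scal
open Pool.Agent.K3h29.LH.ScalGap

noncomputable section

/-- A solution near the scalar one. -/
theorem near {d : ℕ} (ρ : Measure ℝ) [IsProbabilityMeasure ρ] {C : ℝ}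
    (hρ : ρ (Set.Icc (-C) C)ᶜ = 0) (hρ2 : ∀ a b : ℝ, ρ {a, b} < 1) {σ D b : ℝ} (hσ : 0 < σ)
    (hσ1 : σ ≤ 1) (hbD : |b| + 4 * d + 1 ≤ D) :
    ∃ t₀ : ℝ, 0 < t₀ ∧ ∀ (ν : Measure ℝ) [IsProbabilityMeasure ν], 0 < vr ν →
      ∀ K : C(Tor d, ℝ), ‖K - cK d b‖ ≤ t₀ → ∀ z ∈ Zs d, ∀ t : ℂ, ‖t‖ ≤ 1 - σ →
      IsFix ν ρ (wz (cK d b) z) (cst d t) → ∀ s, IsFix ν ρ (wz K z) s → ‖s‖ ≤ 1 - σ / 2 := by
  obtain ⟨γ, hγ0, hγ1, hγ⟩ := Al.gain ρ C (D + 1) σ hρ hρ2 hσ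
  have hT0 : 0 < σ * γ * (σ / 2) ^ 2 / 28 * γ * σ ^ 2 / 16 := by positivity
  refine ⟨min 1 (σ * γ * (σ / 2) ^ 2 / 28 * γ * σ ^ 2 / 16), lt_min one_pos hT0, ?_⟩
  intro ν _ hv K hK z hz t ht htf s hs
  obtain ⟨hz1, hz2, hz3, hz4⟩ := hz
  have hK1 : ‖K - cK d b‖ ≤ 1 := hK.trans (min_le_left _ _)
  have hK2 : ‖K - cK d b‖ ≤ σ * γ * (σ / 2) ^ 2 / 28 * γ * σ ^ 2 / 16 :=
    hK.trans (min_le_right _ _)
  have hKk : ∀ k, |K k - b| ≤ ‖K - cK d b‖ := fun k => (K - cK d b).norm_coe_le_norm k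
  have hbz : ‖(b : ℂ) - z‖ ≤ D := by
    refine (Complex.norm_le_abs_re_add_abs_im _).trans ?_
    simp only [Complex.sub_re, Complex.ofReal_re, Complex.sub_im, Complex.ofReal_im, zero_sub,
      abs_neg]
    rw [abs_of_pos hz3]
    have h1 := abs_sub b z.re
    rw [abs_of_nonneg hz1] at h1
    linarith
  have hKz : ∀ k, ‖(K k : ℂ) - z‖ ≤ D + 1 := by
    intro k
    have e : (K k : ℂ) - z = ((K k - b : ℝ) : ℂ) + ((b : ℂ) - z) := by
      push_cast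
      ring
    rw [e]
    refine (norm_add_le _ _).trans ?_
    rw [Complex.norm_real, Real.norm_eq_abs]
    have := hKk k
    linarith
  have him : ∀ r : ℝ, ((r : ℂ) - z).im ≤ 0 := Step.im_le hz3.le
  -- contraction at positive imaginary part
  obtain ⟨q, hq0, hq1, hq2⟩ := Al.cx.2.2.1 C (D + 1) z.im hz3
  have hwK : ∀ k : UnitAddTorus (Fin d), ∀ a ∈ Set.Icc (-C) C, ‖wz K z k a‖ ≤ q := by
    intro k a ha
    exact hq2 _ a (hKz k) (by simp) (abs_le.2 ha)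
  have hwc : Continuous (Function.uncurry (wz K z)) := Al.cx.2.2.2 d K z hz3.le
  have hfx := (Al.fix ν d ρ C q (wz K z) hv hρ hwc hq0 hq1 hwK).2.1 s hs
  have hs1 : ∀ k, ‖s k‖ < 1 := by
    intro k
    have h1 := hfx k
    have h2 : 0 < (1 - q ^ 2) * vr ν / 4 := by
      have : q ^ 2 < 1 := by nlinarith
      have : 0 < 1 - q ^ 2 := by linarith
      positivity
    nlinarith [norm_nonneg (s k)]
  have hcn : ‖cst d t‖ ≤ 1 - σ := by rwa [cst_norm]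
  have hUs : ∀ k, UU ρ (wz K z) s k = Us ρ (cayx ((K k : ℂ) - z)) (s k) := by
    intro k
    have h := (Al.uuc d ρ C q (wz K z) s hρ hwc hq0 hq1.le hwK hs.1 (by
      nlinarith [norm_nonneg s, hs.1])).1 k
    rw [h]
    rfl
  have hUt : ∀ k, UU ρ (wz K z) (cst d t) k = Us ρ (cayx ((K k : ℂ) - z)) t := fun k =>
    Step.UU_apply Al.cx Al.uuc ρ hρ K hz3.le (by linarith) k
  have hUb : ∀ k, UU ρ (wz (cK d b) z) (cst d t) k = Us ρ (cayx ((b : ℂ) - z)) t := fun k =>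
    Step.UU_apply Al.cx Al.uuc ρ hρ (cK d b) hz3.le (by linarith) k
  have ht1 : ‖t‖ < 1 := by linarith
  -- the residual
  set q' : ℝ := Real.sqrt (1 - γ) with hq'
  have hq'0 : 0 ≤ q' := Real.sqrt_nonneg _
  have hq'2 : q' ^ 2 = 1 - γ := Real.sq_sqrt (by linarith)
  have hq'1 : q' < 1 := by nlinarith
  have hb1 : ‖UU ρ (wz K z) (cst d t)‖ ≤ q' := by
    rw [ContinuousMap.norm_le _ hq'0]
    intro k
    rw [hUt, ← abs_of_nonneg hq'0, ← abs_of_nonneg (norm_nonneg (Us ρ _ t))]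
    apply sq_le_sq.1
    rw [hq'2]
    exact (hγ _ t t (hKz k) (him _) ht1 ht).2
  have hb2 : ‖UU ρ (wz (cK d b) z) (cst d t)‖ ≤ q' := by
    rw [ContinuousMap.norm_le _ hq'0]
    intro k
    rw [hUb, ← abs_of_nonneg hq'0, ← abs_of_nonneg (norm_nonneg (Us ρ _ t))]
    apply sq_le_sq.1
    rw [hq'2]
    exact (hγ _ t t (hbz.trans (by linarith)) (him _) ht1 ht).2
  have hdiff : ‖UU ρ (wz K z) (cst d t) - UU ρ (wz (cK d b) z) (cst d t)‖
      ≤ 8 / σ ^ 2 * (2 * ‖K - cK d b‖) := by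
    rw [ContinuousMap.norm_le _ (by positivity)]
    intro k
    rw [ContinuousMap.sub_apply, hUt, hUb]
    refine (Step.lip Al.scl Al.cx ρ hσ (him _) (him _) ht ht).trans ?_
    have h1 : ‖(K k : ℂ) - z - ((b : ℂ) - z)‖ ≤ ‖K - cK d b‖ := by
      have e : (K k : ℂ) - z - ((b : ℂ) - z) = ((K k - b : ℝ) : ℂ) := by
        push_cast
        ring
      rw [e, Complex.norm_real]
      exact hKk k
    rw [sub_self, norm_zero, add_zero]
    exact mul_le_mul_of_nonneg_left (by linarith) (by positivity)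
  have hres : ‖psi ν (UU ρ (wz K z) (cst d t)) - cst d t‖
      ≤ 8 / σ ^ 2 * (2 * ‖K - cK d b‖) / γ := by
    have h1 := (Al.psi ν d q' (UU ρ (wz K z) (cst d t)) (UU ρ (wz (cK d b) z) (cst d t)) hq'0 hq'1
      hb1 hb2).2.2
    rw [htf.2, hq'2] at h1
    have e : 1 - (1 - γ) = γ := by ring
    rw [e] at h1
    exact h1.trans (div_le_div_of_nonneg_right hdiff hγ0.le)
  set e : ℝ := σ * γ * (σ / 2) ^ 2 / 28 with he
  have he0 : 0 < e := by positivity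
  have hres2 : 8 / σ ^ 2 * (2 * ‖K - cK d b‖) / γ ≤ e := by
    calc 8 / σ ^ 2 * (2 * ‖K - cK d b‖) / γ
        ≤ 8 / σ ^ 2 * (2 * (e * γ * σ ^ 2 / 16)) / γ := by gcongr
      _ = e := by field_simp; ring
  have hσγ : σ * γ ≤ 1 := by nlinarith
  have hstab := Al.stab ν d ρ C q σ γ e (wz K z) s (cst d t) hv hρ hwc hq0 hq1 hwK hσ hγ0 hγ1 hs
    hcn (hres.trans hres2) (by
      rw [he]
      have : (σ / 2) ^ 2 ≤ 1 := by nlinarith
      have h2 : 0 < σ * γ := by positivity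
      nlinarith) (by
      intro k
      rw [hUs, hUt, cst_apply]
      exact (hγ _ (s k) t (hKz k) (him _) (hs1 k) ht).1)
  have h28 : 28 * e / (σ * γ) = (σ / 2) ^ 2 := by
    rw [he]
    field_simp
  rw [h28] at hstab
  have h5 : ‖s - cst d t‖ ≤ σ / 2 := by
    rw [← abs_of_nonneg (norm_nonneg (s - cst d t)), ← abs_of_nonneg (by positivity : 0 ≤ σ / 2)]
    exact sq_le_sq.1 hstab
  have h6 : ‖s‖ ≤ ‖s - cst d t‖ + ‖cst d t‖ := by
    have := norm_add_le (s - cst d t) (cst d t)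
    rwa [sub_add_cancel] at this
  linarith

/-- The gap. -/
theorem gapE {d : ℕ} {ψ : C(UnitAddCircle, ℝ)} (hψ : IsSemi ψ) {A B κ δ r v₀ b C : ℝ} (hr : 0 < r)
    (h12 : 12 * r ≤ δ) (hδ : 0 < δ) (hδ1 : δ ≤ 1) (hκ : 0 < κ) (hv0 : 0 < v₀)
    (hA : A + 2 * δ ≤ -b) (hB : 4 * d - b ≤ B - 2 * δ) (ρ' : Measure ℝ) [IsProbabilityMeasure ρ']
    (hρ' : ρ' (Set.Icc (-(r / 48)) (r / 48))ᶜ = 0)
    (hρ : ((lev ψ r).conv ρ') (Set.Icc (-C) C)ᶜ = 0)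
    (hρ2 : ∀ a b : ℝ, ((lev ψ r).conv ρ') {a, b} < 1) :
    ∃ t₀ σ : ℝ, 0 < t₀ ∧ 0 < σ ∧ ∀ (ν : Measure ℝ) [IsProbabilityMeasure ν],
      ENNReal.ofReal κ • volume.restrict (Icc A B) ≤ ν → v₀ ≤ vr ν →
      ∀ K : C(Tor d, ℝ), ‖K - cK d b‖ ≤ t₀ → Ch.GapK ν ((lev ψ r).conv ρ') K σ := by
  have hprob : IsProbabilityMeasure (lev ψ r) := Step.prob_lev ψ r
  set D : ℝ := |b| + 4 * d + 1 with hD
  have hD0 : 0 ≤ D := by positivity
  have hc := cg_pos (D := D) hκ hδ hr hD0 hv0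
  set σ : ℝ := min 1 (cg κ δ r D v₀ / 2) with hσ
  have hσ0 : 0 < σ := lt_min one_pos (by positivity)
  obtain ⟨t₀, ht0, h⟩ := near (d := d) ((lev ψ r).conv ρ') hρ hρ2 hσ0 (min_le_left _ _) hD.ge
  refine ⟨t₀, σ / 2, ht0, by positivity, ?_⟩
  intro ν _ hν hv K hK z hz s hs
  have hvp : 0 < vr ν := hv0.trans_le hv
  obtain ⟨t, ht1, hU1, hfix, htf⟩ := exists_scal (d := d) ν hvp ((lev ψ r).conv ρ') hρ b hz.2.2.1
  have hbz : ‖(b : ℂ) - z‖ ≤ D := by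
    refine (Complex.norm_le_abs_re_add_abs_im _).trans ?_
    simp only [Complex.sub_re, Complex.ofReal_re, Complex.sub_im, Complex.ofReal_im, zero_sub,
      abs_neg]
    rw [abs_of_pos hz.2.2.1]
    have h1 := abs_sub b z.re
    rw [abs_of_nonneg hz.1] at h1
    linarith [hz.2.1, hz.2.2.2]
  have h1 := scal hψ hr h12 hδ hδ1 hκ ν hν hv0 hv ρ' hρ' hz.2.2.1 hz.2.2.2
    (by linarith [hz.1]) (by linarith [hz.2.1]) hbz ht1 hU1 hfix
  have ht2 : ‖t‖ ≤ 1 - σ := by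
    have h2 : σ ≤ cg κ δ r D v₀ / 2 := min_le_right _ _
    by_contra h3
    push Not at h3
    have h4 : σ ≤ 1 := min_le_left _ _
    nlinarith
  exact h ν hvp K hK z hz t ht2 htf s hs

end

end Pool.Agent.K3h29.LH.GapE
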