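import Mathlib

/-!
Half plane estimates for averages of semicircle transforms.
-/

set_option autoImplicit false

namespace Pool.Agent.K3h29.LH.Hp

open MeasureTheory Filter
open scoped Topology ComplexConjugate

noncomputable section

/-- The estimates at one point. -/
structure GP (r : ℝ) (ω : ℂ) (a : ℝ) (g : ℂ) : Prop where
  eqn : ((r : ℂ) ^ 2 / 4) * g ^ 2 + (ω - a) * g + 1 = 0
  le : ‖g‖ ≤ 2 / r
  im : 0 ≤ g.im
  ha : |a| ≤ r / 48

namespace GP

variable {r : ℝ} {ω : ℂ} {a : ℝ} {g : ℂ}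

lemma one_add (hr : 0 < r) (h : GP r ω a g) : ‖1 + ω * g‖ ≤ 5 / 8 * r * ‖g‖ := by
  have e : 1 + ω * g = g * ((a : ℂ) - (r : ℂ) ^ 2 / 4 * g) := by
    have := h.eqn
    linear_combination this
  rw [e, norm_mul]
  have h1 : ‖(a : ℂ) - (r : ℂ) ^ 2 / 4 * g‖ ≤ 5 / 8 * r := by
    refine (norm_sub_le _ _).trans ?_
    have h2 : ‖(a : ℂ)‖ ≤ r / 48 := by rw [Complex.norm_real]; exact h.ha
    have h3 : ‖(r : ℂ) ^ 2 / 4 * g‖ ≤ r / 2 := by
      rw [norm_mul, norm_div, norm_pow, Complex.norm_real, Real.norm_eq_abs, abs_of_pos hr]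
      have h4 : ‖(4 : ℂ)‖ = 4 := by norm_num
      rw [h4]
      calc r ^ 2 / 4 * ‖g‖ ≤ r ^ 2 / 4 * (2 / r) :=
            mul_le_mul_of_nonneg_left h.le (by positivity)
        _ = r / 2 := by field_simp; ring
    linarith
  calc ‖g‖ * ‖(a : ℂ) - (r : ℂ) ^ 2 / 4 * g‖ ≤ ‖g‖ * (5 / 8 * r) :=
        mul_le_mul_of_nonneg_left h1 (norm_nonneg _)
    _ = _ := by ring

lemma far1 (hr : 0 < r) (h : GP r ω a g) (hω : 2 * r ≤ ‖ω‖) : ‖1 + ω * g‖ ≤ 5 / 11 := by
  have h1 := h.one_add hr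
  have h2 : ‖ω * g‖ ≤ 1 + ‖1 + ω * g‖ := by
    have h3 := norm_sub_le (1 + ω * g) 1
    rw [add_sub_cancel_left, norm_one] at h3
    linarith
  rw [norm_mul] at h2
  nlinarith [norm_nonneg g, mul_le_mul_of_nonneg_right hω (norm_nonneg g)]

lemma far2 (hr : 0 < r) (h : GP r ω a g) (hω : 2 * r ≤ ‖ω‖) : ‖g‖ ≤ 16 / 11 / ‖ω‖ := by
  have h1 := h.far1 hr hω
  have h2 : ‖ω * g‖ ≤ 1 + ‖1 + ω * g‖ := by
    have h3 := norm_sub_le (1 + ω * g) 1
    rw [add_sub_cancel_left, norm_one] at h3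
    linarith
  rw [norm_mul] at h2
  rw [le_div_iff₀ (by linarith)]
  linarith

lemma near1 (hr : 0 < r) (h : GP r ω a g) (hω : ‖ω‖ ≤ 2 * r) : 8 / (21 * r) ≤ ‖g‖ := by
  have h1 := h.one_add hr
  have h2 : 1 ≤ ‖1 + ω * g‖ + ‖ω * g‖ := by
    have h3 := norm_sub_le (1 + ω * g) (ω * g)
    rw [add_sub_cancel_right, norm_one] at h3
    exact h3
  rw [norm_mul] at h2
  rw [div_le_iff₀ (by positivity)]
  nlinarith [norm_nonneg g, mul_le_mul_of_nonneg_right hω (norm_nonneg g)]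

lemma re1 (hr : 0 < r) (h : GP r ω a g) {σ : ℝ} (hσ : |σ| = 1) (hs : 0 ≤ σ * ω.re) :
    σ * g.re ≤ 1 / (12 * r) := by
  have e := h.eqn
  set N : ℝ := ‖g‖ ^ 2 with hN
  have hN0 : 0 ≤ N := by positivity
  have e1 : g * conj g = (N : ℂ) := by
    rw [Complex.mul_conj, Complex.normSq_eq_norm_sq]
  have e2 : ((r : ℂ) ^ 2 / 4) * g * N + (ω - a) * N + conj g = 0 := by
    rw [← e1]
    linear_combination (conj g) * e
  have e3 : r ^ 2 / 4 * g.re * N + (ω.re - a) * N + g.re = 0 := by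
    have h1 := congrArg Complex.re e2
    have h2 : (((r : ℂ) ^ 2 / 4) * g * N + (ω - a) * N + conj g).re
        = r ^ 2 / 4 * g.re * N + (ω.re - a) * N + g.re := by
      have h3 : ((r : ℂ) ^ 2 / 4) * g * N = ((r ^ 2 / 4 * N : ℝ) : ℂ) * g := by
        push_cast; ring
      rw [h3, Complex.add_re, Complex.add_re, Complex.re_ofReal_mul, Complex.re_mul_ofReal,
        Complex.sub_re, Complex.ofReal_re, Complex.conj_re]
      ring
    rw [h2] at h1
    exact h1
  have e4 : σ * g.re * (r ^ 2 / 4 * N + 1) = -(σ * ω.re) * N + σ * a * N := by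
    linear_combination σ * e3
  have h5 : σ * a ≤ r / 48 := by
    calc σ * a ≤ |σ * a| := le_abs_self _
      _ = |a| := by rw [abs_mul, hσ, one_mul]
      _ ≤ _ := h.ha
  have h6 : σ * g.re * (r ^ 2 / 4 * N + 1) ≤ r / 48 * N := by
    rw [e4]
    nlinarith [mul_nonneg hs hN0, mul_le_mul_of_nonneg_right h5 hN0]
  by_contra hc
  push Not at hc
  have h7 : 1 / (12 * r) * (r ^ 2 / 4 * N + 1) < σ * g.re * (r ^ 2 / 4 * N + 1) :=
    mul_lt_mul_of_pos_right hc (by positivity)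
  have h8 : 1 / (12 * r) * (r ^ 2 / 4 * N + 1) = r / 48 * N + 1 / (12 * r) := by
    field_simp
    ring
  have h9 : 0 < 1 / (12 * r) := by positivity
  linarith

lemma fun1 (hr : 0 < r) (h : GP r ω a g) (hω : ‖ω‖ ≤ 2 * r) {σ : ℝ} (hσ : |σ| = 1)
    (hs : 0 ≤ σ * ω.re) : 1 / (5 * r) ≤ g.im - σ * g.re := by
  have h1 := h.near1 hr hω
  have h2 := h.re1 hr hσ hs
  have hσ2 : σ ^ 2 = 1 := by rw [← sq_abs, hσ, one_pow]
  have h3 : ‖g‖ ^ 2 = (σ * g.re) ^ 2 + g.im ^ 2 := by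
    rw [← Complex.normSq_eq_norm_sq, Complex.normSq_apply, mul_pow, hσ2]
    ring
  have him := h.im
  have hi : 0 < 1 / r := by positivity
  set X := σ * g.re with hX
  set y := g.im with hy
  set i := 1 / r with hi'
  have e1 : 8 / (21 * r) = 8 / 21 * i := by rw [hi']; field_simp
  have e2 : 1 / (12 * r) = 1 / 12 * i := by rw [hi']; field_simp
  have e3 : 1 / (5 * r) = 1 / 5 * i := by rw [hi']; field_simp
  rw [e1] at h1
  rw [e2] at h2
  rw [e3]
  have h4 : (8 / 21 * i) ^ 2 ≤ X ^ 2 + y ^ 2 := by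
    rw [← h3]
    exact pow_le_pow_left₀ (by positivity) h1 2
  by_contra hc
  push Not at hc
  have hX1 : -(1 / 5 * i) < X := by linarith
  have hy1 : y < 17 / 60 * i := by linarith
  have hX2 : X ^ 2 < (1 / 5 * i) ^ 2 ∨ X ^ 2 ≤ (1 / 12 * i) ^ 2 := by
    rcases le_or_gt 0 X with h | h
    · exact Or.inr (pow_le_pow_left₀ h h2 2)
    · left
      nlinarith
  have hX3 : X ^ 2 ≤ (1 / 5 * i) ^ 2 := by
    rcases hX2 with h | h
    · exact h.le
    · refine h.trans (pow_le_pow_left₀ (by positivity) ?_ 2)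
      nlinarith
  have hy2 : y ^ 2 ≤ (17 / 60 * i) ^ 2 := pow_le_pow_left₀ him hy1.le 2
  nlinarith [mul_pos hi hi]

end GP

/-- The average. -/
theorem avg {r : ℝ} (hr : 0 < r) {ω : ℂ} (ρ : Measure ℝ) [IsProbabilityMeasure ρ] (g : ℝ → ℂ)
    (hg : Integrable g ρ) (h : ∀ᵐ a ∂ρ, GP r ω a (g a)) :
    ‖1 + ω * ∫ a, g a ∂ρ‖ ≤ 12 * r * ‖∫ a, g a ∂ρ‖ := by
  set m := ∫ a, g a ∂ρ with hm
  have hint : Integrable (fun a => 1 + ω * g a) ρ := (integrable_const _).add (hg.const_mul _)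
  have e1 : 1 + ω * m = ∫ a, (1 + ω * g a) ∂ρ := by
    rw [integral_add (integrable_const _) (hg.const_mul _), integral_const_mul]
    simp only [integral_const, probReal_univ, one_smul]
    rfl
  rcases le_total (2 * r) ‖ω‖ with hω | hω
  · have hω0 : 0 < ‖ω‖ := by linarith
    have h1 : ‖1 + ω * m‖ ≤ 5 / 11 := by
      rw [e1]
      have := norm_integral_le_of_norm_le_const (μ := ρ) (f := fun a => 1 + ω * g a) (C := 5 / 11)
        (h.mono fun a ha => ha.far1 hr hω)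
      simpa using this
    have h2 : ‖1 + ω * m‖ ≤ 5 / 8 * r * (16 / 11 / ‖ω‖) := by
      rw [e1]
      have := norm_integral_le_of_norm_le_const (μ := ρ) (f := fun a => 1 + ω * g a)
        (C := 5 / 8 * r * (16 / 11 / ‖ω‖)) (h.mono fun a ha => (ha.one_add hr).trans
          (mul_le_mul_of_nonneg_left (ha.far2 hr hω) (by positivity)))
      simpa using this
    have h3 : 6 / 11 ≤ ‖ω‖ * ‖m‖ := by
      have h4 := norm_sub_le (1 + ω * m) (ω * m)
      rw [add_sub_cancel_right, norm_one, norm_mul] at h4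
      linarith
    have h5 : 6 / 11 / ‖ω‖ ≤ ‖m‖ := by
      rw [div_le_iff₀ hω0, mul_comm]
      exact h3
    refine h2.trans ?_
    have e : 5 / 8 * r * (16 / 11 / ‖ω‖) = 5 / 3 * r * (6 / 11 / ‖ω‖) := by
      field_simp
      ring
    rw [e]
    have h6 : 5 / 3 * r * (6 / 11 / ‖ω‖) ≤ 5 / 3 * r * ‖m‖ :=
      mul_le_mul_of_nonneg_left h5 (by positivity)
    have h7 : 5 / 3 * r * ‖m‖ ≤ 12 * r * ‖m‖ := by
      have : 0 ≤ r * ‖m‖ := by positivity
      nlinarith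
    linarith
  · obtain ⟨σ, hσ, hs⟩ : ∃ σ : ℝ, |σ| = 1 ∧ 0 ≤ σ * ω.re := by
      rcases le_total 0 ω.re with h | h
      · exact ⟨1, by simp, by simpa using h⟩
      · exact ⟨-1, by simp, by simpa using h⟩
    have hre : Integrable (fun a => (g a).re) ρ := hg.re
    have him : Integrable (fun a => (g a).im) ρ := hg.im
    have h1 : 1 / (5 * r) ≤ m.im - σ * m.re := by
      have h2 : m.im - σ * m.re = ∫ a, ((g a).im - σ * (g a).re) ∂ρ := by
        rw [integral_sub him (hre.const_mul _), integral_const_mul]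
        have e3 : ∫ a, (g a).im ∂ρ = m.im := integral_im hg
        have e4 : ∫ a, (g a).re ∂ρ = m.re := integral_re hg
        rw [e3, e4]
      rw [h2]
      have h3 : ∫ _a, 1 / (5 * r) ∂ρ ≤ ∫ a, ((g a).im - σ * (g a).re) ∂ρ :=
        integral_mono_ae (integrable_const _) (him.sub (hre.const_mul _))
          (h.mono fun a ha => ha.fun1 hr hω hσ hs)
      simpa using h3
    have h4 : m.im - σ * m.re ≤ 2 * ‖m‖ := by
      have h5 := Complex.abs_im_le_norm m
      have h6 := Complex.abs_re_le_norm m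
      have h7 : -(σ * m.re) ≤ |m.re| := by
        calc -(σ * m.re) ≤ |σ * m.re| := neg_le_abs _
          _ = |m.re| := by rw [abs_mul, hσ, one_mul]
      have h8 := le_abs_self m.im
      linarith
    have h9 : 1 / (10 * r) ≤ ‖m‖ := by
      have e : 1 / (5 * r) = 2 * (1 / (10 * r)) := by
        field_simp
        norm_num
      linarith
    have h10 : 1 ≤ 10 * r * ‖m‖ := by
      rw [div_le_iff₀ (by positivity)] at h9
      linarith
    calc ‖1 + ω * m‖ ≤ ‖(1 : ℂ)‖ + ‖ω * m‖ := norm_add_le _ _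
      _ ≤ 10 * r * ‖m‖ + 2 * r * ‖m‖ := by
          rw [norm_one, norm_mul]
          exact add_le_add h10 (mul_le_mul_of_nonneg_right hω (norm_nonneg _))
      _ = _ := by ring

end

end Pool.Agent.K3h29.LH.Hp
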