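import Pool.Agent.K3h29.LH.Defs
import Pool.Agent.W577.WA.Jstep

/-!
The averaged imaginary part is almost preserved by adding an oscillating level, arbitrary phases.
-/

set_option autoImplicit false

namespace Pool.Agent.K3h29.LH.Jstep

open MeasureTheory Filter Pool.Agent.W792.LL Pool.Agent.W792.WA Pool.Agent.W335.WAB.BaseJ
  Pool.Agent.W577.WAJ Pool.Agent.K3h29.LH
open scoped Topology

section

variable {ψ : C(UnitAddCircle, ℝ)} (hψ : IsSemi ψ) {d : ℕ} (P : Phs d)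
  (K : C(UnitAddTorus (Fin d), ℝ))
  {l l' : ℝ} (hl' : 0 < l') (ρ : Measure ℝ) [IsProbabilityMeasure ρ] {z : ℂ} (hz : 0 < z.im)

/-- The oscillating term. -/
noncomputable def Gm (ψ : C(UnitAddCircle, ℝ)) {d : ℕ} (P : Phs d) (K : C(UnitAddTorus (Fin d), ℝ))
    (l l' : ℝ) (ρ : Measure ℝ) (z : ℂ) (M : ℕ) (k : UnitAddTorus (Fin d)) : ℂ :=
  G ψ K l l' ρ z (k, P M k)

include hz in
theorem jf_eq3 (M : ℕ) : jf ((lev ψ l').conv ρ) (addP ψ K l (P M)) z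
    = ∫ k, (Gm ψ P K l l' ρ z M k).im := by
  rw [jf_eq1 ρ hz]
  rfl

include hψ hl' hz in
theorem Gm_int (M : ℕ) : Integrable (Gm ψ P K l l' ρ z M) := by
  refine Integrable.of_bound ?_ (2 / l') (ae_of_all _ fun k => G_bound hψ K hl' ρ hz _)
  exact ((G_cont hψ K hl' ρ hz).comp
    (continuous_id.prodMk (P M).continuous)).aestronglyMeasurable

include hψ hl' hz in
theorem jf_diff (M : ℕ) : jf ((lev ψ l').conv ρ) (addP ψ K l (P M)) z
    - jf ((lev ψ l).conv ((lev ψ l').conv ρ)) K z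
    = (∫ k, (Gm ψ P K l l' ρ z M k - Ga ψ K l l' ρ z k)).im := by
  rw [jf_eq3 P K ρ hz, jf_eq2 K ρ hz, integral_sub (Gm_int hψ P K hl' ρ hz M) (Ga_int hψ K hl' ρ hz),
    Complex.sub_im]
  congr 1
  · exact integral_im (Gm_int hψ P K hl' ρ hz M)
  · exact integral_im (Ga_int hψ K hl' ρ hz)

include hψ hl' hz in
theorem diff_sub {z' : ℂ} (hz' : 0 < z'.im) (M : ℕ) :
    ‖∫ k, (Gm ψ P K l l' ρ z M k - Ga ψ K l l' ρ z k)‖ ≤
      ‖∫ k, (Gm ψ P K l l' ρ z' M k - Ga ψ K l l' ρ z' k)‖ +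
        2 * (2 / l' * Real.sqrt (2 / l' * ‖z - z'‖)) := by
  have i1 : Integrable (fun k => Gm ψ P K l l' ρ z M k - Ga ψ K l l' ρ z k) :=
    (Gm_int (l := l) hψ P K hl' ρ hz M).sub (Ga_int (l := l) hψ K hl' ρ hz)
  have i2 : Integrable (fun k => Gm ψ P K l l' ρ z' M k - Ga ψ K l l' ρ z' k) :=
    (Gm_int (l := l) hψ P K hl' ρ hz' M).sub (Ga_int (l := l) hψ K hl' ρ hz')
  have h1 : ‖(∫ k, (Gm ψ P K l l' ρ z M k - Ga ψ K l l' ρ z k)) -
      ∫ k, (Gm ψ P K l l' ρ z' M k - Ga ψ K l l' ρ z' k)‖ ≤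
        2 * (2 / l' * Real.sqrt (2 / l' * ‖z - z'‖)) := by
    rw [← integral_sub i1 i2]
    have := norm_integral_le_of_norm_le_const (μ := (volume : Measure (UnitAddTorus (Fin d))))
      (f := fun k => (Gm ψ P K l l' ρ z M k - Ga ψ K l l' ρ z k) -
        (Gm ψ P K l l' ρ z' M k - Ga ψ K l l' ρ z' k))
      (C := 2 * (2 / l' * Real.sqrt (2 / l' * ‖z - z'‖)))
      (ae_of_all _ fun k => by
        have a1 := G_sub (l := l) hψ K hl' ρ hz hz'
          (k, P M k)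
        have a2 := Ga_sub (l := l) hψ K hl' ρ hz hz' k
        have e : (Gm ψ P K l l' ρ z M k - Ga ψ K l l' ρ z k) -
          (Gm ψ P K l l' ρ z' M k - Ga ψ K l l' ρ z' k) =
          (Gm ψ P K l l' ρ z M k - Gm ψ P K l l' ρ z' M k) -
            (Ga ψ K l l' ρ z k - Ga ψ K l l' ρ z' k) := by ring
        rw [e]
        refine (norm_sub_le _ _).trans ?_
        have a3 : ‖Gm ψ P K l l' ρ z M k - Gm ψ P K l l' ρ z' M k‖ ≤
          2 / l' * Real.sqrt (2 / l' * ‖z - z'‖) := a1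
        linarith)
    simpa using this
  have h2 := norm_sub_norm_le (∫ k, (Gm ψ P K l l' ρ z M k - Ga ψ K l l' ρ z k))
    (∫ k, (Gm ψ P K l l' ρ z' M k - Ga ψ K l l' ρ z' k))
  linarith

end

theorem main {d : ℕ} {P : Phs d} (hAvg : AV P) : S_JSTEPP P := by
  intro ψ hψ K l l' C ρ _ hl hl' _ e he
  obtain ⟨θ, hθ⟩ : ∃ θ : ℝ, θ = l' / 2 * (e * l' / 8) ^ 2 := ⟨_, rfl⟩
  have hθ0 : 0 < θ := by rw [hθ]; positivity
  have htb : TotallyBounded (Zs d) := by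
    refine (isCompact_closedBall (0 : ℂ) (4 * d + 1)).totallyBounded.subset ?_
    rintro z ⟨h1, h2, h3, h4⟩
    rw [mem_closedBall_zero_iff]
    refine (Complex.norm_le_abs_re_add_abs_im z).trans ?_
    rw [abs_of_nonneg h1, abs_of_pos h3]
    exact add_le_add h2 h4
  obtain ⟨t, hts, htf, htc⟩ := Metric.finite_approx_of_totallyBounded htb θ hθ0
  have hev : ∀ᶠ M : ℕ in atTop, ∀ z' ∈ t,
      ‖∫ k, (Gm ψ P K l l' ρ z' M k - Ga ψ K l l' ρ z' k)‖ ≤ e / 2 := by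
    rw [Filter.eventually_all_finite htf]
    intro z' hz't
    have hz' : 0 < z'.im := (hts hz't).2.2.1
    obtain ⟨M₀, hM₀⟩ := hAvg ⟨G ψ K l l' ρ z', G_cont hψ K hl' ρ hz'⟩ (e / 2) (by linarith)
    filter_upwards [Filter.eventually_ge_atTop M₀] with M hM
    have h := hM₀ M hM 0
    rw [mfc_zero] at h
    exact h
  obtain ⟨M₀, hM₀⟩ := Filter.eventually_atTop.mp hev
  refine ⟨M₀, fun M hM z hzZ => ?_⟩
  have hz : 0 < z.im := hzZ.2.2.1
  have h1 := htc hzZ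
  rw [Set.mem_iUnion₂] at h1
  obtain ⟨z', hz't, hzz'⟩ := h1
  have hz' : 0 < z'.im := (hts hz't).2.2.1
  rw [Metric.mem_ball, dist_eq_norm] at hzz'
  have h2 := hM₀ M hM z' hz't
  have h3 := diff_sub (l := l) hψ P K hl' ρ hz hz' M
  have h4 : Real.sqrt (2 / l' * ‖z - z'‖) ≤ e * l' / 8 := by
    apply Real.sqrt_le_iff.mpr
    refine ⟨by positivity, ?_⟩
    calc 2 / l' * ‖z - z'‖ ≤ 2 / l' * θ := by gcongr
      _ = (e * l' / 8) ^ 2 := by rw [hθ]; field_simp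
  have h5 : 2 * (2 / l' * Real.sqrt (2 / l' * ‖z - z'‖)) ≤ e / 2 := by
    calc 2 * (2 / l' * Real.sqrt (2 / l' * ‖z - z'‖)) ≤ 2 * (2 / l' * (e * l' / 8)) := by gcongr
      _ = e / 2 := by field_simp; ring
  have h6 := jf_diff (l := l) hψ P K hl' ρ hz M
  have h7 := Complex.abs_im_le_norm (∫ k, (Gm ψ P K l l' ρ z M k - Ga ψ K l l' ρ z k))
  have h8 := neg_abs_le (∫ k, (Gm ψ P K l l' ρ z M k - Ga ψ K l l' ρ z k)).im
  linarith

end Pool.Agent.K3h29.LH.Jstep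

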