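import Mathlib
import Pool.Agent.W628.CG.Osc

/-!
One dimensional oscillatory integrals: Fourier coefficients of `exp (2 π i a ‖t‖²)` on the circle.
-/

set_option autoImplicit false

namespace Pool.Agent.K3h29.LH.Osc1

open MeasureTheory Filter Set intervalIntegral

noncomputable section

/-- `exp (2 π i a ‖t‖²)` -/
def ee (a : ℝ) : C(UnitAddCircle, ℂ) :=
  ⟨fun t => Complex.exp (Complex.I * ((2 * Real.pi * (a * ‖t‖ ^ 2) : ℝ) : ℂ)), by fun_prop⟩

lemma ee_apply (a : ℝ) (t : UnitAddCircle) :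
    ee a t = Complex.exp (Complex.I * ((2 * Real.pi * (a * ‖t‖ ^ 2) : ℝ) : ℂ)) := rfl

lemma nexp (x : ℝ) : ‖Complex.exp (Complex.I * (x : ℂ))‖ = 1 := by
  rw [mul_comm]
  exact Complex.norm_exp_ofReal_mul_I _

lemma ee_norm (a : ℝ) (t : UnitAddCircle) : ‖ee a t‖ = 1 := by
  rw [ee_apply]
  exact nexp _

/-- the phase -/
def fs (a : ℝ) (n : ℤ) (s : ℝ) : ℂ :=
  Complex.exp (Complex.I * ((2 * Real.pi * (a * s ^ 2 - n * s) : ℝ) : ℂ))

lemma fs_norm (a : ℝ) (n : ℤ) (s : ℝ) : ‖fs a n s‖ = 1 := nexp _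

lemma fs_cont (a : ℝ) (n : ℤ) : Continuous (fs a n) := by
  unfold fs
  fun_prop

theorem ee_coeff (a : ℝ) (n : ℤ) :
    fourierCoeff (ee a) n = ∫ s in (-(1 / 2 : ℝ))..(1 / 2), fs a n s := by
  rw [fourierCoeff_eq_intervalIntegral _ n (-(1 / 2 : ℝ))]
  have e : (-(1 / 2 : ℝ)) + 1 = 1 / 2 := by norm_num
  rw [e]
  simp only [div_one, one_smul]
  apply intervalIntegral.integral_congr
  intro s hs
  rw [uIcc_of_le (by norm_num)] at hs
  have hs' : |s| ≤ 1 / 2 := abs_le.2 ⟨hs.1, hs.2⟩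
  have hn : ‖(s : UnitAddCircle)‖ = |s| := by
    rw [AddCircle.norm_coe_eq_abs_iff (1 : ℝ) one_ne_zero]
    simpa using hs'
  show fourier (-n) (s : UnitAddCircle) • ee a (s : UnitAddCircle) = fs a n s
  rw [ee_apply, hn, fourier_coe_apply, smul_eq_mul, ← Complex.exp_add, fs]
  congr 1
  rw [sq_abs]
  push_cast
  ring

theorem le_one (a : ℝ) (n : ℤ) : ‖fourierCoeff (ee a) n‖ ≤ 1 := by
  rw [ee_coeff]
  have := intervalIntegral.norm_integral_le_of_norm_le_const (a := -(1 / 2 : ℝ)) (b := 1 / 2)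
    (C := 1) (f := fs a n) (fun s _ => (fs_norm a n s).le)
  refine this.trans ?_
  norm_num

theorem le_vdc (a : ℝ) (n : ℤ) (ha : a ≠ 0) :
    ‖fourierCoeff (ee a) n‖ ≤ 8 / Real.sqrt (4 * Real.pi * |a|) := by
  rw [ee_coeff]
  have hk : 0 < 4 * Real.pi * |a| := by
    have := Real.pi_pos
    have := abs_pos.2 ha
    positivity
  have h1 : ∀ x : ℝ, HasDerivAt (fun s : ℝ => 2 * Real.pi * (a * s ^ 2 - n * s))
      (2 * Real.pi * (2 * a * x - n)) x := by
    intro x
    have e1 : HasDerivAt (fun s : ℝ => s ^ 2) (2 * x) x := by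
      simpa using hasDerivAt_pow 2 x
    have e2 := ((e1.const_mul a).sub ((hasDerivAt_id x).const_mul (n : ℝ))).const_mul (2 * Real.pi)
    refine e2.congr_deriv ?_
    ring
  have h2 : ∀ x : ℝ, HasDerivAt (fun s : ℝ => 2 * Real.pi * (2 * a * s - n))
      (4 * Real.pi * a) x := by
    intro x
    have e2 := (((hasDerivAt_id x).const_mul (2 * a)).sub_const (n : ℝ)).const_mul (2 * Real.pi)
    refine e2.congr_deriv ?_
    ring
  rcases lt_or_gt_of_ne ha with h | h
  · refine W628.CG.vdc_neg (by norm_num) hk (fun s => 2 * Real.pi * (a * s ^ 2 - n * s))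
      (fun s => 2 * Real.pi * (2 * a * s - n)) (fun _ => 4 * Real.pi * a)
      (fun x _ => h1 x) (fun x _ => h2 x) continuousOn_const (fun x _ => ?_)
    rw [abs_of_neg h]
    linarith
  · refine W628.CG.vdc (by norm_num) hk (fun s => 2 * Real.pi * (a * s ^ 2 - n * s))
      (fun s => 2 * Real.pi * (2 * a * s - n)) (fun _ => 4 * Real.pi * a)
      (fun x _ => h1 x) (fun x _ => h2 x) continuousOn_const (fun x _ => ?_)
    rw [abs_of_pos h]

theorem le_far (a : ℝ) (n : ℤ) (hn : n ≠ 0) (h : 2 * |a| ≤ |(n : ℝ)|) :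
    ‖fourierCoeff (ee a) n‖ ≤ 2 * |a| / (n : ℝ) ^ 2 := by
  rw [ee_coeff]
  have hpi := Real.pi_gt_three
  have hn0 : 0 < |(n : ℝ)| := abs_pos.2 (by exact_mod_cast hn)
  have hn2 : (n : ℝ) ^ 2 = |(n : ℝ)| ^ 2 := (sq_abs _).symm
  -- the denominator
  have hden : ∀ s ∈ Icc (-(1 / 2 : ℝ)) (1 / 2), |(n : ℝ)| / 2 ≤ |2 * a * s - n| := by
    intro s hs
    have hs' : |s| ≤ 1 / 2 := abs_le.2 ⟨hs.1, hs.2⟩
    have h1 : |2 * a * s| ≤ |(n : ℝ)| / 2 := by
      rw [abs_mul, abs_mul, abs_two]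
      calc 2 * |a| * |s| ≤ |(n : ℝ)| * (1 / 2) :=
            mul_le_mul h hs' (abs_nonneg _) (abs_nonneg _)
        _ = _ := by ring
    have h2 := abs_sub_abs_le_abs_sub (n : ℝ) (2 * a * s)
    rw [abs_sub_comm (n : ℝ) (2 * a * s)] at h2
    linarith
  have hden0 : ∀ s ∈ Icc (-(1 / 2 : ℝ)) (1 / 2), (2 * a * s - n : ℝ) ≠ 0 := by
    intro s hs
    have := hden s hs
    exact abs_pos.1 (by linarith)
  -- the primitive
  let w : ℝ → ℂ := fun s => (((2 * Real.pi * (2 * a * s - n))⁻¹ : ℝ) : ℂ) * (-Complex.I)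
  let w' : ℝ → ℂ := fun s => ((-(2 * Real.pi * (2 * a)) / (2 * Real.pi * (2 * a * s - n)) ^ 2 : ℝ) : ℂ)
    * (-Complex.I)
  have hw : ∀ s ∈ Icc (-(1 / 2 : ℝ)) (1 / 2), HasDerivAt w (w' s) s := by
    intro s hs
    have e2 := (((hasDerivAt_id s).const_mul (2 * a)).sub_const (n : ℝ)).const_mul (2 * Real.pi)
    have e3 := e2.inv (mul_ne_zero (by positivity) (hden0 s hs))
    have e4 := (e3.ofReal_comp).mul_const (-Complex.I)
    refine e4.congr_deriv ?_
    simp only [w', id, mul_one]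
  have hf : ∀ s : ℝ, HasDerivAt (fs a n)
      (fs a n s * (Complex.I * ((2 * Real.pi * (2 * a * s - n) : ℝ) : ℂ))) s := by
    intro s
    have e1 : HasDerivAt (fun s : ℝ => s ^ 2) (2 * s) s := by
      simpa using hasDerivAt_pow 2 s
    have e2 := ((e1.const_mul a).sub ((hasDerivAt_id s).const_mul (n : ℝ))).const_mul (2 * Real.pi)
    have e3 := (e2.ofReal_comp.const_mul Complex.I).cexp
    refine e3.congr_deriv ?_
    simp only [fs, id, mul_one]
    congr 3
    push_cast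
    ring
  have hprod : ∀ s ∈ uIcc (-(1 / 2 : ℝ)) (1 / 2),
      HasDerivAt (fun s => w s * fs a n s) (w' s * fs a n s + fs a n s) s := by
    intro s hs
    rw [uIcc_of_le (by norm_num)] at hs
    refine ((hw s hs).mul (hf s)).congr_deriv ?_
    congr 1
    have h0 := hden0 s hs
    have h1 : (((2 * Real.pi * (2 * a * s - n))⁻¹ : ℝ) : ℂ)
        * ((2 * Real.pi * (2 * a * s - n) : ℝ) : ℂ) = 1 := by
      rw [← Complex.ofReal_mul, inv_mul_cancel₀ (mul_ne_zero (by positivity) h0)]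
      simp
    calc w s * (fs a n s * (Complex.I * ((2 * Real.pi * (2 * a * s - n) : ℝ) : ℂ)))
        = ((((2 * Real.pi * (2 * a * s - n))⁻¹ : ℝ) : ℂ)
          * ((2 * Real.pi * (2 * a * s - n) : ℝ) : ℂ)) * fs a n s * (-(Complex.I * Complex.I)) := by
          simp only [w]
          ring
      _ = fs a n s := by
          rw [h1, Complex.I_mul_I]
          ring
  have hw'c : ContinuousOn w' (uIcc (-(1 / 2 : ℝ)) (1 / 2)) := by
    rw [uIcc_of_le (by norm_num)]
    refine ContinuousOn.mul ?_ continuousOn_const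
    refine Complex.continuous_ofReal.comp_continuousOn ?_
    refine ContinuousOn.div continuousOn_const (by fun_prop) ?_
    intro s hs
    exact pow_ne_zero _ (mul_ne_zero (by positivity) (hden0 s hs))
  have hi1 : IntervalIntegrable (fun s => w' s * fs a n s) volume (-(1 / 2 : ℝ)) (1 / 2) :=
    (hw'c.mul (fs_cont a n).continuousOn).intervalIntegrable
  have hi2 : IntervalIntegrable (fun s => fs a n s) volume (-(1 / 2 : ℝ)) (1 / 2) :=
    (fs_cont a n).intervalIntegrable _ _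
  have hint := intervalIntegral.integral_eq_sub_of_hasDerivAt hprod (hi1.add hi2)
  rw [intervalIntegral.integral_add hi1 hi2] at hint
  have hI : ∫ s in (-(1 / 2 : ℝ))..(1 / 2), fs a n s
      = (w (1 / 2) * fs a n (1 / 2) - w (-(1 / 2)) * fs a n (-(1 / 2)))
        - ∫ s in (-(1 / 2 : ℝ))..(1 / 2), w' s * fs a n s := by
    rw [← hint]
    ring
  -- the boundary term
  have hper : fs a n (-(1 / 2)) = fs a n (1 / 2) := by
    unfold fs
    rw [Complex.exp_eq_exp_iff_exists_int]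
    refine ⟨n, ?_⟩
    push_cast
    ring
  have hb : ‖w (1 / 2) * fs a n (1 / 2) - w (-(1 / 2)) * fs a n (-(1 / 2))‖
      ≤ 2 / 3 * |a| / (n : ℝ) ^ 2 := by
    rw [hper, ← sub_mul, norm_mul, fs_norm, mul_one]
    have hp := hden0 (1 / 2) ⟨by norm_num, by norm_num⟩
    have hm := hden0 (-(1 / 2)) ⟨by norm_num, by norm_num⟩
    have e : w (1 / 2) - w (-(1 / 2))
        = (((2 * Real.pi * (2 * a * (1 / 2) - n))⁻¹ - (2 * Real.pi * (2 * a * (-(1 / 2)) - n))⁻¹ : ℝ) : ℂ)
          * (-Complex.I) := by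
      simp only [w]
      push_cast
      ring
    rw [e, norm_mul, norm_neg, Complex.norm_I, mul_one, Complex.norm_real, Real.norm_eq_abs]
    have e2 : (2 * Real.pi * (2 * a * (1 / 2) - n))⁻¹ - (2 * Real.pi * (2 * a * (-(1 / 2)) - n))⁻¹
        = (Real.pi)⁻¹ * (a / (a ^ 2 - n ^ 2)) := by
      have hp' : a - n ≠ 0 := by intro h; apply hp; linarith
      have hm' : a + n ≠ 0 := by intro h; apply hm; linarith
      have hd : a ^ 2 - (n : ℝ) ^ 2 ≠ 0 := by
        have : a ^ 2 - (n : ℝ) ^ 2 = (a - n) * (a + n) := by ring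
        rw [this]
        exact mul_ne_zero hp' hm'
      have e5 : 2 * a * (1 / 2) - (n : ℝ) = a - n := by ring
      have e6 : 2 * a * (-(1 / 2)) - (n : ℝ) = -(a + n) := by ring
      rw [e5, e6]
      field_simp
      ring
    rw [e2, abs_mul, abs_div, abs_of_pos (inv_pos.2 Real.pi_pos)]
    have ha2 : a ^ 2 ≤ (n : ℝ) ^ 2 / 4 := by
      rw [← sq_abs a, ← sq_abs (n : ℝ)]
      nlinarith [abs_nonneg a, abs_nonneg (n : ℝ)]
    have hn20 : 0 < (n : ℝ) ^ 2 := by rw [hn2]; positivity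
    have h3 : 3 / 4 * (n : ℝ) ^ 2 ≤ |a ^ 2 - (n : ℝ) ^ 2| := by
      rw [abs_sub_comm]
      refine le_trans ?_ (le_abs_self _)
      linarith
    have h4 : Real.pi⁻¹ ≤ 1 / 3 := by
      rw [inv_eq_one_div]
      exact one_div_le_one_div_of_le (by norm_num) hpi.le
    calc Real.pi⁻¹ * (|a| / |a ^ 2 - (n : ℝ) ^ 2|)
        ≤ 1 / 3 * (|a| / (3 / 4 * (n : ℝ) ^ 2)) := by
          refine mul_le_mul h4 ?_ (by positivity) (by norm_num)
          exact div_le_div_of_nonneg_left (abs_nonneg _) (by positivity) h3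
      _ = 4 / 9 * |a| / (n : ℝ) ^ 2 := by
          field_simp
          ring
      _ ≤ 2 / 3 * |a| / (n : ℝ) ^ 2 := by
          refine div_le_div_of_nonneg_right ?_ hn20.le
          exact mul_le_mul_of_nonneg_right (by norm_num) (abs_nonneg _)
  have hr : ‖∫ s in (-(1 / 2 : ℝ))..(1 / 2), w' s * fs a n s‖ ≤ 4 / 3 * |a| / (n : ℝ) ^ 2 := by
    have hn20 : 0 < (n : ℝ) ^ 2 := by rw [hn2]; positivity
    have hbound : ∀ s ∈ Set.uIoc (-(1 / 2 : ℝ)) (1 / 2), ‖w' s * fs a n s‖ ≤ 4 / 3 * |a| / (n : ℝ) ^ 2 := by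
      intro s hs
      rw [uIoc_of_le (by norm_num)] at hs
      have hs' : s ∈ Icc (-(1 / 2 : ℝ)) (1 / 2) := ⟨hs.1.le, hs.2⟩
      rw [norm_mul, fs_norm, mul_one]
      simp only [w']
      rw [norm_mul, norm_neg, Complex.norm_I, mul_one, Complex.norm_real, Real.norm_eq_abs, abs_div,
        abs_neg, abs_mul (2 * Real.pi) (2 * a), abs_of_pos Real.two_pi_pos, abs_pow,
        abs_mul (2 * Real.pi) (2 * a * s - n), abs_of_pos Real.two_pi_pos, abs_mul 2 a, abs_two]
      have h0 := hden s hs'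
      have h1 : (|(n : ℝ)| / 2) ^ 2 ≤ |2 * a * s - n| ^ 2 := by
        exact pow_le_pow_left₀ (by positivity) h0 2
      have h2 : 0 < |2 * a * s - (n : ℝ)| := by linarith
      calc 2 * Real.pi * (2 * |a|) / (2 * Real.pi * |2 * a * s - n|) ^ 2
          = |a| / (Real.pi * |2 * a * s - n| ^ 2) := by
            field_simp
        _ ≤ |a| / (3 * (|(n : ℝ)| / 2) ^ 2) := by
            refine div_le_div_of_nonneg_left (abs_nonneg _) (by positivity) ?_
            exact mul_le_mul hpi.le h1 (by positivity) (by positivity)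
        _ = 4 / 3 * |a| / (n : ℝ) ^ 2 := by
            rw [hn2]
            field_simp
            ring
    have h5 := intervalIntegral.norm_integral_le_of_norm_le_const hbound
    refine h5.trans ?_
    have e9 : |1 / 2 - -(1 / 2 : ℝ)| = 1 := by norm_num
    rw [e9, mul_one]
  rw [hI]
  calc _ ≤ _ := norm_sub_le _ _
    _ ≤ 2 / 3 * |a| / (n : ℝ) ^ 2 + 4 / 3 * |a| / (n : ℝ) ^ 2 := add_le_add hb hr
    _ = _ := by ring

/-- The uniform bound. -/
theorem bound (a : ℝ) (n : ℤ) : ‖fourierCoeff (ee a) n‖ ≤ 5 / Real.sqrt (1 + |(n : ℝ)|) := by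
  by_cases hn : n = 0
  · subst hn
    refine (le_one a 0).trans ?_
    simp
  have hn1 : (1 : ℝ) ≤ |(n : ℝ)| := by
    rw [← Int.cast_abs]
    exact_mod_cast Int.one_le_abs hn
  have hs0 : 0 < Real.sqrt (1 + |(n : ℝ)|) := Real.sqrt_pos.2 (by linarith)
  by_cases h : 2 * |a| ≤ |(n : ℝ)|
  · refine (le_far a n hn h).trans ?_
    rw [← sq_abs (n : ℝ)]
    have h1 : 2 * |a| / |(n : ℝ)| ^ 2 ≤ 1 / |(n : ℝ)| := by
      rw [div_le_div_iff₀ (by positivity) (by positivity)]
      nlinarith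
    refine h1.trans ?_
    rw [div_le_div_iff₀ (by positivity) hs0]
    have h2 : Real.sqrt (1 + |(n : ℝ)|) ≤ 1 + |(n : ℝ)| := by
      rw [Real.sqrt_le_left (by linarith)]
      nlinarith
    linarith
  · push Not at h
    have ha : a ≠ 0 := by
      rintro rfl
      simp at h
      have := abs_nonneg (n : ℝ)
      linarith
    refine (le_vdc a n ha).trans ?_
    have h1 : 3 * (1 + |(n : ℝ)|) ≤ 4 * Real.pi * |a| := by
      have hpi := Real.pi_gt_three
      have : 3 * (1 + |(n : ℝ)|) ≤ 4 * 3 * |a| := by linarith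
      exact this.trans (by gcongr)
    have h2 : Real.sqrt 3 * Real.sqrt (1 + |(n : ℝ)|) ≤ Real.sqrt (4 * Real.pi * |a|) := by
      rw [← Real.sqrt_mul (by norm_num)]
      exact Real.sqrt_le_sqrt h1
    have h3 : (8 / 5 : ℝ) ≤ Real.sqrt 3 := by
      apply Real.le_sqrt_of_sq_le
      norm_num
    rw [div_le_div_iff₀ (Real.sqrt_pos.2 (by linarith)) hs0]
    nlinarith

end

end Pool.Agent.K3h29.LH.Osc1
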