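import Pool.Agent.K3h29.LH.Weak
import Pool.Agent.K3h29.LH.Osc1
import Pool.Agent.K3h29.LH.Avg
import Pool.Agent.W792.WA.All4
import Pool.Agent.W792.WA.Br3

/-!
Phases living on a line: `M ‖v · k‖²`.
-/

set_option autoImplicit false

namespace Pool.Agent.K3h29.LH.Line

open MeasureTheory Filter Set
open scoped Topology ComplexConjugate
open Pool.Agent.W792.LL Pool.Agent.W792.WA UnitAddTorus Pool.Agent.W191.LL Pool.Agent.K3h29.LH
open Pool.Agent.K3h29.LH.Osc1

noncomputable section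

variable {d : ℕ}

/-- The linear form `v · k`. -/
def ln (v : Fin d → ℤ) (k : Tor d) : UnitAddCircle := ∑ i, v i • k i

lemma ln_cont (v : Fin d → ℤ) : Continuous (ln v) := by
  unfold ln
  fun_prop

/-- The phases `M ‖v · k‖²`. -/
def PL (v : Fin d → ℤ) : Phs d := fun M =>
  ⟨fun k => (((M : ℝ) * ‖ln v k‖ ^ 2 : ℝ) : UnitAddCircle), by
    have := ln_cont v
    exact (AddCircle.continuous_mk' (1 : ℝ)).comp (by fun_prop)⟩

lemma PL_apply (v : Fin d → ℤ) (M : ℕ) (k : Tor d) :
    PL v M k = (((M : ℝ) * ‖ln v k‖ ^ 2 : ℝ) : UnitAddCircle) := rfl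

lemma four_ee (h : ℤ) (M : ℝ) (t : UnitAddCircle) :
    fourier h ((M * ‖t‖ ^ 2 : ℝ) : UnitAddCircle) = ee (h * M) t := by
  rw [ee_apply, fourier_coe_apply]
  congr 1
  push_cast
  ring

/-- The functional on the left. -/
def Lf (v x : Fin d → ℤ) (β : C(UnitAddCircle, ℂ)) : ℂ :=
  mFourierCoeff (fun k : Tor d => β (ln v k)) x

lemma Lf_add (v x : Fin d → ℤ) (a b : C(UnitAddCircle, ℂ)) : Lf v x (a + b) = Lf v x a + Lf v x b :=
  mfc_add (fun k : Tor d => a (ln v k)) (fun k : Tor d => b (ln v k))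
      (a.continuous.comp (ln_cont v)) (b.continuous.comp (ln_cont v)) x

lemma Lf_smul (v x : Fin d → ℤ) (c : ℂ) (a : C(UnitAddCircle, ℂ)) : Lf v x (c • a) = c * Lf v x a :=
  mfc_smul (fun k : Tor d => a (ln v k)) c x

lemma Lf_zero (v x : Fin d → ℤ) : Lf v x 0 = 0 := by
  have h := Lf_smul v x 0 0
  have e : (0 : ℂ) • (0 : C(UnitAddCircle, ℂ)) = 0 := by
    ext t
    simp
  rw [e, zero_mul] at h
  exact h

lemma Lf_cont (v x : Fin d → ℤ) : Continuous (Lf v x) := by
  rw [Metric.continuous_iff]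
  intro b ε hε
  refine ⟨ε, hε, fun a ha => lt_of_le_of_lt ?_ ha⟩
  rw [dist_eq_norm, dist_eq_norm]
  have h : Lf v x a - Lf v x b = Lf v x (a - b) := by
    rw [sub_eq_iff_eq_add, ← Lf_add, sub_add_cancel]
  rw [h]
  exact mfc_le _ _ (fun k => (a - b).norm_coe_le_norm _) x

lemma fc_int (n : ℤ) (f : C(UnitAddCircle, ℂ)) : Integrable (fun t => fourier (-n) t • f t)
      AddCircle.haarAddCircle := by
  have hc : Continuous fun t : UnitAddCircle => fourier (-n) t • f t := by fun_prop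
  have := hc.continuousOn.integrableOn_compact (μ := AddCircle.haarAddCircle) isCompact_univ
  rwa [integrableOn_univ] at this

lemma fc_add (n : ℤ) (a b : C(UnitAddCircle, ℂ)) :
    fourierCoeff (⇑(a + b)) n = fourierCoeff a n + fourierCoeff b n := by
  unfold fourierCoeff
  rw [← integral_add (fc_int n a) (fc_int n b)]
  congr 1
  ext t
  rw [ContinuousMap.add_apply, smul_add]

lemma fc_smul (n : ℤ) (c : ℂ) (a : C(UnitAddCircle, ℂ)) :
    fourierCoeff (⇑(c • a)) n = c * fourierCoeff a n := by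
  unfold fourierCoeff
  rw [← integral_const_mul]
  congr 1
  ext t
  rw [ContinuousMap.smul_apply, smul_eq_mul, smul_eq_mul, smul_eq_mul]
  ring

lemma fc_le (n : ℤ) (a : C(UnitAddCircle, ℂ)) : ‖fourierCoeff a n‖ ≤ ‖a‖ := by
  unfold fourierCoeff
  have h2 := norm_integral_le_of_norm_le_const (μ := AddCircle.haarAddCircle (T := 1))
    (f := fun t => fourier (-n) t • a t) (C := ‖a‖)
    (Eventually.of_forall fun t => by
      rw [norm_smul]
      have h3 : ‖fourier (T := 1) (-n) t‖ = 1 := Circle.norm_coe _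
      rw [h3, one_mul]
      exact a.norm_coe_le_norm _)
  refine h2.trans ?_
  simp

lemma fc_cont (n : ℤ) : Continuous fun β : C(UnitAddCircle, ℂ) => fourierCoeff β n := by
  rw [Metric.continuous_iff]
  intro b ε hε
  refine ⟨ε, hε, fun a ha => lt_of_le_of_lt ?_ ha⟩
  rw [dist_eq_norm, dist_eq_norm]
  have h : fourierCoeff a n - fourierCoeff b n = fourierCoeff (⇑(a - b)) n := by
    rw [sub_eq_iff_eq_add, ← fc_add, sub_add_cancel]
  rw [h]
  exact fc_le n _

lemma mF_ln (v : Fin d → ℤ) (n : ℤ) (k : Tor d) : fourier n (ln v k) = mFourier (n • v) k := by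
  classical
  show fourier n (∑ i, v i • k i) = ∏ i, fourier ((n • v) i) (k i)
  have h : ∀ s : Finset (Fin d), fourier n (∑ i ∈ s, v i • k i)
      = ∏ i ∈ s, fourier ((n • v) i) (k i) := by
    intro s
    induction s using Finset.induction_on with
    | empty => simp
    | insert a s ha ih =>
      rw [Finset.sum_insert ha, Finset.prod_insert ha, ← ih, fourier_apply, fourier_apply,
        fourier_apply, smul_add, AddCircle.toCircle_add, Circle.coe_mul, Pi.smul_apply, smul_smul,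
        smul_eq_mul]
  exact h Finset.univ

lemma mfc_mF (m x : Fin d → ℤ) :
    mFourierCoeff (fun k : Tor d => mFourier m k) x = if x = m then 1 else 0 :=
  Pool.Agent.W52.GKCoef.coef_mono m x

lemma fc_four (m n : ℤ) :
    fourierCoeff (fourier (T := 1) m) n = if n = m then 1 else 0 := by
  have h := (orthonormal_iff_ite.1 (orthonormal_fourier (T := 1))) n m
  simp only [fourierLp, ContinuousMap.inner_toLp, ← fourier_neg] at h
  unfold fourierCoeff
  refine Eq.trans ?_ h
  congr 1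
  ext t
  rw [smul_eq_mul]
  ring

theorem coeff (v : Fin d → ℤ) (hv : v ≠ 0) (β : C(UnitAddCircle, ℂ)) (n : ℤ) :
    mFourierCoeff (fun k : Tor d => β (ln v k)) (n • v) = fourierCoeff β n := by
  have hclosed : IsClosed {β : C(UnitAddCircle, ℂ) | Lf v (n • v) β = fourierCoeff β n} :=
    isClosed_eq (Lf_cont v _) (fc_cont n)
  have hspan : (Submodule.span ℂ (range (fourier (T := 1))) : Set C(UnitAddCircle, ℂ))
      ⊆ {β : C(UnitAddCircle, ℂ) | Lf v (n • v) β = fourierCoeff β n} := by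
    intro b hb
    induction hb using Submodule.span_induction with
    | mem b h =>
      obtain ⟨m, rfl⟩ := h
      show mFourierCoeff (fun k : Tor d => fourier m (ln v k)) (n • v) = _
      simp only [mF_ln]
      rw [mfc_mF, fc_four]
      refine if_congr ?_ rfl rfl
      constructor
      · intro h
        by_contra hne
        apply hv
        have h2 : (n - m) • v = 0 := by rw [sub_smul, h, sub_self]
        exact (smul_eq_zero.1 h2).resolve_left (sub_ne_zero.2 hne)
      · rintro rfl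
        rfl
    | zero =>
      show Lf v (n • v) 0 = fourierCoeff (⇑(0 : C(UnitAddCircle, ℂ))) n
      rw [Lf_zero]
      have h := fc_smul n 0 0
      have e : (0 : ℂ) • (0 : C(UnitAddCircle, ℂ)) = 0 := by
        ext t
        simp
      rw [e, zero_mul] at h
      exact h.symm
    | add a b _ _ ha hb =>
      show Lf v (n • v) (a + b) = _
      rw [Lf_add, fc_add]
      exact congrArg₂ (· + ·) ha hb
    | smul c a _ ha =>
      show Lf v (n • v) (c • a) = _
      rw [Lf_smul, fc_smul]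
      exact congrArg _ ha
  have hd := closure_minimal hspan hclosed
  have h1 : β ∈ (Submodule.span ℂ (range (fourier (T := 1)))).topologicalClosure := by
    rw [span_fourier_closure_eq_top]
    trivial
  exact hd h1

theorem coeff_off (v : Fin d → ℤ) (β : C(UnitAddCircle, ℂ)) (x : Fin d → ℤ)
    (hx : ∀ n : ℤ, x ≠ n • v) :
    mFourierCoeff (fun k : Tor d => β (ln v k)) x = 0 := by
  have hclosed : IsClosed {β : C(UnitAddCircle, ℂ) | Lf v x β = 0} :=
    isClosed_eq (Lf_cont v _) continuous_const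
  have hspan : (Submodule.span ℂ (range (fourier (T := 1))) : Set C(UnitAddCircle, ℂ))
      ⊆ {β : C(UnitAddCircle, ℂ) | Lf v x β = 0} := by
    intro b hb
    induction hb using Submodule.span_induction with
    | mem b h =>
      obtain ⟨m, rfl⟩ := h
      show mFourierCoeff (fun k : Tor d => fourier m (ln v k)) x = _
      simp only [mF_ln]
      rw [mfc_mF, if_neg (hx m)]
    | zero => exact Lf_zero v x
    | add a b _ _ ha hb =>
      show Lf v x (a + b) = _
      rw [Lf_add]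
      have ha' : Lf v x a = 0 := ha
      have hb' : Lf v x b = 0 := hb
      rw [ha', hb', add_zero]
    | smul c a _ ha =>
      show Lf v x (c • a) = _
      rw [Lf_smul]
      have ha' : Lf v x a = 0 := ha
      rw [ha', mul_zero]
  have hd := closure_minimal hspan hclosed
  have h1 : β ∈ (Submodule.span ℂ (range (fourier (T := 1)))).topologicalClosure := by
    rw [span_fourier_closure_eq_top]
    trivial
  exact hd h1

theorem os (v : Fin d → ℤ) (hv : v ≠ 0) : OS (PL v) := by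
  intro j hj δ hδ
  obtain ⟨N, hN⟩ := exists_nat_ge ((8 / δ) ^ 2)
  refine ⟨N + 1, fun M hM x => ?_⟩
  have hM1 : (N : ℝ) + 1 ≤ M := by exact_mod_cast hM
  have e : (fun k : Tor d => (fourier j (PL v M k) : ℂ)) = fun k => ee (j * M) (ln v k) :=
    funext fun k => four_ee _ _ _
  rw [e]
  by_cases hx : ∃ n : ℤ, x = n • v
  · obtain ⟨n, rfl⟩ := hx
    rw [coeff v hv]
    have hj1 : (1 : ℝ) ≤ |(j : ℝ)| := by
      rw [← Int.cast_abs]
      exact_mod_cast Int.one_le_abs hj
    have hN0 : (0 : ℝ) ≤ N := Nat.cast_nonneg _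
    have hM0 : (0 : ℝ) < M := by linarith
    have ha : (j : ℝ) * M ≠ 0 := mul_ne_zero (by exact_mod_cast hj) hM0.ne'
    refine (le_vdc _ n ha).trans ?_
    have h1 : (8 / δ) ^ 2 ≤ 4 * Real.pi * |(j : ℝ) * M| := by
      rw [abs_mul, Nat.abs_cast]
      have hpi := Real.pi_gt_three
      have h2 : (M : ℝ) ≤ |(j : ℝ)| * M := le_mul_of_one_le_left hM0.le hj1
      have h3 : |(j : ℝ)| * M ≤ 4 * Real.pi * (|(j : ℝ)| * M) :=
        le_mul_of_one_le_left (by positivity) (by linarith)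
      linarith
    have h2 : 8 / δ ≤ Real.sqrt (4 * Real.pi * |(j : ℝ) * M|) := Real.le_sqrt_of_sq_le h1
    have h3 : 0 < 8 / δ := by positivity
    rw [div_le_iff₀ (lt_of_lt_of_le h3 h2)]
    calc (8 : ℝ) = δ * (8 / δ) := by field_simp
      _ ≤ _ := mul_le_mul_of_nonneg_left h2 hδ.le
  · push Not at hx
    rw [coeff_off v _ x hx, norm_zero]
    exact hδ.le

/-- The phase on the circle. -/
def th (M : ℕ) : C(UnitAddCircle, UnitAddCircle) :=
  ⟨fun t => (((M : ℝ) * ‖t‖ ^ 2 : ℝ) : UnitAddCircle),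
    (AddCircle.continuous_mk' (1 : ℝ)).comp (by fun_prop)⟩

lemma th_neg (M : ℕ) (t : UnitAddCircle) : th M (-t) = th M t := by
  change (((M : ℝ) * ‖-t‖ ^ 2 : ℝ) : UnitAddCircle) = (((M : ℝ) * ‖t‖ ^ 2 : ℝ) : UnitAddCircle)
  rw [norm_neg]

/-- Complexification. -/
def cx (ψ : C(UnitAddCircle, ℝ)) : C(UnitAddCircle, ℂ) := ⟨fun t => ((ψ t : ℝ) : ℂ), by fun_prop⟩

/-- `fourierCoeff · n` as a homomorphism. -/
def fcH (n : ℤ) : C(UnitAddCircle, ℂ) →+ ℂ where
  toFun f := fourierCoeff f n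
  map_zero' := by
    have h := fc_smul n 0 0
    have e : (0 : ℂ) • (0 : C(UnitAddCircle, ℂ)) = 0 := by
      ext t
      simp
    rw [e, zero_mul] at h
    exact h
  map_add' := fc_add n

lemma fcH_apply (n : ℤ) (f : C(UnitAddCircle, ℂ)) : fcH n f = fourierCoeff f n := rfl

lemma fcH_cont (n : ℤ) : Continuous (fcH n) := fc_cont n

/-- precomposition -/
def pcH (θ : C(UnitAddCircle, UnitAddCircle)) : C(UnitAddCircle, ℂ) →+ C(UnitAddCircle, ℂ) where
  toFun f := f.comp θ
  map_zero' := rfl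
  map_add' _ _ := rfl

theorem level (ψ : C(UnitAddCircle, ℝ))
    (hsum : Summable fun h : ℤ => ‖fourierCoeff (fun t : UnitAddCircle => ((ψ t : ℝ) : ℂ)) h‖) :
    ∃ C : ℝ, 0 < C ∧ ∀ (M : ℕ) (n : ℤ),
      ‖fourierCoeff ((cx ψ).comp (th M)) n‖ ≤ C / Real.sqrt (1 + |(n : ℝ)|) := by
  have hsum' : Summable fun h : ℤ => ‖fourierCoeff (cx ψ) h‖ := hsum
  have hS := hasSum_fourier_series_of_summable hsum'.of_norm
  have hT : 0 ≤ ∑' h : ℤ, ‖fourierCoeff (cx ψ) h‖ := tsum_nonneg fun _ => norm_nonneg _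
  refine ⟨(∑' h : ℤ, ‖fourierCoeff (cx ψ) h‖) * 5 + 1, by positivity, fun M n => ?_⟩
  have h1 := hS.map ((fcH n).comp (pcH (th M)))
    ((fcH_cont n).comp (ContinuousMap.continuous_precomp (th M)))
  have h2 : ∀ h : ℤ, ((fcH n).comp (pcH (th M))) (fourierCoeff (cx ψ) h • fourier h)
      = fourierCoeff (cx ψ) h * fourierCoeff (ee (h * M)) n := by
    intro h
    change fourierCoeff (⇑(fourierCoeff (cx ψ) h • ((fourier h).comp (th M)))) n = _
    rw [fc_smul]
    congr 2
    ext t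
    exact four_ee _ _ _
  have hs0 : 0 < Real.sqrt (1 + |(n : ℝ)|) := Real.sqrt_pos.2 (by positivity)
  have h3 : ∀ h : ℤ, ‖((fcH n).comp (pcH (th M))) (fourierCoeff (cx ψ) h • fourier h)‖
      ≤ ‖fourierCoeff (cx ψ) h‖ * (5 / Real.sqrt (1 + |(n : ℝ)|)) := by
    intro h
    rw [h2, norm_mul]
    exact mul_le_mul_of_nonneg_left (Osc1.bound _ n) (norm_nonneg _)
  have h4 := h1.norm_le_of_bounded (hsum'.hasSum.mul_right (5 / Real.sqrt (1 + |(n : ℝ)|))) h3
  have h5 : ((fcH n).comp (pcH (th M))) (cx ψ) = fourierCoeff ((cx ψ).comp (th M)) n := rfl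
  rw [h5] at h4
  refine h4.trans ?_
  rw [← mul_div_assoc]
  apply div_le_div_of_nonneg_right _ hs0.le
  linarith

/-- The symbol on the circle of a sum of levels. -/
def bt (ψ : C(UnitAddCircle, ℝ)) (l : ℕ → ℝ) (M : ℕ → ℕ) : C(UnitAddCircle, ℝ) :=
  ∑' j, l j • ψ.comp (th (M j))

lemma bt_summable (ψ : C(UnitAddCircle, ℝ)) {l : ℕ → ℝ} (hl : Summable l) (h0 : ∀ j, 0 ≤ l j)
    (M : ℕ → ℕ) : Summable fun j => l j • ψ.comp (th (M j)) := by
  refine Summable.of_norm_bounded (hl.mul_right ‖ψ‖) fun j => ?_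
  rw [norm_smul, Real.norm_eq_abs, abs_of_nonneg (h0 j)]
  refine mul_le_mul_of_nonneg_left ?_ (h0 j)
  rw [ContinuousMap.norm_le _ (norm_nonneg _)]
  intro t
  exact ψ.norm_coe_le_norm _

lemma bt_apply (ψ : C(UnitAddCircle, ℝ)) {l : ℕ → ℝ} (hl : Summable l) (h0 : ∀ j, 0 ≤ l j)
    (M : ℕ → ℕ) (t : UnitAddCircle) : bt ψ l M t = ∑' j, l j * ψ (th (M j) t) := by
  unfold bt
  rw [← ContinuousMap.tsum_apply (bt_summable ψ hl h0 M)]
  rfl

/-- complexification as a homomorphism -/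
def cxH : C(UnitAddCircle, ℝ) →+ C(UnitAddCircle, ℂ) where
  toFun := cx
  map_zero' := by
    ext t
    exact Complex.ofReal_zero
  map_add' f g := by
    ext t
    exact Complex.ofReal_add _ _

lemma cxH_cont : Continuous cxH := by
  have h : (cxH : C(UnitAddCircle, ℝ) → C(UnitAddCircle, ℂ))
      = fun f => (⟨fun x : ℝ => (x : ℂ), Complex.continuous_ofReal⟩ : C(ℝ, ℂ)).comp f := rfl
  rw [h]
  exact ContinuousMap.continuous_postcomp _

theorem bt_coeff (ψ : C(UnitAddCircle, ℝ)) {l : ℕ → ℝ} (hl : Summable l) (h0 : ∀ j, 0 ≤ l j)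
    (M : ℕ → ℕ) {C : ℝ}
    (hC : ∀ (M : ℕ) (n : ℤ), ‖fourierCoeff ((cx ψ).comp (th M)) n‖ ≤ C / Real.sqrt (1 + |(n : ℝ)|))
    (n : ℤ) :
    ‖fourierCoeff (cx (bt ψ l M)) n‖ ≤ (∑' j, l j) * (C / Real.sqrt (1 + |(n : ℝ)|)) := by
  have h1 := (bt_summable ψ hl h0 M).hasSum.map ((fcH n).comp cxH) ((fcH_cont n).comp cxH_cont)
  have h3 : ∀ j, ‖((fcH n).comp cxH) (l j • ψ.comp (th (M j)))‖
      ≤ l j * (C / Real.sqrt (1 + |(n : ℝ)|)) := by
    intro j
    have e : ((fcH n).comp cxH) (l j • ψ.comp (th (M j)))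
        = (l j : ℂ) * fourierCoeff ((cx ψ).comp (th (M j))) n := by
      rw [← fc_smul]
      change fourierCoeff (⇑(cx (l j • ψ.comp (th (M j))))) n = _
      congr 2
      ext t
      exact Complex.ofReal_mul _ _
    rw [e, norm_mul, Complex.norm_real, Real.norm_eq_abs, abs_of_nonneg (h0 j)]
    exact mul_le_mul_of_nonneg_left (hC _ n) (h0 j)
  exact h1.norm_le_of_bounded (hl.hasSum.mul_right _) h3

/-- Fourier coefficients of an even real function. -/
theorem fc_neg (β : C(UnitAddCircle, ℝ)) (h : ∀ t, β (-t) = β t) (n : ℤ) :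
    fourierCoeff (cx β) (-n) = fourierCoeff (cx β) n := by
  unfold fourierCoeff
  rw [← integral_neg_eq_self]
  congr 1
  ext t
  have e : cx β (-t) = cx β t := by
    change ((β (-t) : ℝ) : ℂ) = ((β t : ℝ) : ℂ)
    rw [h]
  rw [e]
  congr 1
  rw [fourier_apply, fourier_apply, neg_neg, neg_smul, smul_neg]

theorem fc_conj (β : C(UnitAddCircle, ℝ)) (n : ℤ) :
    conj (fourierCoeff (cx β) n) = fourierCoeff (cx β) (-n) := by
  unfold fourierCoeff
  rw [← integral_conj]
  congr 1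
  ext t
  have e : conj (cx β t) = cx β t := Complex.conj_ofReal _
  rw [smul_eq_mul, map_mul, e, ← fourier_neg, smul_eq_mul]

theorem fc_real (β : C(UnitAddCircle, ℝ)) (h : ∀ t, β (-t) = β t) (n : ℤ) :
    fourierCoeff (cx β) n = ((fourierCoeff (cx β) n).re : ℂ) := by
  have h1 := fc_conj β n
  rw [fc_neg β h] at h1
  exact (Complex.conj_eq_iff_real.1 h1).elim fun r hr => by rw [hr]; simp

end

end Pool.Agent.K3h29.LH.Line
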