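import Pool.Agent.K3h29.LH.Line

/-!
Line hopping: assembly.
-/

set_option autoImplicit false

namespace Pool.Agent.K3h29.LH.LineFin

open MeasureTheory Filter Set
open scoped Topology
open Pool.Agent.W792.LL Pool.Agent.W792.WA UnitAddTorus Pool.Agent.K3h29.LH
open Pool.Agent.K3h29.LH.Line

noncomputable section

/-- The theorem for couplings of positive sign. -/
theorem main (d : ℕ) (hd : 0 < d) (v : Fin d → ℤ) (hv : v ≠ 0) (ε : ℝ) (hε : 0 < ε) :
    ∃ β : C(UnitAddCircle, ℝ), (∀ t, β (-t) = β t) ∧ (∀ t, |β t| ≤ ε) ∧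
    (∀ n : ℤ, ‖fourierCoeff (cx β) n‖ ≤ ε / Real.sqrt (1 + |(n : ℝ)|)) ∧
    ∀ (ν : Measure ℝ) [IsProbabilityMeasure ν], Integrable (fun x : ℝ => x ^ 60) ν →
    (∀ a : ℝ, ν {a} < 1) → ∃ lam₀ : ℝ, 0 < lam₀ ∧ ∀ lam : ℝ, 0 < lam → lam ≤ lam₀ →
      ∀ᵐ V ∂(Pn ν (Fin d → ℤ)), ∀ B : C(Tor d, ℝ), (∀ k, B k = β (ln v k)) →
        ACIK (lap d + B) lam V 0 (4 * d) := by
  obtain ⟨ψ, hψ, hψ2⟩ := Pool.Agent.W915.WA.WH.main
  have hsum := Pool.Agent.W332.WA.WB.main ψ hψ2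
  obtain ⟨C, hC, hC1⟩ := level ψ hsum
  have hS0 : 0 < min ε (ε / C) := lt_min hε (by positivity)
  have hd' : (0 : ℝ) < d := by exact_mod_cast hd
  have hlt : (⨅ k, lap d k) < ⨆ k, lap d k := by
    rw [Br.lap_inf, Br.lap_sup]
    linarith
  obtain ⟨g, hg1, hg2⟩ := Weak.kf hd (Avg.main (PL v) (os v hv)) ψ hψ (lap d) (min ε (ε / C)) hS0 hlt
  have hgb := hg1.bound hψ.bound
  obtain ⟨l, M, h1, h2, h3, h4⟩ := hg1
  have hβ : ∀ k, g k = bt ψ l M (ln v k) := by
    intro k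
    rw [h4, bt_apply ψ h2 h1 M]
    rfl
  have hb0 : ∀ t, |bt ψ l M t| ≤ min ε (ε / C) := by
    intro t
    rw [bt_apply ψ h2 h1 M]
    have h5 : ∀ j, ‖l j * ψ (th (M j) t)‖ ≤ l j := by
      intro j
      rw [Real.norm_eq_abs, abs_mul, abs_of_nonneg (h1 j)]
      exact mul_le_of_le_one_right (h1 j) (hψ.bound _)
    rw [← Real.norm_eq_abs]
    exact (tsum_of_norm_bounded h2.hasSum h5).trans h3
  refine ⟨bt ψ l M, fun t => ?_, fun t => (hb0 t).trans (min_le_left _ _), fun n => ?_,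
    fun ν hν hν1 hν2 => ?_⟩
  · rw [bt_apply ψ h2 h1 M, bt_apply ψ h2 h1 M]
    simp only [th_neg]
  · refine (bt_coeff ψ h2 h1 M hC1 n).trans ?_
    have hs0 : 0 < Real.sqrt (1 + |(n : ℝ)|) := Real.sqrt_pos.2 (by positivity)
    rw [← mul_div_assoc]
    refine div_le_div_of_nonneg_right ?_ hs0.le
    calc (∑' j, l j) * C ≤ ε / C * C :=
          mul_le_mul_of_nonneg_right (h3.trans (min_le_right _ _)) hC.le
      _ = ε := by field_simp
  · obtain ⟨lam₀, h0, h5⟩ := hg2 ν hν1 hν2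
    refine ⟨lam₀, h0, fun lam hl1 hl2 => ?_⟩
    have h6 := h5 lam hl1 hl2
    rw [Br.lap_inf, Br.lap_sup] at h6
    filter_upwards [h6] with V hV B hB
    have e : B = g := by
      ext k
      rw [hB, hβ]
    rw [e]
    exact hV

/-- the convolution with a symbol living on a line -/
theorem line_sum {d : ℕ} (v : Fin d → ℤ) (hv : v ≠ 0) (β : C(UnitAddCircle, ℝ)) (a : ℤ → ℝ)
    (ha : ∀ n, fourierCoeff (cx β) n = a n) (B : C(Tor d, ℝ)) (hB : ∀ k, B k = β (ln v k))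
    (u : (Fin d → ℤ) → ℂ) (y : Fin d → ℤ) :
    ∑' y', UnitAddTorus.mFourierCoeff (fun k : UnitAddTorus (Fin d) => ((B k : ℝ) : ℂ))
      (y - y') * u y' = ∑' n : ℤ, (a n : ℂ) * u (y - n • v) := by
  have hB' : (fun k : UnitAddTorus (Fin d) => ((B k : ℝ) : ℂ)) = fun k => cx β (ln v k) := by
    funext k
    rw [hB]
    rfl
  rw [hB']
  have hinj : Function.Injective fun n : ℤ => y - n • v := by
    intro n m h
    have h1 : n • v = m • v := sub_right_injective h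
    by_contra hne
    apply hv
    have h2 : (n - m) • v = 0 := by rw [sub_smul, h1, sub_self]
    exact (smul_eq_zero.1 h2).resolve_left (sub_ne_zero.2 hne)
  have hsupp : Function.support (fun y' => mFourierCoeff (fun k : Tor d => cx β (ln v k)) (y - y')
      * u y') ⊆ range fun n : ℤ => y - n • v := by
    intro y' hy'
    by_contra hne
    apply hy'
    have h1 : ∀ n : ℤ, y - y' ≠ n • v := by
      intro n h2
      apply hne
      exact ⟨n, by simp only; rw [← h2]; abel⟩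
    simp only
    rw [coeff_off v _ _ h1, zero_mul]
  rw [← hinj.tsum_eq hsupp]
  refine tsum_congr fun n => ?_
  have e : y - (y - n • v) = n • v := by abel
  rw [e, coeff v hv, ha]

end

end Pool.Agent.K3h29.LH.LineFin
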