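import Pool.Agent.K3h29.LH.Ch

/-!
The construction of the perturbation, arbitrary phases, level functions and classes of laws.
-/

set_option autoImplicit false

namespace Pool.Agent.K3h29.LH.Ch

open MeasureTheory Filter Pool.Agent.W792.LL Pool.Agent.W792.WA Pool.Agent.W792.WA.Ch
  Pool.Agent.K3h29.LH
open scoped Topology

noncomputable section

/-- A sequence of levels. -/
structure Lv {d : ℕ} (P : Phs d) where
  /-- level functions -/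
  ψ : ℕ → C(UnitAddCircle, ℝ)
  /-- levels -/
  l : ℕ → ℝ
  /-- tails -/
  T : ℕ → ℝ
  /-- perturbations -/
  f : ℕ → C(Tor d, ℝ)
  /-- frequencies -/
  M : ℕ → ℕ
  hψ : ∀ n t, |ψ n t| ≤ 1
  hl : ∀ n, 0 < l n
  hT : ∀ n, l n + T (n + 1) ≤ T n
  hTp : ∀ n, 0 ≤ T n
  f0 : f 0 = 0
  fs : ∀ n, f (n + 1) = addP (ψ n) (f n) (l n) (P (M n))

namespace Lv

variable {d : ℕ} {P : Phs d} (D : Lv P)

theorem fs_apply (n : ℕ) (t : Tor d) : D.f (n + 1) t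
    = D.f n t + D.l n * D.ψ n (P (D.M n) t) := by
  rw [D.fs n]; rfl

theorem term_le (n : ℕ) (t : UnitAddCircle) : |D.l n * D.ψ n t| ≤ D.l n := by
  rw [abs_mul, abs_of_pos (D.hl n)]
  exact mul_le_of_le_one_right (D.hl n).le (D.hψ n t)

theorem T_anti : Antitone D.T :=
  antitone_nat_of_succ_le fun n => by linarith [D.hT n, D.hl n]

theorem sum_l (n m : ℕ) : ∑ j ∈ Finset.range m, D.l (n + j) ≤ D.T n - D.T (n + m) := by
  induction m with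
  | zero => simp
  | succ m ih =>
    rw [Finset.sum_range_succ]
    have := D.hT (n + m)
    have e : n + (m + 1) = n + m + 1 := by omega
    rw [e]
    linarith

theorem summable_l : Summable D.l := by
  refine summable_of_sum_range_le (c := D.T 0) (fun n => (D.hl n).le) fun m => ?_
  have h1 := D.sum_l 0 m
  have h2 := D.hTp (0 + m)
  simp only [zero_add] at h1 h2
  linarith

theorem f_eq (n : ℕ) (t : Tor d) : D.f n t = ∑ j ∈ Finset.range n,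
    D.l j * D.ψ j (P (D.M j) t) := by
  induction n with
  | zero => rw [D.f0]; simp
  | succ n ih => rw [D.fs_apply, ih, Finset.sum_range_succ]

theorem f_diff (n m : ℕ) (t : Tor d) : |D.f (n + m) t - D.f n t| ≤ D.T n := by
  have h : |D.f (n + m) t - D.f n t| ≤ ∑ j ∈ Finset.range m, D.l (n + j) := by
    induction m with
    | zero => simp
    | succ m ih =>
      have e : n + (m + 1) = n + m + 1 := by omega
      rw [e, D.fs_apply, Finset.sum_range_succ]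
      have h1 := D.term_le (n + m) (P (D.M (n + m)) t)
      calc _ = |(D.f (n + m) t - D.f n t)
            + D.l (n + m) * D.ψ (n + m) (P (D.M (n + m)) t)| := by
              congr 1; ring
        _ ≤ _ := abs_add_le _ _
        _ ≤ _ := add_le_add ih h1
  have h1 := D.sum_l n m
  have h2 := D.hTp (n + m)
  linarith

/-- The limit function. -/
def fI : C(Tor d, ℝ) where
  toFun t := ∑' j, D.l j * D.ψ j (P (D.M j) t)
  continuous_toFun := by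
    refine continuous_tsum (u := D.l) (fun j => ?_) D.summable_l ?_
    · exact continuous_const.mul ((D.ψ j).continuous.comp (P (D.M j)).continuous)
    · intro j t
      exact D.term_le j _

theorem f_tendsto (t : Tor d) : Tendsto (fun n => D.f n t) atTop (𝓝 (D.fI t)) := by
  have h1 : Summable fun j => D.l j * D.ψ j (P (D.M j) t) :=
    Summable.of_norm_bounded D.summable_l fun j => D.term_le j _
  refine h1.hasSum.tendsto_sum_nat.congr fun n => ?_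
  rw [D.f_eq]

theorem fI_diff (n : ℕ) (t : Tor d) : |D.fI t - D.f n t| ≤ D.T n := by
  have h1 : Tendsto (fun m => |D.f (n + m) t - D.f n t|) atTop (𝓝 |D.fI t - D.f n t|) := by
    have h2 := (D.f_tendsto t).comp (tendsto_add_atTop_nat n)
    have h3 : Tendsto (fun m => D.f (n + m) t) atTop (𝓝 (D.fI t)) := by
      refine h2.congr fun m => ?_
      simp [Function.comp, add_comm]
    exact (h3.sub_const _).abs
  exact le_of_tendsto' h1 fun m => D.f_diff n m t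

theorem fI_id (t : Tor d) : |D.fI t| ≤ D.T 0 := by
  have := D.fI_diff 0 t
  rw [D.f0] at this
  simpa using this

theorem f_id (n : ℕ) (t : Tor d) : |D.f n t| ≤ D.T 0 := by
  have := D.f_diff 0 n t
  rw [zero_add, D.f0] at this
  simpa using this

end Lv

/-- Laws controlled at stage `n`. -/
def Xc (En : ℕ → Set MX) (n : ℕ) : Set MX := {X | ∃ j ≤ n, X ∈ En j}

/-- Data fixed in advance. -/
structure Pr {d : ℕ} (P : Phs d) (K : C(Tor d, ℝ)) where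
  /-- level functions -/
  ψ : ℕ → C(UnitAddCircle, ℝ)
  /-- levels -/
  l : ℕ → ℝ
  /-- laws of the future levels -/
  ρ : ℕ → Measure ℝ
  /-- tails -/
  T : ℕ → ℝ
  /-- classes of laws -/
  En : ℕ → Set MX
  /-- gaps at the entry -/
  se : ℕ → ℝ
  /-- the preserved property -/
  Q : ℕ → C(Tor d, ℝ) → Prop
  hψ : ∀ n, IsLv (ψ n)
  hl : ∀ n, 0 < l n
  hT : ∀ n, l n + T (n + 1) ≤ T n
  hTp : ∀ n, 0 ≤ T n
  hTt : Tendsto T atTop (𝓝 0)
  hρ1 : ∀ n, IsProbabilityMeasure (ρ n)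
  hρ2 : ∀ n, ρ n = (lev (ψ n) (l n)).conv (ρ (n + 1))
  hρ3 : ∀ n, ρ n (Set.Icc (-(T n)) (T n))ᶜ = 0
  hρ4 : ∀ (n : ℕ) (a b : ℝ), ρ n {a, b} < 1
  hEv : ∀ n, ∀ X ∈ En n, 0 < vr (qlaw X)
  hEq : ∀ n, En n ⊆ Qf
  hse : ∀ n, 0 < se n
  hQ0 : Q 0 K
  hQs : ∀ (n : ℕ) (K' : C(Tor d, ℝ)), Q n K' → ∃ M₀ : ℕ, ∀ M : ℕ, M₀ ≤ M →
    Q (n + 1) (addP (ψ n) K' (l n) (P M))
  hent : ∀ (n : ℕ) (K' : C(Tor d, ℝ)), ‖K'‖ ≤ ‖K‖ + T 0 → Q n K' → ∀ X ∈ En n,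
    GapK (qlaw X) (ρ n) K' (se n)

namespace Pr

variable {d : ℕ} {P : Phs d} {K : C(Tor d, ℝ)} (D : Pr P K)

/-- Invariant of stage `n`. -/
def Inv (n : ℕ) (a : C(Tor d, ℝ) × ℝ) : Prop :=
  (∀ t, |a.1 t| ≤ D.T 0 - D.T n) ∧
  (∀ j ≤ n, ∀ X ∈ D.En j, GapK (qlaw X) (D.ρ n) (kg K a.1)
    (D.se j * (1 / 2 + 1 / 2 ^ (n + 1)))) ∧
  D.Q n (kg K a.1) ∧ 0 < a.2 ∧
  ∃ q : ℝ, 0 ≤ q ∧ q < 1 ∧ a.2 ≤ (1 - q ^ 2) / 8 ∧
    ∀ X ∈ Xc D.En n, CtrK (qlaw X) (D.ρ n) (kg K a.1) q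

/-- Relation of two stages. -/
def Rel (N : ℕ → ℕ) (n : ℕ) (a b : C(Tor d, ℝ) × ℝ) : Prop :=
  (∃ M : ℕ, N n ≤ M ∧ b.1 = addP (D.ψ n) a.1 (D.l n) (P M)) ∧ b.2 ≤ a.2 ∧
    ∀ X ∈ Xc D.En n, ∀ z ∈ Zs d, ∀ s s',
    IsFix (qlaw X) (D.ρ n) (wz (kg K a.1) z) s →
    IsFix (qlaw X) (D.ρ (n + 1)) (wz (kg K b.1) z) s' →
      ∫ v, ‖Zf (UU (D.ρ n) (wz (kg K a.1) z) s) (fun x => cay (v x))
        - Zf (UU (D.ρ (n + 1)) (wz (kg K b.1) z) s') (fun x => cay (v x))‖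
          ∂(Pn (qlaw X) (Fin d → ℤ)) ≤ a.2 / (64 * 8 ^ n)

theorem Xvr {n : ℕ} {X : MX} (hX : X ∈ Xc D.En n) : 0 < vr (qlaw X) := by
  obtain ⟨j, -, h⟩ := hX
  exact D.hEv j X h

theorem XTB (hN : S_NETX2) (n : ℕ) : TB (Xc D.En n) := by
  refine TB_mono ?_ hN
  rintro X ⟨j, -, h⟩
  exact D.hEq j h

theorem K_le {f : C(Tor d, ℝ)} {n : ℕ} (hf : ∀ t, |f t| ≤ D.T 0 - D.T n) :
    ‖kg K f‖ ≤ ‖K‖ + D.T 0 := by
  have hT := D.hTp n
  have := kg_le K hf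
  linarith

theorem entry (n : ℕ) {f : C(Tor d, ℝ)} (hf : ∀ t, |f t| ≤ D.T 0 - D.T n)
    (hK : D.Q n (kg K f)) {X : MX} (hX : X ∈ D.En n) :
    ∀ z ∈ Zs d, ∀ s, IsFix (qlaw X) (D.ρ n) (wz (kg K f) z) s →
      ‖s‖ ≤ 1 - D.se n * (1 / 2 + 1 / 2 ^ (n + 1)) := by
  intro z hz s hs
  have h6 := D.hent n (kg K f) (D.K_le hf) hK X hX z hz s hs
  have h8 : D.se n * (1 / 2 + 1 / 2 ^ (n + 1)) ≤ D.se n * 1 := by
    have h9 : (1 : ℝ) / 2 ^ (n + 1) ≤ 1 / 2 := by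
      apply one_div_le_one_div_of_le (by norm_num)
      rw [pow_succ]
      have : (1 : ℝ) ≤ 2 ^ n := one_le_pow₀ (by norm_num)
      linarith
    have := D.hse n
    gcongr
    linarith
  linarith

/-- Uniform gap. -/
theorem ugap {n : ℕ} {f : C(Tor d, ℝ)}
    (h : ∀ j ≤ n, ∀ X ∈ D.En j, GapK (qlaw X) (D.ρ n) (kg K f)
      (D.se j * (1 / 2 + 1 / 2 ^ (n + 1)))) :
    ∃ σ : ℝ, 0 < σ ∧ (∀ j ≤ n, σ ≤ D.se j / 2) ∧
      ∀ X ∈ Xc D.En n, GapK (qlaw X) (D.ρ n) (kg K f) σ := by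
  obtain ⟨σ, h1, h2⟩ := exists_lb (fun j => D.se j / 2) (fun j => by
    have := D.hse j
    positivity) n
  refine ⟨σ, h1, h2, ?_⟩
  rintro X ⟨j, hj, hX⟩ z hz s hs
  have h3 := h j hj X hX z hz s hs
  have h4 := h2 j hj
  have h5 : 0 < D.se j * (1 / 2 ^ (n + 1)) := by
    have := D.hse j
    positivity
  linarith

theorem ctr (hU2 : S_UNI2) {n : ℕ} {f : C(Tor d, ℝ)}
    (h : ∀ j ≤ n, ∀ X ∈ D.En j, GapK (qlaw X) (D.ρ n) (kg K f)
      (D.se j * (1 / 2 + 1 / 2 ^ (n + 1)))) :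
    ∃ q : ℝ, 0 ≤ q ∧ q < 1 ∧ ∀ X ∈ Xc D.En n, CtrK (qlaw X) (D.ρ n) (kg K f) q := by
  obtain ⟨σ, h1, -, h2⟩ := D.ugap h
  have := D.hρ1 n
  obtain ⟨q, h3, h4, h5⟩ := (hU2 d (D.ρ n) (D.T n) σ (kg K f) (D.hρ3 n) (D.hρ4 n) h1).1
  exact ⟨q, h3, h4, fun X hX => (h5 (qlaw X) (D.Xvr hX) (h2 X hX)).2⟩

theorem init (hU2 : S_UNI2) : ∃ a, D.Inv 0 a ∧ (0 = 0 → a.1 = 0) := by
  have hQ : D.Q 0 (kg K 0) := by rw [kg_zero]; exact D.hQ0
  have h0 : ∀ j ≤ 0, ∀ X ∈ D.En j, GapK (qlaw X) (D.ρ 0) (kg K 0)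
      (D.se j * (1 / 2 + 1 / 2 ^ (0 + 1))) := by
    intro j hj X hX
    obtain rfl := Nat.le_zero.1 hj
    exact D.entry 0 (fun t => by simp) hQ hX
  obtain ⟨q, hq0, hq1, hq2⟩ := D.ctr hU2 h0
  have hq3 : 0 < (1 - q ^ 2) / 8 := by
    have : q ^ 2 < 1 := by nlinarith
    linarith
  exact ⟨(0, (1 - q ^ 2) / 8), ⟨fun t => by simp, h0, hQ, hq3, q, hq0, hq1, le_rfl,
    hq2⟩, fun _ => rfl⟩

theorem step (hU2 : S_UNI2) (hS2 : S_STEP2P P) (hN : S_NETX2) (N : ℕ → ℕ)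
    (n : ℕ) (a : C(Tor d, ℝ) × ℝ) (ha : D.Inv n a) :
    ∃ b, D.Inv (n + 1) b ∧ D.Rel N n a b := by
  obtain ⟨h0, h1, h2, h3, -⟩ := ha
  obtain ⟨σ, hσ, hσ1, hσ2⟩ := D.ugap h1
  have i0 := D.hρ1 n
  have i1 := D.hρ1 (n + 1)
  set e : ℝ := min (a.2 / (64 * 8 ^ n)) (σ / 2 ^ (n + 1)) with he
  have he0 : 0 < e := lt_min (by positivity) (by positivity)
  have hσ2' : ∀ X ∈ Xc D.En n, ∀ z ∈ Zs d, ∀ s,
      IsFix (qlaw X) ((lev (D.ψ n) (D.l n)).conv (D.ρ (n + 1))) (wz (kg K a.1) z) s →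
        ‖s‖ ≤ 1 - σ := by
    rw [← D.hρ2 n]; exact hσ2
  obtain ⟨M₁, hM₁⟩ := hS2 (D.ψ n) (D.ρ (n + 1)) (D.T (n + 1)) σ (D.l n) (kg K a.1) (Xc D.En n)
    (D.hψ n) (fun X hX => D.Xvr hX) (D.XTB hN n) (D.hρ3 (n + 1)) (D.hρ4 (n + 1)) (D.hl n)
    hσ hσ2' e he0
  obtain ⟨M₂, hM₂⟩ := D.hQs n (kg K a.1) h2
  obtain ⟨M, hMa, hMb, hMc⟩ : ∃ M, M₁ ≤ M ∧ M₂ ≤ M ∧ N n ≤ M :=
    ⟨max M₁ (max M₂ (N n)), le_max_left _ _, (le_max_left _ _).trans (le_max_right _ _),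
      (le_max_right _ _).trans (le_max_right _ _)⟩
  have hM1 := hM₁ M hMa
  have hM2 := hM₂ M hMb
  rw [← D.hρ2 n] at hM1
  rw [← kg_nx] at hM1 hM2
  have hid : ∀ t, |addP (D.ψ n) a.1 (D.l n) (P M) t| ≤ D.T 0 - D.T (n + 1) := by
    intro t
    have h4 := h0 t
    have h5 := D.hT n
    have h6 : |D.l n * D.ψ n (P M t)| ≤ D.l n := by
      rw [abs_mul, abs_of_pos (D.hl n)]
      exact mul_le_of_le_one_right (D.hl n).le ((D.hψ n).bound _)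
    change |a.1 t + D.l n * D.ψ n _| ≤ _
    refine (abs_add_le _ _).trans ?_
    linarith
  have hgap : ∀ j ≤ n + 1, ∀ X ∈ D.En j, GapK (qlaw X) (D.ρ (n + 1))
      (kg K (addP (D.ψ n) a.1 (D.l n) (P M))) (D.se j * (1 / 2 + 1 / 2 ^ (n + 1 + 1))) := by
    intro j hj X hX
    rcases Nat.lt_or_ge n j with h | h
    · obtain rfl : j = n + 1 := by omega
      exact D.entry (n + 1) hid hM2 hX
    · intro z hz s' hs'
      have hXn : X ∈ Xc D.En n := ⟨j, h, hX⟩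
      have hex := ((hU2 d (D.ρ n) (D.T n) σ (kg K a.1) (D.hρ3 n) (D.hρ4 n) hσ).1.choose_spec.2.2
        (qlaw X) (D.Xvr hXn) (hσ2 X hXn)).1 z hz
      obtain ⟨s, hs, -⟩ := hex
      have h4 := (hM1 X hXn z hz s s' hs hs').1
      have h5 := h1 j h X hX z hz s hs
      have h6 : ‖s'‖ ≤ ‖s‖ + ‖s - s'‖ := by
        have := norm_sub_le s (s - s')
        rwa [sub_sub_cancel] at this
      have h7 : e ≤ σ / 2 ^ (n + 1) := min_le_right _ _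
      have h8 : σ / 2 ^ (n + 1) ≤ D.se j / 2 / 2 ^ (n + 1) := by
        have := hσ1 j h
        gcongr
      have h9 : D.se j * (1 / 2 + 1 / 2 ^ (n + 1)) = D.se j * (1 / 2 + 1 / 2 ^ (n + 1 + 1))
          + D.se j / 2 / 2 ^ (n + 1) := by
        field_simp
        ring
      linarith
  obtain ⟨q, hq0, hq1, hq2⟩ := D.ctr hU2 hgap
  have hq3 : 0 < (1 - q ^ 2) / 8 := by
    have : q ^ 2 < 1 := by nlinarith
    linarith
  refine ⟨(addP (D.ψ n) a.1 (D.l n) (P M), min a.2 ((1 - q ^ 2) / 8)),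
    ⟨hid, hgap, hM2, lt_min h3 hq3, q, hq0, hq1, min_le_right _ _, hq2⟩,
    ⟨M, hMc, rfl⟩, min_le_left _ _, ?_⟩
  intro X hX z hz s s' hs hs'
  exact (hM1 X hX z hz s s' hs hs').2.trans (min_le_left _ _)

/-- The main construction: one perturbation for all classes. -/
theorem exists_g (hX : S_CX) (hUU : S_UUC) (hL : S_SCL) (hZ : S_ZF) (hCay : S_CAY)
    (hM : S_MZP) (hU : S_UNI) (hU2 : S_UNI2) (hS2 : S_STEP2P P) (hN : S_NETX2) (N : ℕ → ℕ) :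
    ∃ (M : ℕ → ℕ) (g : C(Tor d, ℝ)), (∀ j, N j ≤ M j) ∧
      (∀ t, g t = ∑' j, D.l j * D.ψ j (P (M j) t)) ∧
      ∀ (n : ℕ), ∀ X ∈ D.En n, MestK (K + g) (qlaw X) := by
  obtain ⟨x, hx⟩ := exists_seq (α := C(Tor d, ℝ) × ℝ)
    (fun n a => D.Inv n a ∧ (n = 0 → a.1 = 0))
    (fun n a b => D.Rel N n a b) (D.init hU2) (by
      intro n a ha
      obtain ⟨b, hb1, hb2⟩ := D.step hU2 hS2 hN N n a ha.1
      exact ⟨b, ⟨hb1, fun h => absurd h (Nat.succ_ne_zero n)⟩, hb2⟩)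
  have hMe : ∀ n, ∃ M : ℕ, N n ≤ M ∧ (x (n + 1)).1 = addP (D.ψ n) (x n).1 (D.l n) (P M) :=
    fun n => (hx n).2.1
  choose M hMN hMe using hMe
  have hq : ∀ n, ∃ q : ℝ, 0 ≤ q ∧ q < 1 ∧ (x n).2 ≤ (1 - q ^ 2) / 8 ∧
      ∀ X ∈ Xc D.En n, CtrK (qlaw X) (D.ρ n) (kg K (x n).1) q := fun n => (hx n).1.1.2.2.2.2
  choose q hq0 hq1 hq2 hq3 using hq
  let L : Lv P := {
    ψ := D.ψ, l := D.l, T := D.T, f := fun n => (x n).1, M := M
    hψ := fun n => (D.hψ n).bound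
    hl := D.hl
    hT := D.hT
    hTp := D.hTp
    f0 := (hx 0).1.2 rfl
    fs := hMe }
  refine ⟨M, L.fI, hMN, fun t => rfl, fun j X hXj => ?_⟩
  have hXn : ∀ n, X ∈ Xc D.En (n + j) := fun n => ⟨j, by omega, hXj⟩
  let E : CEK (qlaw X) K := {
    ρ := fun n => D.ρ (n + j)
    T := fun n => D.T (n + j)
    σ := D.se j / 2
    f := fun n => (x (n + j)).1
    fI := L.fI
    B := D.T 0
    p := fun n => (x (n + j)).2
    q := fun n => q (n + j)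
    hv := D.Xvr (hXn 0)
    T_anti := fun a b hab => L.T_anti (by omega)
    hTp := fun n => D.hTp _
    hT0 := D.hTt.comp (tendsto_add_atTop_nat j)
    hρ1 := fun n => D.hρ1 _
    hρ3 := fun n => D.hρ3 _
    hρ4 := fun n => D.hρ4 _
    hσ := by have := D.hse j; positivity
    gap := by
      intro n z hz s hs
      have h1 := (hx (n + j)).1.1.2.1 j (by omega) X hXj z hz s hs
      have h2 : 0 < D.se j * (1 / 2 ^ (n + j + 1)) := by
        have := D.hse j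
        positivity
      linarith
    hp := fun n => (hx (n + j)).1.1.2.2.2.1
    anti := by
      intro n
      have e : n + 1 + j = n + j + 1 := by omega
      rw [e]
      exact (hx (n + j)).2.2.1
    hq0 := fun n => hq0 _
    hq1 := fun n => hq1 _
    hq2 := fun n => hq2 _
    ctr := fun n => hq3 _ X (hXn n)
    fI_diff := fun n t => L.fI_diff (n + j) t
    fI_id := L.fI_id
    f_id := fun n t => L.f_id (n + j) t
    rel := by
      intro n z hz s s' hs hs'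
      have e : n + 1 + j = n + j + 1 := by omega
      rw [e] at hs' ⊢
      refine ((hx (n + j)).2.2.2 X (hXn n) z hz s s' hs hs').trans ?_
      have h1 := (hx (n + j)).1.1.2.2.2.1
      apply div_le_div_of_nonneg_left h1.le (by positivity)
      have h2 : (8 : ℝ) ^ n ≤ 8 ^ (n + j) := pow_le_pow_right₀ (by norm_num) (by omega)
      linarith }
  exact E.concl hX hUU hL hZ hCay hM hU

end Pr

end

end Pool.Agent.K3h29.LH.Ch
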