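import Pool.Agent.K3h29.LH.Scal
import Pool.Agent.K3h29.LH.Hp

/-!
From the disc to the half plane.
-/

set_option autoImplicit false

namespace Pool.Agent.K3h29.LH.Rel

open MeasureTheory Filter
open scoped Topology
open Pool.Agent.W792.LL Pool.Agent.W792.WA

noncomputable section

/-- The Cayley transform of the disc onto the half plane. -/
def hp (u : ℂ) : ℂ := Complex.I * (1 + u) / (1 - u)

lemma one_sub_ne {u : ℂ} (hu : ‖u‖ < 1) : 1 - u ≠ 0 := by
  intro h
  have h1 : u = 1 := (sub_eq_zero.1 h).symm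
  rw [h1, norm_one] at hu
  exact lt_irrefl _ hu

lemma hp_add {u : ℂ} (hu : ‖u‖ < 1) : hp u + Complex.I = 2 * Complex.I / (1 - u) := by
  have h := one_sub_ne hu
  unfold hp
  field_simp
  ring

lemma hp_mul {u : ℂ} (hu : ‖u‖ < 1) : u * (hp u + Complex.I) = hp u - Complex.I := by
  have h := one_sub_ne hu
  unfold hp
  field_simp
  ring

lemma hp_im_eq {u : ℂ} (hu : ‖u‖ < 1) : (hp u).im = (1 - ‖u‖ ^ 2) / ‖1 - u‖ ^ 2 := by
  have h := one_sub_ne hu
  have h2 : Complex.normSq (1 - u) ≠ 0 := by rwa [Complex.normSq_eq_zero.ne]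
  rw [← Complex.normSq_eq_norm_sq, ← Complex.normSq_eq_norm_sq, hp, Complex.div_im]
  simp only [Complex.mul_im, Complex.mul_re, Complex.I_re, Complex.I_im, Complex.add_re,
    Complex.add_im, Complex.one_re, Complex.one_im, Complex.sub_re, Complex.sub_im]
  rw [Complex.normSq_apply u]
  field_simp
  ring

lemma hp_im {u : ℂ} (hu : ‖u‖ < 1) : 0 < (hp u).im := by
  rw [hp_im_eq hu]
  have h := norm_pos_iff.2 (one_sub_ne hu)
  have h1 : ‖u‖ ^ 2 < 1 := by nlinarith [norm_nonneg u]
  have : 0 < 1 - ‖u‖ ^ 2 := by linarith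
  positivity

lemma one_sub_sq {u : ℂ} (hu : ‖u‖ < 1) :
    1 - ‖u‖ ^ 2 = 4 * (hp u).im / ‖hp u + Complex.I‖ ^ 2 := by
  have h := norm_pos_iff.2 (one_sub_ne hu)
  rw [hp_im_eq hu, hp_add hu, norm_div, norm_mul, Complex.norm_I, mul_one, Complex.norm_two]
  field_simp
  ring

lemma hp_add_ne {u : ℂ} (hu : ‖u‖ < 1) : hp u + Complex.I ≠ 0 := by
  rw [hp_add hu]
  exact div_ne_zero (mul_ne_zero two_ne_zero Complex.I_ne_zero) (one_sub_ne hu)

lemma inv_int (μ : Measure ℝ) [IsProbabilityMeasure μ] {X : ℝ → ℂ} (hX : Measurable X)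
    (hXi : ∀ a, (X a).im ≤ 0) {Y : ℂ} (hY : 0 < Y.im) :
    Integrable (fun a => 1 / (X a - Y)) μ := by
  refine Integrable.of_bound (C := 1 / Y.im)
    ((measurable_const.div (hX.sub_const Y)).aestronglyMeasurable)
    (Eventually.of_forall fun a => ?_)
  rw [norm_div, norm_one]
  apply one_div_le_one_div_of_le hY
  have h1 := Complex.abs_im_le_norm (X a - Y)
  have h2 : Y.im ≤ |(X a - Y).im| := by
    rw [Complex.sub_im, abs_sub_comm]
    exact (by linarith [hXi a] : Y.im ≤ Y.im - (X a).im).trans (le_abs_self _)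
  linarith

/-- The relation between the transforms. -/
theorem rel (μ : Measure ℝ) [IsProbabilityMeasure μ] {X : ℝ → ℂ} (hX : Measurable X)
    (hXi : ∀ a, (X a).im ≤ 0) {u t : ℂ} (hu : ‖u‖ < 1) (ht : ‖t‖ < 1)
    (h : Us μ (fun a => (X a + Complex.I) / (X a - Complex.I)) u = t) :
    (∫ a, 1 / (X a - hp u) ∂μ) * (hp u + hp t) = -1 := by
  set w : ℝ → ℂ := fun a => (X a + Complex.I) / (X a - Complex.I) with hw
  set Y := hp u with hYd
  set T := hp t with hTd
  have hY := hp_im hu
  have hXI : ∀ a, X a - Complex.I ≠ 0 := by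
    intro a h0
    have h1 := congrArg Complex.im h0
    simp at h1
    linarith [hXi a]
  have hXY : ∀ a, X a - Y ≠ 0 := by
    intro a h0
    have h1 := congrArg Complex.im h0
    simp at h1
    linarith [hXi a]
  have hw1 : ∀ a, ‖w a‖ ≤ 1 := by
    intro a
    rw [hw]
    simp only
    rw [norm_div, div_le_one (norm_pos_iff.2 (hXI a))]
    rw [← sq_le_sq₀ (norm_nonneg _) (norm_nonneg _), ← Complex.normSq_eq_norm_sq,
      ← Complex.normSq_eq_norm_sq, Complex.normSq_apply, Complex.normSq_apply]
    simp only [Complex.add_re, Complex.I_re, Complex.add_im, Complex.I_im, Complex.sub_re,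
      Complex.sub_im]
    nlinarith [hXi a]
  have hwm : Measurable w := by
    rw [hw]
    exact (hX.add_const _).div (hX.sub_const _)
  obtain ⟨-, hne, -, -, -⟩ := Al.sc1 μ w 1 u hwm zero_le_one le_rfl
    (Eventually.of_forall hw1) hu.le (by rwa [one_mul])
  set B := Bs μ w u with hB
  have h1u := one_sub_ne hu
  have hden : ∀ a, 1 - w a * u ≠ 0 := by
    intro a h0
    have h1 : w a * u = 1 := (sub_eq_zero.1 h0).symm
    have h2 := congrArg norm h1
    rw [norm_mul, norm_one] at h2
    nlinarith [hw1 a, norm_nonneg u, norm_nonneg (w a)]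
  -- pointwise identity
  have hpt : ∀ a, w a / (1 - w a * u) = (Y + Complex.I) / (2 * Complex.I)
      * (1 + (Y + Complex.I) * (1 / (X a - Y))) := by
    intro a
    have e1 : Y + Complex.I = 2 * Complex.I / (1 - u) := hp_add hu
    have e2 : X a - Y = (X a * (1 - u) - Complex.I * (1 + u)) / (1 - u) := by
      rw [hYd, hp]
      field_simp
    have h3 : X a * (1 - u) - Complex.I * (1 + u) ≠ 0 := by
      intro h0
      apply hXY a
      rw [e2, h0, zero_div]
    have h4 : 1 - w a * u = (X a * (1 - u) - Complex.I * (1 + u)) / (X a - Complex.I) := by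
      rw [hw]
      have := hXI a
      field_simp
      ring
    have h5 : w a = (X a + Complex.I) / (X a - Complex.I) := rfl
    rw [h4, h5, e1, e2]
    have := hXI a
    have hI := Complex.I_ne_zero
    field_simp
    ring
  have hGi := inv_int μ hX hXi hY
  set G := ∫ a, 1 / (X a - Y) ∂μ with hG
  have hBG : B = (Y + Complex.I) / (2 * Complex.I) * (1 + (Y + Complex.I) * G) := by
    rw [hB, Bs]
    simp only [hpt]
    rw [integral_const_mul, integral_add (integrable_const _) (hGi.const_mul _),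
      integral_const_mul]
    simp only [integral_const, probReal_univ, one_smul]
    rw [hG]
  have ht1 : t = B / (1 + u * B) := by rw [← h]; rfl
  have ht2 : B * (1 - t * u) = t := by
    rw [eq_div_iff hne] at ht1
    linear_combination -ht1
  have hu3 : u * (Y + Complex.I) = Y - Complex.I := hp_mul hu
  have ht3 : t * (T + Complex.I) = T - Complex.I := hp_mul ht
  have hYI : Y + Complex.I ≠ 0 := hp_add_ne hu
  have e3 : B * (2 * Complex.I) = (Y + Complex.I) * (1 + (Y + Complex.I) * G) := by
    rw [hBG]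
    have hI := Complex.I_ne_zero
    field_simp
  have e4 : B * ((Y + Complex.I) * (T + Complex.I) - (T - Complex.I) * (Y - Complex.I))
      = (T - Complex.I) * (Y + Complex.I) := by
    rw [← hu3, ← ht3]
    linear_combination (Y + Complex.I) * (T + Complex.I) * ht2
  have e5 : (Y + Complex.I) * (T + Complex.I) - (T - Complex.I) * (Y - Complex.I)
      = 2 * Complex.I * (Y + T) := by ring
  rw [e5] at e4
  have e6 : (Y + Complex.I) * ((1 + (Y + Complex.I) * G) * (Y + T))
      = (Y + Complex.I) * (T - Complex.I) := by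
    calc (Y + Complex.I) * ((1 + (Y + Complex.I) * G) * (Y + T))
        = (B * (2 * Complex.I)) * (Y + T) := by rw [e3]; ring
      _ = B * (2 * Complex.I * (Y + T)) := by ring
      _ = _ := by rw [e4]; ring
  have e7 := mul_left_cancel₀ hYI e6
  have e8 : (Y + Complex.I) * (G * (Y + T)) = (Y + Complex.I) * (-1) := by
    linear_combination e7
  exact mul_left_cancel₀ hYI e8

end

end Pool.Agent.K3h29.LH.Rel
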