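import Pool.Agent.W792.WA.All2

/-!
Constant symbols: the effective phase is given by a one site average.
-/

set_option autoImplicit false

namespace Pool.Agent.K3h29.LH.Scal

open MeasureTheory Filter
open scoped Topology
open Pool.Agent.W792.LL Pool.Agent.W792.WA

noncomputable section

variable {d : ℕ}

/-- A constant symbol. -/
def cst (d : ℕ) (a : ℂ) : C(UnitAddTorus (Fin d), ℂ) := ContinuousMap.const _ a

lemma cst_apply (a : ℂ) (k : UnitAddTorus (Fin d)) : cst d a k = a := rfl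

lemma cst_eq (a : ℂ) : cst d a = a • (1 : C(UnitAddTorus (Fin d), ℂ)) := by
  ext k
  change a = a * 1
  rw [mul_one]

lemma cst_norm (a : ℂ) : ‖cst d a‖ = ‖a‖ := by
  apply le_antisymm
  · rw [ContinuousMap.norm_le _ (norm_nonneg _)]
    intro k
    exact le_rfl
  · exact (cst d a).norm_coe_le_norm 0

lemma opr_cst (a : ℂ) : opr (cst d a) = a • (1 : l2 (Fin d → ℤ) →L[ℂ] l2 (Fin d → ℤ)) := by
  have h := Al.opr d (1 : C(UnitAddTorus (Fin d), ℂ)) 1
  rw [cst_eq, h.2.2.2.2.1 a, h.2.2.2.2.2.1]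

lemma opr_sub (a b : C(UnitAddTorus (Fin d), ℂ)) : opr (a - b) = opr a - opr b := by
  have h := (Al.opr d (a - b) b).2.2.2.1
  rw [sub_add_cancel] at h
  rw [h, add_sub_cancel_right]

lemma opr_inj {a b : C(UnitAddTorus (Fin d), ℂ)} (h : opr a = opr b) : a = b := by
  have h1 := (Al.symb d).2.1 (a - b)
  rw [opr_sub, h, sub_self, norm_zero] at h1
  exact sub_eq_zero.1 (norm_eq_zero.1 h1.symm)

lemma cay_norm (v : ℝ) : ‖cay v‖ = 1 := Al.cay.1 v

lemma dc_apply (v : (Fin d → ℤ) → ℝ) (u : l2 (Fin d → ℤ)) (x : Fin d → ℤ) :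
    (dc v u) x = cay (v x) * u x :=
  (Al.dia (Fin d → ℤ) (fun x => cay (v x)) (fun x => (cay_norm _).le)).1 u x

lemma den_ne {U : ℂ} (hU : ‖U‖ < 1) (v : ℝ) : 1 - U * cay v ≠ 0 := by
  intro h
  have h1 : U * cay v = 1 := (sub_eq_zero.1 h).symm
  have h2 := congrArg norm h1
  rw [norm_mul, cay_norm, mul_one, norm_one] at h2
  linarith

set_option linter.unusedVariables false in
theorem csym_cst (ν : Measure ℝ) [IsProbabilityMeasure ν] {U : ℂ} (hU : ‖U‖ < 1) :
    csym ν (cst d U) = cst d (∫ t, cay t / (1 - U * cay t) ∂ν) := by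
  have hm : ‖cst d U‖ < 1 := by rwa [cst_norm]
  obtain ⟨h1, h2, -⟩ := Al.csym ν d (cst d U) hm
  apply opr_inj
  ext u x
  rw [← (h2 u x).2.2.1, opr_cst]
  have h3 : ∀ v : (Fin d → ℤ) → ℝ, (dc v (rsv (cst d U) v u)) x
      = (fun t : ℝ => cay t / (1 - U * cay t) * u x) (v x) := by
    intro v
    have h4 := (h1 v).2.1
    have h5 : ((1 - opr (cst d U) * dc v) * rsv (cst d U) v) u = u := by rw [h4]; rfl
    have h6 : (rsv (cst d U) v u) - U • (dc v (rsv (cst d U) v u)) = u := by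
      have h7 : ((1 - opr (cst d U) * dc v) * rsv (cst d U) v) u
          = (rsv (cst d U) v u) - U • (dc v (rsv (cst d U) v u)) := by
        rw [opr_cst]
        rfl
      rw [← h7, h5]
    have h8 : (rsv (cst d U) v u) x - U * (cay (v x) * (rsv (cst d U) v u) x) = u x := by
      rw [← dc_apply]
      exact congrArg (fun w : l2 (Fin d → ℤ) => w x) h6
    have h9 := den_ne hU (v x)
    rw [dc_apply]
    have h10 : (rsv (cst d U) v u) x = u x / (1 - U * cay (v x)) := by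
      rw [eq_div_iff h9]
      linear_combination h8
    simp only
    rw [h10]
    ring
  simp only [h3]
  have hmp := measurePreserving_eval_infinitePi (fun _ : Fin d → ℤ => ν) x
  have hmeas : Measurable fun t : ℝ => cay t / (1 - U * cay t) * u x := by
    have := Al.cay.2.1.measurable
    fun_prop
  have h4 : ∫ v, (fun t : ℝ => cay t / (1 - U * cay t) * u x) (v x) ∂(Pn ν (Fin d → ℤ))
      = ∫ t, cay t / (1 - U * cay t) * u x ∂ν := by
    have h5 := integral_map (μ := Pn ν (Fin d → ℤ)) (φ := fun v : (Fin d → ℤ) → ℝ => v x)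
      (f := fun t : ℝ => cay t / (1 - U * cay t) * u x) (measurable_pi_apply x).aemeasurable
      hmeas.aestronglyMeasurable
    have h6 : Measure.map (fun v : (Fin d → ℤ) → ℝ => v x) (Pn ν (Fin d → ℤ)) = ν := hmp.map_eq
    rw [h6] at h5
    exact h5.symm
  rw [h4, integral_mul_const]
  rfl

lemma toC_const (a : ℂ) : toC (fun _ : UnitAddTorus (Fin d) => a) = cst d a := by
  unfold toC
  rw [dif_pos continuous_const]
  rfl

theorem psi_cst (ν : Measure ℝ) [IsProbabilityMeasure ν] {U : ℂ} (hU : ‖U‖ < 1) :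
    psi ν (cst d U) = cst d (Us ν cay U) := by
  have h : (∫ t, cay t / (1 - U * cay t) ∂ν) = Bs ν cay U := by
    unfold Bs
    refine integral_congr_ae (Eventually.of_forall fun t => ?_)
    simp only
    rw [mul_comm U]
  unfold psi
  rw [csym_cst ν hU, h]
  change toC (fun _ : UnitAddTorus (Fin d) => Us ν cay U) = _
  exact toC_const _

theorem UU_cst (ρ : Measure ℝ) (x s : ℂ) :
    UU ρ (fun _ : UnitAddTorus (Fin d) => cayx x) (cst d s) = cst d (Us ρ (cayx x) s) := by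
  change toC (fun _ : UnitAddTorus (Fin d) => Us ρ (cayx x) s) = _
  exact toC_const _

/-- The constant kinetic energy. -/
def cK (d : ℕ) (b : ℝ) : C(UnitAddTorus (Fin d), ℝ) := ContinuousMap.const _ b

lemma wz_cK (b : ℝ) (z : ℂ) :
    wz (cK d b) z = fun _ : UnitAddTorus (Fin d) => cayx ((b : ℂ) - z) := rfl

/-- The scalar solution. -/
theorem exists_scal (ν : Measure ℝ) [IsProbabilityMeasure ν] (hv : 0 < vr ν) (ρ : Measure ℝ)
    [IsProbabilityMeasure ρ] {C : ℝ} (hρ : ρ (Set.Icc (-C) C)ᶜ = 0) (b : ℝ) {z : ℂ}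
    (hz : 0 < z.im) : ∃ t : ℂ, ‖t‖ < 1 ∧ ‖Us ρ (cayx ((b : ℂ) - z)) t‖ < 1 ∧
      Us ν cay (Us ρ (cayx ((b : ℂ) - z)) t) = t ∧
      IsFix ν ρ (wz (cK d b) z) (cst d t) := by
  have hx : ((b : ℂ) - z).im ≤ -z.im := by simp
  obtain ⟨q, hq0, hq1, hq2⟩ := Al.cx.2.2.1 C ‖(b : ℂ) - z‖ z.im hz
  have hq3 : ∀ k : UnitAddTorus (Fin d), ∀ a ∈ Set.Icc (-C) C, ‖wz (cK d b) z k a‖ ≤ q := by
    intro k a ha
    exact hq2 _ a le_rfl hx (abs_le.2 ha)
  have hwc : Continuous (Function.uncurry (wz (cK d b) z)) := Al.cx.2.2.2 d _ z hz.le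
  obtain ⟨⟨s, hs, -⟩, hs2, hs3⟩ := Al.fix ν d ρ C q (wz (cK d b) z) hv hρ hwc hq0 hq1 hq3
  -- the solution is constant
  have huu : ∀ s : C(UnitAddTorus (Fin d), ℂ), ‖s‖ ≤ 1 → ‖UU ρ (wz (cK d b) z) s‖ ≤ q := by
    intro s hs1
    refine (Al.uuc d ρ C q (wz (cK d b) z) s hρ hwc hq0 hq1.le hq3 hs1 ?_).2
    nlinarith [norm_nonneg s]
  have hZ := hs3 {s | (∀ k, s k = s 0) ∧ ‖s‖ ≤ 1} ?_ ⟨0, fun k => rfl, by simp⟩
    (fun s hs => hs.2) ?_ s hs
  · obtain ⟨h1, h2⟩ := hZ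
    have e : s = cst d (s 0) := by
      ext k
      exact h1 k
    rw [e] at hs
    have h3 := hs2 (cst d (s 0)) hs 0
    rw [cst_apply] at h3
    have h4 := huu (cst d (s 0)) hs.1
    rw [wz_cK, UU_cst, cst_norm] at h4
    refine ⟨s 0, ?_, lt_of_le_of_lt h4 hq1, ?_, hs⟩
    · have h5 : 0 < (1 - q ^ 2) * vr ν / 4 := by
        have : q ^ 2 < 1 := by nlinarith
        have : 0 < 1 - q ^ 2 := by linarith
        positivity
      nlinarith [norm_nonneg (s 0)]
    · have h5 := hs.2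
      rw [wz_cK, UU_cst, psi_cst ν (lt_of_le_of_lt h4 hq1)] at h5
      exact congrArg (fun f : C(UnitAddTorus (Fin d), ℂ) => f 0) h5
  · have e : {s : C(UnitAddTorus (Fin d), ℂ) | (∀ k, s k = s 0) ∧ ‖s‖ ≤ 1}
        = (⋂ k, {s | s k = s 0}) ∩ {s | ‖s‖ ≤ 1} := by
      ext s
      simp
    rw [e]
    refine IsClosed.inter (isClosed_iInter fun k => isClosed_eq ?_ ?_)
      (isClosed_le continuous_norm continuous_const)
    · exact continuous_eval_const k
    · exact continuous_eval_const 0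
  · rintro s ⟨h1, h2⟩
    have e : s = cst d (s 0) := by
      ext k
      exact h1 k
    have h4 := huu s h2
    rw [e] at h4 ⊢
    rw [wz_cK, UU_cst] at h4 ⊢
    rw [cst_norm] at h4
    rw [psi_cst ν (lt_of_le_of_lt h4 hq1)]
    refine ⟨fun k => rfl, ?_⟩
    have h5 := ((Al.psi ν d q (cst d (Us ρ (cayx ((b : ℂ) - z)) (s 0)))
      (cst d (Us ρ (cayx ((b : ℂ) - z)) (s 0))) hq0 hq1 (by rwa [cst_norm])
      (by rwa [cst_norm])).1 0).2.2.1
    rw [psi_cst ν (lt_of_le_of_lt h4 hq1), cst_apply] at h5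
    rwa [cst_norm]

end

end Pool.Agent.K3h29.LH.Scal
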