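import Pool.Agent.K3h29.LH.Rel
import Pool.Agent.K3h29.LH.Step

/-!
The gap of the scalar effective medium.
-/

set_option autoImplicit false

namespace Pool.Agent.K3h29.LH.ScalGap

open MeasureTheory Filter Set
open scoped Topology
open Pool.Agent.W792.LL Pool.Agent.W792.WA Pool.Agent.K3h29.LH.Rel Pool.Agent.K3h29.LH

noncomputable section

lemma im_inv (v : ℝ) (Y : ℂ) :
    (1 / ((v : ℂ) - Y)).im = Y.im / ((v - Y.re) ^ 2 + Y.im ^ 2) := by
  rw [one_div, Complex.inv_im, Complex.normSq_apply]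
  simp only [Complex.sub_im, Complex.ofReal_im, Complex.sub_re, Complex.ofReal_re]
  congr 1
  · ring
  · ring

/-- Lower bound of the imaginary part. -/
theorem poisson {A B κ δ : ℝ} (hκ : 0 < κ) (hδ : 0 < δ) (hδ1 : δ ≤ 1) (ν : Measure ℝ)
    [IsProbabilityMeasure ν] (hν : ENNReal.ofReal κ • volume.restrict (Icc A B) ≤ ν) {Y : ℂ}
    (h1 : A + δ ≤ Y.re) (h2 : Y.re ≤ B - δ) (h3 : 0 < Y.im) (h4 : Y.im ≤ 2) :
    κ * δ / 2 ≤ (∫ v : ℝ, 1 / ((v : ℂ) - Y) ∂ν).im := by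
  have hXm : Measurable fun v : ℝ => (v : ℂ) := Complex.measurable_ofReal
  have hint : Integrable (fun v : ℝ => 1 / ((v : ℂ) - Y)) ν :=
    inv_int ν hXm (fun a => by simp) h3
  set f : ℝ → ℝ := fun v => Y.im / ((v - Y.re) ^ 2 + Y.im ^ 2) with hf
  have e1 : (∫ v : ℝ, 1 / ((v : ℂ) - Y) ∂ν).im = ∫ v, f v ∂ν := by
    have h5 : (∫ v : ℝ, 1 / ((v : ℂ) - Y) ∂ν).im = ∫ v : ℝ, (1 / ((v : ℂ) - Y)).im ∂ν :=
      (integral_im hint).symm
    rw [h5]
    refine integral_congr_ae (Eventually.of_forall fun v => ?_)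
    exact im_inv v Y
  have hfi : Integrable f ν := by
    have h5 : Integrable (fun v : ℝ => (1 / ((v : ℂ) - Y)).im) ν := hint.im
    refine h5.congr (Eventually.of_forall fun v => ?_)
    exact im_inv v Y
  have hf0 : ∀ v, 0 ≤ f v := fun v => by
    rw [hf]
    positivity
  rw [e1]
  have h5 : ∫ v, f v ∂(ENNReal.ofReal κ • volume.restrict (Icc A B)) ≤ ∫ v, f v ∂ν :=
    integral_mono_measure hν (Eventually.of_forall hf0) hfi
  refine le_trans ?_ h5
  rw [integral_smul_measure, ENNReal.toReal_ofReal hκ.le, smul_eq_mul]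
  set h := min Y.im δ with hh
  have hh0 : 0 < h := lt_min h3 hδ
  have hsub : Icc (Y.re - h) (Y.re + h) ⊆ Icc A B := by
    have := min_le_right Y.im δ
    intro v hv
    exact ⟨by linarith [hv.1], by linarith [hv.2]⟩
  have hfc : Continuous f := by
    rw [hf]
    refine continuous_const.div (by fun_prop) (fun v => ?_)
    positivity
  have h6 : ∫ v in Icc (Y.re - h) (Y.re + h), f v ≤ ∫ v in Icc A B, f v :=
    setIntegral_mono_set (hfc.continuousOn.integrableOn_compact isCompact_Icc)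
      (Eventually.of_forall hf0) hsub.eventuallyLE
  have h7 : ∫ _v in Icc (Y.re - h) (Y.re + h), Y.im / (h ^ 2 + Y.im ^ 2)
      ≤ ∫ v in Icc (Y.re - h) (Y.re + h), f v := by
    refine setIntegral_mono_on (integrableOn_const (by simp)) (hfc.continuousOn.integrableOn_compact
      isCompact_Icc) measurableSet_Icc ?_
    intro v hv
    rw [hf]
    refine div_le_div_of_nonneg_left h3.le (by positivity) ?_
    have h8 : |v - Y.re| ≤ h := abs_le.2 ⟨by linarith [hv.1], by linarith [hv.2]⟩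
    have h9 : (v - Y.re) ^ 2 ≤ h ^ 2 := by
      rw [← sq_abs (v - Y.re)]
      exact pow_le_pow_left₀ (abs_nonneg _) h8 2
    linarith
  have h8 : ∫ _v in Icc (Y.re - h) (Y.re + h), Y.im / (h ^ 2 + Y.im ^ 2)
      = 2 * h * (Y.im / (h ^ 2 + Y.im ^ 2)) := by
    rw [setIntegral_const, smul_eq_mul, Measure.real, Real.volume_Icc,
      ENNReal.toReal_ofReal (by linarith)]
    ring
  rw [h8] at h7
  have h9 : δ / 2 ≤ 2 * h * (Y.im / (h ^ 2 + Y.im ^ 2)) := by
    rw [← mul_div_assoc, div_le_div_iff₀ (by norm_num) (by positivity)]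
    rcases min_choice Y.im δ with h10 | h10
    · rw [← hh] at h10
      rw [h10]
      nlinarith [mul_pos h3 h3]
    · rw [← hh] at h10
      rw [h10]
      have h11 : δ ≤ Y.im := by rw [← h10]; exact min_le_left _ _
      nlinarith [mul_pos hδ h3, mul_nonneg hδ.le (sub_nonneg.2 h11),
        mul_nonneg (mul_nonneg hδ.le h3.le) (sub_nonneg.2 h4)]
  calc κ * δ / 2 = κ * (δ / 2) := by ring
    _ ≤ κ * ∫ v in Icc A B, f v := mul_le_mul_of_nonneg_left (h9.trans (h7.trans h6)) hκ.le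

/-- The transform of one level. -/
def gl (ψ : C(UnitAddCircle, ℝ)) (r : ℝ) (ω : ℂ) (a : ℝ) : ℂ :=
  ∫ φ in Set.Ioc (0 : ℝ) 1, 1 / (((r * ψ (φ : UnitAddCircle) + a : ℝ) : ℂ) - ω)

lemma gl_GP {ψ : C(UnitAddCircle, ℝ)} (hψ : IsSemi ψ) {r : ℝ} (hr : 0 < r) {ω : ℂ}
    (hω : 0 < ω.im) {a : ℝ} (ha : |a| ≤ r / 48) : Hp.GP r ω a (gl ψ r ω a) := by
  have hr' : (r : ℂ) ≠ 0 := by exact_mod_cast hr.ne'
  set w : ℂ := ((a : ℂ) - ω) / r with hw
  have hwi : w.im < 0 := by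
    have e : w = (((1 / r : ℝ)) : ℂ) * ((a : ℂ) - ω) := by
      rw [hw]
      push_cast
      field_simp
    rw [e, Complex.im_ofReal_mul]
    simp only [Complex.sub_im, Complex.ofReal_im, zero_sub]
    have : 0 < 1 / r * ω.im := by positivity
    linarith
  obtain ⟨h1, h2⟩ := hψ.eqn w hwi
  set h := ∫ φ in Set.Ioc (0 : ℝ) 1, 1 / (w + (ψ (φ : UnitAddCircle) : ℂ)) with hh
  have e : gl ψ r ω a = (1 / r : ℂ) * h := by
    rw [hh, ← integral_const_mul, gl]
    refine integral_congr_ae (Eventually.of_forall fun φ => ?_)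
    simp only
    have e1 : ((r * ψ (φ : UnitAddCircle) + a : ℝ) : ℂ) - ω
        = r * (w + (ψ (φ : UnitAddCircle) : ℂ)) := by
      rw [hw]
      push_cast
      field_simp
      ring
    rw [e1, one_div_mul_one_div]
  have e2 : h = r * gl ψ r ω a := by
    rw [e]
    field_simp
  refine ⟨?_, ?_, ?_, ha⟩
  · rw [e2] at h2
    have e3 : w * (r * gl ψ r ω a) = ((a : ℂ) - ω) * gl ψ r ω a := by
      rw [hw]
      field_simp
    linear_combination h2 + e3
  · rw [e, norm_mul, norm_div, norm_one, Complex.norm_real, Real.norm_eq_abs, abs_of_pos hr]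
    calc 1 / r * ‖h‖ ≤ 1 / r * 2 := mul_le_mul_of_nonneg_left h1 (by positivity)
      _ = 2 / r := by ring
  · unfold gl
    have hint : Integrable (fun φ : ℝ => 1 / (((r * ψ (φ : UnitAddCircle) + a : ℝ) : ℂ) - ω))
        (volume.restrict (Set.Ioc (0 : ℝ) 1)) := by
      have : IsProbabilityMeasure (volume.restrict (Set.Ioc (0 : ℝ) 1)) := ⟨by simp⟩
      have hm : Measurable fun φ : ℝ => ((r * ψ (φ : UnitAddCircle) + a : ℝ) : ℂ) := by
        have hc : Continuous fun φ : ℝ => ((r * ψ (φ : UnitAddCircle) + a : ℝ) : ℂ) := by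
          have h3 : Continuous fun φ : ℝ => (φ : UnitAddCircle) := AddCircle.continuous_mk' (1 : ℝ)
          have h4 : Continuous fun φ : ℝ => ψ (φ : UnitAddCircle) := ψ.continuous.comp h3
          exact Complex.continuous_ofReal.comp ((continuous_const.mul h4).add continuous_const)
        exact hc.measurable
      exact inv_int _ hm (fun φ => by rw [Complex.ofReal_im]) hω
    have h3 : (∫ φ in Set.Ioc (0 : ℝ) 1, 1 / (((r * ψ (φ : UnitAddCircle) + a : ℝ) : ℂ) - ω)).im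
        = ∫ φ in Set.Ioc (0 : ℝ) 1, (1 / (((r * ψ (φ : UnitAddCircle) + a : ℝ) : ℂ) - ω)).im :=
      (integral_im hint).symm
    rw [h3]
    refine integral_nonneg fun φ => ?_
    simp only
    rw [im_inv]
    positivity

lemma conv_gl (ψ : C(UnitAddCircle, ℝ)) (r : ℝ) {ω : ℂ} (hω : 0 < ω.im) (ρ : Measure ℝ)
    [IsProbabilityMeasure ρ] :
    Integrable (gl ψ r ω) ρ ∧
    ∫ a : ℝ, 1 / ((a : ℂ) - ω) ∂((lev ψ r).conv ρ) = ∫ a, gl ψ r ω a ∂ρ := by
  have hp : IsProbabilityMeasure (lev ψ r) := Pool.Agent.K3h29.LH.Step.prob_lev ψ r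
  have hm0 : Measurable fun φ : ℝ => r * ψ (φ : UnitAddCircle) :=
    Pool.Agent.K3h29.LH.Step.meas_lev ψ r
  have hcf : Continuous fun a : ℝ => 1 / ((a : ℂ) - ω) := by
    refine continuous_const.div (by fun_prop) (fun a h => ?_)
    have h1 := congrArg Complex.im h
    simp at h1
    linarith
  have hbd : ∀ a : ℝ, ‖1 / ((a : ℂ) - ω)‖ ≤ 1 / ω.im := by
    intro a
    rw [norm_div, norm_one]
    apply one_div_le_one_div_of_le hω
    have h1 := Complex.abs_im_le_norm ((a : ℂ) - ω)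
    have h2 : |((a : ℂ) - ω).im| = ω.im := by
      simp [abs_of_pos hω]
    linarith
  have e1 : ∀ b : ℝ, ∫ a, 1 / (((b + a : ℝ) : ℂ) - ω) ∂(lev ψ r) = gl ψ r ω b := by
    intro b
    unfold lev gl
    rw [integral_map hm0.aemeasurable]
    · refine integral_congr_ae (Eventually.of_forall fun φ => ?_)
      simp only
      rw [add_comm b]
    · exact (hcf.comp (continuous_const.add continuous_id)).aestronglyMeasurable
  have hi : Integrable (fun a : ℝ => 1 / ((a : ℂ) - ω)) (ρ.conv (lev ψ r)) :=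
    Integrable.of_bound hcf.aestronglyMeasurable _ (Eventually.of_forall hbd)
  constructor
  · have h2 : StronglyMeasurable (Function.uncurry fun x y : ℝ => 1 / (((x + y : ℝ) : ℂ) - ω)) :=
      (hcf.comp (continuous_fst.add continuous_snd)).stronglyMeasurable
    have h3 := h2.integral_prod_right (ν := lev ψ r)
    refine Integrable.of_bound (C := 1 / ω.im) ?_ (Eventually.of_forall fun b => ?_)
    · refine (h3.aestronglyMeasurable (μ := ρ)).congr (Eventually.of_forall fun b => ?_)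
      exact e1 b
    · rw [← e1]
      have h4 := norm_integral_le_of_norm_le_const (μ := lev ψ r)
        (f := fun a : ℝ => 1 / (((b + a : ℝ) : ℂ) - ω)) (C := 1 / ω.im)
        (Eventually.of_forall fun a => hbd _)
      simpa using h4
  · rw [Measure.conv_comm, integral_conv hi]
    refine integral_congr_ae (Eventually.of_forall fun b => ?_)
    exact e1 b

/-- The constant of the gap. -/
def cg (κ δ r D v₀ : ℝ) : ℝ :=
  min (4 * (κ * δ / 2 * r ^ 2 / 8) / (2 / (κ * δ) + D + 2) ^ 2)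
    (κ * δ / 2 * r ^ 2 / 8 * v₀ / (D + 2) ^ 2)

lemma cg_pos {κ δ r D v₀ : ℝ} (hκ : 0 < κ) (hδ : 0 < δ) (hr : 0 < r) (hD : 0 ≤ D) (hv : 0 < v₀) :
    0 < cg κ δ r D v₀ := by
  unfold cg
  exact lt_min (by positivity) (by positivity)

/-- The gap of the scalar solution. -/
theorem scal {ψ : C(UnitAddCircle, ℝ)} (hψ : IsSemi ψ) {A B κ δ r D v₀ b : ℝ} (hr : 0 < r)
    (h12 : 12 * r ≤ δ) (hδ : 0 < δ) (hδ1 : δ ≤ 1) (hκ : 0 < κ) (ν : Measure ℝ)
    [IsProbabilityMeasure ν] (hν : ENNReal.ofReal κ • volume.restrict (Icc A B) ≤ ν)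
    (hv0 : 0 < v₀) (hv : v₀ ≤ vr ν) (ρ : Measure ℝ) [IsProbabilityMeasure ρ]
    (hρ : ρ (Set.Icc (-(r / 48)) (r / 48))ᶜ = 0) {z : ℂ} (hz0 : 0 < z.im) (hz1 : z.im ≤ 1)
    (hzA : A + 2 * δ ≤ z.re - b) (hzB : z.re - b ≤ B - 2 * δ) (hD : ‖(b : ℂ) - z‖ ≤ D) {t : ℂ}
    (ht : ‖t‖ < 1) (hU : ‖Us ((lev ψ r).conv ρ) (cayx ((b : ℂ) - z)) t‖ < 1)
    (hfix : Us ν cay (Us ((lev ψ r).conv ρ) (cayx ((b : ℂ) - z)) t) = t) :
    ‖t‖ ^ 2 ≤ 1 - cg κ δ r D v₀ := by
  have hprob : IsProbabilityMeasure (lev ψ r) := Pool.Agent.K3h29.LH.Step.prob_lev ψ r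
  set x : ℂ := (b : ℂ) - z with hx
  have hxi : x.im = -z.im := by rw [hx]; simp
  have hxr : x.re = b - z.re := by rw [hx]; simp
  set U := Us ((lev ψ r).conv ρ) (cayx x) t with hUd
  set Y := hp t with hY
  set Y₂ := hp U with hY₂
  have hYi := hp_im ht
  have hY₂i := hp_im hU
  rw [← hY] at hYi
  rw [← hY₂] at hY₂i
  -- the two relations
  have r1 : (∫ v : ℝ, 1 / ((v : ℂ) - Y₂) ∂ν) * (Y₂ + Y) = -1 :=
    rel ν (X := fun v : ℝ => (v : ℂ)) Complex.measurable_ofReal (fun a => by simp) hU ht hfix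
  have r2 : (∫ a : ℝ, 1 / ((x + a) - Y) ∂((lev ψ r).conv ρ)) * (Y + Y₂) = -1 := by
    refine rel ((lev ψ r).conv ρ) (X := fun a : ℝ => x + (a : ℂ))
      (measurable_const.add Complex.measurable_ofReal) (fun a => ?_) ht hU hUd.symm
    rw [Complex.add_im, Complex.ofReal_im, hxi]
    linarith
  set m := ∫ v : ℝ, 1 / ((v : ℂ) - Y₂) ∂ν with hm
  have hsum : Y₂ + Y ≠ 0 := by
    intro h0
    rw [h0, mul_zero] at r1
    norm_num at r1
  set ω : ℂ := Y - x with hω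
  have hωi : 0 < ω.im := by
    rw [hω, Complex.sub_im, hxi]
    linarith
  have r3 : (∫ a, gl ψ r ω a ∂ρ) = m := by
    rw [← (conv_gl ψ r hωi ρ).2]
    have e : (∫ a : ℝ, 1 / ((a : ℂ) - ω) ∂((lev ψ r).conv ρ))
        = ∫ a : ℝ, 1 / ((x + a) - Y) ∂((lev ψ r).conv ρ) := by
      refine integral_congr_ae (Eventually.of_forall fun a => ?_)
      simp only
      congr 1
      rw [hω]
      ring
    rw [e]
    apply mul_right_cancel₀ hsum
    rw [r1, add_comm Y₂ Y, r2]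
  have hae : ∀ᵐ a ∂ρ, |a| ≤ r / 48 := by
    rw [ae_iff]
    refine measure_mono_null ?_ hρ
    intro a ha ha2
    exact ha (abs_le.2 ha2)
  have hGP : ∀ᵐ a ∂ρ, Hp.GP r ω a (gl ψ r ω a) := hae.mono fun a ha => gl_GP hψ hr hωi ha
  have h3a := Hp.avg hr ρ (gl ψ r ω) (conv_gl ψ r hωi ρ).1 hGP
  rw [r3] at h3a
  have hmn : ‖m‖ ≤ 2 / r := by
    rw [← r3]
    have := norm_integral_le_of_norm_le_const (μ := ρ) (f := gl ψ r ω) (C := 2 / r)
      (hGP.mono fun a ha => ha.le)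
    simpa using this
  have hm0 : m ≠ 0 := by
    intro h0
    rw [h0, zero_mul] at r1
    norm_num at r1
  have hmp : 0 < ‖m‖ := norm_pos_iff.2 hm0
  -- location of `Y₂`
  have hloc : ‖Y₂ + x‖ ≤ 12 * r := by
    have e : 1 + ω * m = -(m * (Y₂ + x)) := by
      rw [hω]
      linear_combination r1
    rw [e, norm_neg, norm_mul] at h3a
    have h5 : ‖m‖ * ‖Y₂ + x‖ ≤ ‖m‖ * (12 * r) := by linarith
    exact le_of_mul_le_mul_left h5 hmp
  have hre : |(Y₂ + x).re| ≤ 12 * r := (Complex.abs_re_le_norm _).trans hloc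
  have him : |(Y₂ + x).im| ≤ 12 * r := (Complex.abs_im_le_norm _).trans hloc
  rw [Complex.add_re, hxr, abs_le] at hre
  rw [Complex.add_im, hxi, abs_le] at him
  have h3b : κ * δ / 2 ≤ m.im :=
    poisson hκ hδ hδ1 ν hν (by linarith [hre.1]) (by linarith [hre.2]) hY₂i (by linarith [him.2])
  set c₁ := κ * δ / 2 with hc₁
  have hc₁0 : 0 < c₁ := by positivity
  -- sum of imaginary parts
  have hsi : c₁ * r ^ 2 / 4 ≤ Y.im + Y₂.im := by
    have e : Y₂ + Y = -(1 / m) := by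
      field_simp
      linear_combination r1
    have e2 : (Y₂ + Y).im = m.im / ‖m‖ ^ 2 := by
      rw [e, one_div, Complex.neg_im, Complex.inv_im, Complex.normSq_eq_norm_sq]
      ring
    rw [Complex.add_im] at e2
    have h5 : c₁ * r ^ 2 / 4 ≤ m.im / ‖m‖ ^ 2 := by
      rw [le_div_iff₀ (by positivity)]
      have h6 : ‖m‖ ^ 2 ≤ (2 / r) ^ 2 := pow_le_pow_left₀ (norm_nonneg _) hmn 2
      calc c₁ * r ^ 2 / 4 * ‖m‖ ^ 2 ≤ c₁ * r ^ 2 / 4 * (2 / r) ^ 2 :=
            mul_le_mul_of_nonneg_left h6 (by positivity)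
        _ = c₁ := by
            field_simp
            norm_num
        _ ≤ _ := h3b
    linarith
  have hY₂n : ‖Y₂‖ ≤ D + 1 := by
    have h5 : ‖Y₂‖ ≤ ‖Y₂ + x‖ + ‖x‖ := by
      have := norm_sub_le (Y₂ + x) x
      rwa [add_sub_cancel_right] at this
    linarith
  have hYn : ‖Y‖ ≤ 1 / c₁ + D + 1 := by
    have e : Y = -(1 / m) - Y₂ := by
      field_simp
      linear_combination r1
    have h5 : ‖1 / m‖ ≤ 1 / c₁ := by
      rw [norm_div, norm_one]
      apply one_div_le_one_div_of_le hc₁0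
      exact h3b.trans ((le_abs_self _).trans (Complex.abs_im_le_norm _))
    rw [e]
    refine (norm_sub_le _ _).trans ?_
    rw [norm_neg]
    linarith
  have hD0 : 0 ≤ D := (norm_nonneg _).trans hD
  set y₀ := c₁ * r ^ 2 / 8 with hy₀
  have hy₀0 : 0 < y₀ := by positivity
  have hcg : cg κ δ r D v₀ = min (4 * y₀ / (2 / (κ * δ) + D + 2) ^ 2) (y₀ * v₀ / (D + 2) ^ 2) := by
    unfold cg
    rw [hy₀, hc₁]
  have hc2 : 2 / (κ * δ) = 1 / c₁ := by
    rw [hc₁]
    field_simp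
  rw [hcg, hc2]
  rcases le_total y₀ Y.im with hcase | hcase
  · have h5 := one_sub_sq ht
    rw [← hY] at h5
    have h6 : ‖Y + Complex.I‖ ≤ 1 / c₁ + D + 2 := by
      refine (norm_add_le _ _).trans ?_
      rw [Complex.norm_I]
      linarith
    have h7 : 0 < ‖Y + Complex.I‖ := norm_pos_iff.2 (hp_add_ne ht)
    have h8 : 4 * y₀ / (1 / c₁ + D + 2) ^ 2 ≤ 4 * Y.im / ‖Y + Complex.I‖ ^ 2 := by
      have h9 : ‖Y + Complex.I‖ ^ 2 ≤ (1 / c₁ + D + 2) ^ 2 :=
        pow_le_pow_left₀ (norm_nonneg _) h6 2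
      exact div_le_div₀ (by positivity) (by linarith) (by positivity) h9
    have h9 := min_le_left (4 * y₀ / (1 / c₁ + D + 2) ^ 2) (y₀ * v₀ / (D + 2) ^ 2)
    linarith
  · have hY₂y : y₀ ≤ Y₂.im := by
      have : c₁ * r ^ 2 / 4 = 2 * y₀ := by rw [hy₀]; ring
      linarith
    have h5 := one_sub_sq hU
    rw [← hY₂] at h5
    have h6 : ‖Y₂ + Complex.I‖ ≤ D + 2 := by
      refine (norm_add_le _ _).trans ?_
      rw [Complex.norm_I]
      linarith
    have h7 : 0 < ‖Y₂ + Complex.I‖ := norm_pos_iff.2 (hp_add_ne hU)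
    have h8 : 4 * y₀ / (D + 2) ^ 2 ≤ 4 * Y₂.im / ‖Y₂ + Complex.I‖ ^ 2 := by
      have h9 : ‖Y₂ + Complex.I‖ ^ 2 ≤ (D + 2) ^ 2 := pow_le_pow_left₀ (norm_nonneg _) h6 2
      exact div_le_div₀ (by positivity) (by linarith) (by positivity) h9
    have h9 := ((Al.psi ν 1 ‖U‖ (Scal.cst 1 U) (Scal.cst 1 U) (norm_nonneg _) hU
      (by rw [Scal.cst_norm]) (by rw [Scal.cst_norm])).1 0).2.2.2.2.2
    rw [Scal.psi_cst ν hU, hfix, Scal.cst_apply] at h9
    have h10 : 4 * y₀ / (D + 2) ^ 2 * v₀ / 4 ≤ (1 - ‖U‖ ^ 2) * vr ν / 4 := by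
      have h11 : 4 * y₀ / (D + 2) ^ 2 ≤ 1 - ‖U‖ ^ 2 := by rw [h5]; exact h8
      have h12 : 4 * y₀ / (D + 2) ^ 2 * v₀ ≤ (1 - ‖U‖ ^ 2) * vr ν :=
        mul_le_mul h11 hv hv0.le (le_trans (by positivity) h11)
      linarith
    have h11 : 4 * y₀ / (D + 2) ^ 2 * v₀ / 4 = y₀ * v₀ / (D + 2) ^ 2 := by ring
    have h12 := min_le_right (4 * y₀ / (1 / c₁ + D + 2) ^ 2) (y₀ * v₀ / (D + 2) ^ 2)
    linarith

end

end Pool.Agent.K3h29.LH.ScalGap
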