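import Pool.Agent.K3h29.LH.Pr
import Pool.Agent.K3h29.LH.Jstep
import Pool.Agent.K3h29.LH.Step2
import Pool.Agent.K3h29.LH.C1
import Pool.Agent.K3h29.LH.Avg
import Pool.Agent.W792.WA.All2

/-!
Weak disorder: the theorem for all kinetic energies, arbitrary phases.
-/

set_option autoImplicit false

namespace Pool.Agent.K3h29.LH.Weak

open MeasureTheory Filter Pool.Agent.W792.LL Pool.Agent.W792.WA Pool.Agent.W792.WA.Ch
  Pool.Agent.K3h29.LH Pool.Agent.K3h29.LH.Ch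
open scoped Topology

noncomputable section

/-- Sums of levels. -/
def IsSumP {d : ℕ} (P : Phs d) (ψ : C(UnitAddCircle, ℝ)) (S : ℝ) (g : C(Tor d, ℝ)) : Prop :=
  ∃ (l : ℕ → ℝ) (M : ℕ → ℕ), (∀ j, 0 ≤ l j) ∧ Summable l ∧ ∑' j, l j ≤ S ∧
    ∀ t, g t = ∑' j, l j * ψ (P (M j) t)

theorem IsSumP.bound {d : ℕ} {P : Phs d} {ψ : C(UnitAddCircle, ℝ)} (hψ : ∀ t, |ψ t| ≤ 1) {S : ℝ}
    {g : C(Tor d, ℝ)} (h : IsSumP P ψ S g) (t : Tor d) : |g t| ≤ S := by
  obtain ⟨l, M, h1, h2, h3, h4⟩ := h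
  have h5 : ∀ j, ‖l j * ψ (P (M j) t)‖ ≤ l j := by
    intro j
    rw [Real.norm_eq_abs, abs_mul, abs_of_nonneg (h1 j)]
    exact mul_le_of_le_one_right (h1 j) (hψ _)
  rw [h4, ← Real.norm_eq_abs]
  exact (tsum_of_norm_bounded h2.hasSum h5).trans h3

theorem exists_Pr (hF : S_FUT) (hJ0 : S_J0K) (hB : S_BASE4) {d : ℕ} (hd : 0 < d) {P : Phs d}
    (hJS : S_JSTEPP P)
    {K : C(Tor d, ℝ)} (hK0 : ∀ E : ℝ, 0 ≤ E → E ≤ 4 * d → ∃ k, K k = E)
    {ψ : C(UnitAddCircle, ℝ)} (hψ : IsSemi ψ) {r : ℝ} (hr : 0 < r) :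
    ∃ (D : Pr P K) (δ : ℕ → ℝ), D.l = (fun n => r * (1 / 16) ^ n) ∧
      D.T = (fun n => 2 * r * (1 / 16) ^ n) ∧ D.ψ = (fun _ => ψ) ∧ (∀ n, 0 < δ n) ∧
      D.En = En2 δ ∧ Tendsto δ atTop (𝓝 0) := by
  set l : ℕ → ℝ := fun n => r * (1 / 16) ^ n with hl
  set T : ℕ → ℝ := fun n => 2 * r * (1 / 16) ^ n with hT
  have hl0 : ∀ n, 0 < l n := fun n => by simp only [hl]; positivity
  have hsum : Summable l :=
    (summable_geometric_of_lt_one (by norm_num) (by norm_num)).mul_left r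
  obtain ⟨ρ, hρ1, hρ2, hρ3, hρ4⟩ := hF ψ hψ l hl0 hsum
  have htail : ∀ n, ∑' j, l (n + j) ≤ T n := by
    intro n
    have h1 : ∀ j, l (n + j) = (r * (1 / 16) ^ n) * (1 / 16) ^ j := by
      intro j; simp only [hl]; rw [pow_add]; ring
    simp only [h1]
    rw [tsum_mul_left, tsum_geometric_of_lt_one (by norm_num) (by norm_num)]
    have h2 : 0 < r * (1 / 16 : ℝ) ^ n := by positivity
    simp only [hT]
    have h3 : ((1 : ℝ) - 1 / 16)⁻¹ ≤ 2 := by norm_num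
    calc r * (1 / 16 : ℝ) ^ n * (1 - 1 / 16)⁻¹ ≤ r * (1 / 16 : ℝ) ^ n * 2 := by gcongr
      _ = 2 * r * (1 / 16) ^ n := by ring
  have hρ3' : ∀ n, ρ n (Set.Icc (-(T n)) (T n))ᶜ = 0 := by
    intro n
    refine measure_mono_null (Set.compl_subset_compl.2 ?_) (hρ3 n)
    have := htail n
    exact Set.Icc_subset_Icc (by linarith) this
  have hTp : ∀ n, 0 ≤ T n := fun n => by simp only [hT]; positivity
  have hTT : ∀ n, l n + T (n + 1) ≤ T n := by
    intro n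
    simp only [hT, hl]
    rw [pow_succ]
    have : 0 < r * (1 / 16 : ℝ) ^ n := by positivity
    linarith
  have hTle : ∀ n, T n ≤ T 0 := by
    intro n
    simp only [hT]
    have : (1 / 16 : ℝ) ^ n ≤ 1 := pow_le_one₀ (by norm_num) (by norm_num)
    rw [pow_zero]
    gcongr
  have hTt : Tendsto T atTop (𝓝 0) := by
    have h1 := (tendsto_pow_atTop_nhds_zero_of_lt_one (by norm_num : (0 : ℝ) ≤ 1 / 16)
      (by norm_num : (1 : ℝ) / 16 < 1)).const_mul (2 * r)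
    rw [mul_zero] at h1
    exact h1
  have hρ3'' : ∀ n, ρ n (Set.Icc (-(T 0)) (T 0))ᶜ = 0 := by
    intro n
    refine measure_mono_null (Set.compl_subset_compl.2 ?_) (hρ3' n)
    have := hTle n
    exact Set.Icc_subset_Icc (by linarith) this
  obtain ⟨J, hJ, hJ1⟩ := hJ0 ψ hψ r d K hr hd hK0
  have hJ2 : ∀ z ∈ Zs d, J ≤ jf (ρ 0) K z := by
    intro z hz
    have := hρ1 (0 + 1)
    have h0 : l 0 = r := by simp [hl]
    rw [hρ2 0, h0]
    refine hJ1 (ρ (0 + 1)) ?_ z hz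
    have h1 : T (0 + 1) = r / 8 := by simp only [hT]; ring
    have := hρ3' (0 + 1)
    rwa [h1] at this
  set B : ℝ := ‖K‖ + 4 * d + T 0 + 1 with hBdef
  have hB' := fun n : ℕ => hB ψ hψ (l n) (J / 2) (1 / ((n : ℝ) + 1)) B (T 0) (hl0 n)
    (by positivity) (by positivity)
  choose δ₂ c hδ₂ hc hB2 using hB'
  obtain ⟨δ, hδ0, -, hδa, hδle, hδt⟩ := exists_eta δ₂ hδ₂
  have hzB : ∀ z ∈ Zs d, ‖z‖ ≤ B := by
    intro z hz
    obtain ⟨h1, h2, h3, h4⟩ := hz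
    have hT0 := hTp 0
    have hK0 := norm_nonneg K
    refine (Complex.norm_le_abs_re_add_abs_im z).trans ?_
    rw [abs_of_nonneg h1, abs_of_pos h3]
    linarith
  refine ⟨{
    ψ := fun _ => ψ, l := l, ρ := ρ, T := T, En := En2 δ
    se := fun n => c n * δ (n + 1) ^ 3
    Q := fun n K' => ∀ z ∈ Zs d, J * (1 / 2 + 1 / 2 ^ (n + 1)) ≤ jf (ρ n) K' z
    hψ := fun _ => IsSemi.lv hψ
    hl := hl0
    hT := hTT
    hTp := hTp
    hTt := hTt
    hρ1 := hρ1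
    hρ2 := hρ2
    hρ3 := hρ3'
    hρ4 := hρ4
    hEv := fun n X hX => hX.2.1
    hEq := fun n X hX => hX.1
    hse := fun n => by
      have := hc n
      have := hδ0 (n + 1)
      positivity
    hQ0 := ?_
    hQs := ?_
    hent := ?_ }, δ, rfl, rfl, rfl, hδ0, rfl, hδt⟩
  · intro z hz
    have e : J * (1 / 2 + 1 / 2 ^ (0 + 1)) = J := by ring
    rw [e]
    exact hJ2 z hz
  · intro n K' hQ
    have i2 := hρ1 (n + 1 + 1)
    obtain ⟨M₂, hM₂⟩ := hJS ψ hψ K' (l n) (l (n + 1)) (T (n + 1 + 1))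
      (ρ (n + 1 + 1)) (hl0 n) (hl0 (n + 1)) (hρ3' _) (J / 2 ^ (n + 2)) (by positivity)
    refine ⟨M₂, fun M hM z hz => ?_⟩
    have hM2 := hM₂ M hM z hz
    rw [← hρ2 (n + 1), ← hρ2 n] at hM2
    have h4 := hQ z hz
    have h6 : J * (1 / 2 + 1 / 2 ^ (n + 1)) = J * (1 / 2 + 1 / 2 ^ (n + 1 + 1))
        + J / 2 ^ (n + 2) := by
      field_simp
      ring
    linarith
  · intro n K' hK' hQ X hX z hz s hs
    obtain ⟨-, -, δ', h1, h2, X', h3, h3', h4⟩ := hX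
    have h5 := hδ0 (n + 1)
    have i1 := hρ1 (n + 1)
    have hJn : J / 2 ≤ jf ((lev ψ (l n)).conv (ρ (n + 1))) K' z := by
      rw [← hρ2 n]
      refine le_trans ?_ (hQ z hz)
      have : 0 < J * (1 / 2 ^ (n + 1)) := by positivity
      linarith
    have hKB : ‖K'‖ ≤ B := by
      have hd' : (0 : ℝ) ≤ d := by positivity
      rw [hBdef]
      linarith
    have hs' := hs
    rw [hρ2 n] at hs'
    have h6 := (hB2 n X X' δ' d K' (ρ (n + 1)) z (by linarith) (h2.trans (hδle n)) h3 h3' h4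
      (hρ3'' (n + 1)) hKB (hzB z hz) hz.2.2.1 hJn s hs').2
    have h7 : c n * δ (n + 1) ^ 3 ≤ c n * δ' ^ 3 := by
      have := hc n
      gcongr
    linarith

theorem MestK_congr {d : ℕ} {K : C(Tor d, ℝ)} {ν ν' : Measure ℝ}
    [IsProbabilityMeasure ν] [IsProbabilityMeasure ν'] (h : ν = ν') (hG : MestK K ν) :
    MestK K ν' := by
  subst h
  exact hG

/-- STEP2 for averaging phases. -/
theorem step2p {d : ℕ} {P : Phs d} (hP : AV P) : S_STEP2P P :=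
  Step2.main Al.scl Al.gain Al.uuc Al.fix Al.stab Al.cx Al.psiw Al.zfw
    (Step.main Al.sc1 Al.scl Al.gain Al.psi Al.uuc Al.fix Al.stab Al.cx Al.uni
      (C1.main Al.symb Al.csym Al.psi Al.uuc Al.fix Al.holc Al.holf Al.vit1 Al.vit2 Al.small hP))

/-- Normalized form. -/
theorem kn {d : ℕ} (hd : 0 < d) {P : Phs d} (hP : AV P) (ψ : C(UnitAddCircle, ℝ))
    (hψ : IsSemi ψ) (K : C(Tor d, ℝ)) (ε : ℝ) (hε : 0 < ε)
    (hK0 : ∀ E : ℝ, 0 ≤ E → E ≤ 4 * d → ∃ k, K k = E) :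
    ∃ g : C(Tor d, ℝ), IsSumP P ψ ε g ∧
    ∀ (ν : Measure ℝ) [IsProbabilityMeasure ν], Integrable (fun x : ℝ => x ^ 60) ν →
    (∀ a : ℝ, ν {a} < 1) → ∃ lam₀ : ℝ, 0 < lam₀ ∧ ∀ lam : ℝ, 0 < lam → lam ≤ lam₀ →
      ∀ᵐ v ∂(Pn ν (Fin d → ℤ)), ACIK (K + g) lam v 0 (4 * d) := by
  obtain ⟨D, δ, hDl, hDT, hDψ, hδ0, hDE, hδt⟩ := exists_Pr Al.fut Al.j0k Al.base4 hd
    (Jstep.main hP) hK0 hψ (r := ε / 2) (by positivity)
  obtain ⟨M, g, -, hg1, hg2⟩ := D.exists_g Al.cx Al.uuc Al.scl Al.zf Al.cay Al.mzp Al.uni Al.uni2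
    (step2p hP) Al.netx2 (fun _ => 0)
  have hg : IsSumP P ψ ε g := by
    refine ⟨D.l, M, fun j => (D.hl j).le, ?_, ?_, fun t => ?_⟩
    · rw [hDl]
      exact (summable_geometric_of_lt_one (by norm_num) (by norm_num)).mul_left _
    · rw [hDl, tsum_mul_left, tsum_geometric_of_lt_one (by norm_num) (by norm_num)]
      have h3 : ((1 : ℝ) - 1 / 16)⁻¹ ≤ 2 := by norm_num
      calc ε / 2 * (1 - 1 / 16 : ℝ)⁻¹ ≤ ε / 2 * 2 := by gcongr
        _ = ε := by ring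
    · rw [hg1, hDψ]
  refine ⟨g, hg, fun ν hν hνm hνd => ?_⟩
  obtain ⟨κ, lam₁, hκ, hlam₁, hlam₁', hV1⟩ := Al.mom ν hνm hνd
  obtain ⟨n₀, hn₀⟩ := exists_nat_one_div_lt hκ
  have hδn₀ := hδ0 n₀
  refine ⟨min lam₁ (δ n₀ ^ (3 / 2 : ℝ)), lt_min hlam₁ (by positivity), fun lam h0 h1 => ?_⟩
  have h2 : lam ≤ lam₁ := h1.trans (min_le_left _ _)
  have h3 : lam ^ (2 / 3 : ℝ) ≤ δ n₀ := by
    have h4 : lam ≤ δ n₀ ^ (3 / 2 : ℝ) := h1.trans (min_le_right _ _)
    calc lam ^ (2 / 3 : ℝ) ≤ (δ n₀ ^ (3 / 2 : ℝ)) ^ (2 / 3 : ℝ) :=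
          Real.rpow_le_rpow h0.le h4 (by norm_num)
      _ = δ n₀ := by
        rw [← Real.rpow_mul hδn₀.le]
        norm_num
  have hδ : 0 < lam ^ (2 / 3 : ℝ) := by positivity
  have hPr : IsProbabilityMeasure (ν.map fun x => lam * x) :=
    Measure.isProbabilityMeasure_map (by fun_prop)
  obtain ⟨X, hX1, hX2⟩ := Al.qnt2 (ν.map fun x => lam * x)
  obtain ⟨X', hX3, hX4, hX5⟩ := hV1 lam h0 h2 X hX2
  obtain ⟨j, hj1, hj2, hj3⟩ := find_class hδt hδ h3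
  have hvr : 0 < vr (qlaw X) := by
    rw [hX2]
    refine vr_pos Al.cay _ fun a => ?_
    rw [Measure.map_apply (by fun_prop) (measurableSet_singleton a)]
    have : (fun x => lam * x) ⁻¹' {a} = {a / lam} := by
      ext x
      simp only [Set.mem_preimage, Set.mem_singleton_iff]
      rw [eq_div_iff h0.ne', mul_comm]
    rw [this]
    exact hνd _
  have hXE : X ∈ D.En j := by
    rw [hDE]
    refine ⟨hX1, hvr, lam ^ (2 / 3 : ℝ), hj2, hj3, X', hX3, hX4, ?_⟩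
    refine le_trans ?_ hX5
    have h5 : 1 / ((j : ℝ) + 1) ≤ κ := by
      have h6 : (n₀ : ℝ) ≤ j := by exact_mod_cast hj1
      have h7 : 1 / ((j : ℝ) + 1) ≤ 1 / ((n₀ : ℝ) + 1) := by
        apply one_div_le_one_div_of_le (by positivity)
        linarith
      linarith
    gcongr
  exact Al.aeqk d ν lam (K + g) hd h0 (MestK_congr hX2 (hg2 j X hXE))

/-- All kinetic energies. -/
theorem kf {d : ℕ} (hd : 0 < d) {P : Phs d} (hP : AV P) (ψ : C(UnitAddCircle, ℝ))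
    (hψ : IsSemi ψ) (K : C(Tor d, ℝ)) (ε : ℝ) (hε : 0 < ε)
    (hlt : (⨅ k, K k) < (⨆ k, K k)) :
    ∃ g : C(Tor d, ℝ), IsSumP P ψ ε g ∧
    ∀ (ν : Measure ℝ) [IsProbabilityMeasure ν], Integrable (fun x : ℝ => x ^ 60) ν →
    (∀ a : ℝ, ν {a} < 1) → ∃ lam₀ : ℝ, 0 < lam₀ ∧ ∀ lam : ℝ, 0 < lam → lam ≤ lam₀ →
      ∀ᵐ v ∂(Pn ν (Fin d → ℤ)), ACIK (K + g) lam v (⨅ k, K k) (⨆ k, K k) := by
  set m : ℝ := ⨅ k, K k with hm
  set M : ℝ := ⨆ k, K k with hM
  have hcr : IsCompact (Set.range K) := isCompact_range K.continuous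
  have hne : (Set.range K).Nonempty := Set.range_nonempty _
  obtain ⟨k0, hk0⟩ : m ∈ Set.range K := hcr.sInf_mem hne
  obtain ⟨k1, hk1⟩ : M ∈ Set.range K := hcr.sSup_mem hne
  have hd' : (0 : ℝ) < 4 * d := by positivity
  have hMm : 0 < M - m := by linarith
  set α : ℝ := 4 * d / (M - m) with hα
  have hα0 : 0 < α := by positivity
  have hαM : α * (M - m) = 4 * d := by
    rw [hα]
    field_simp
  have hpc : PreconnectedSpace (UnitAddTorus (Fin d)) := by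
    unfold UnitAddTorus
    infer_instance
  have hsurj : ∀ E : ℝ, 0 ≤ E → E ≤ 4 * d →
      ∃ k, (α • (K - ContinuousMap.const _ m) : C(UnitAddTorus (Fin d), ℝ)) k = E := by
    intro E hE0 hE1
    have h1 : m ≤ m + E / α := by
      have : 0 ≤ E / α := by positivity
      linarith
    have h2 : m + E / α ≤ M := by
      have : E / α ≤ M - m := by
        rw [div_le_iff₀ hα0]
        linarith
      linarith
    obtain ⟨k, hk⟩ := mem_range_of_exists_le_of_exists_ge K.continuous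
      (c := m + E / α) ⟨k0, by rw [hk0]; exact h1⟩ ⟨k1, by rw [hk1]; exact h2⟩
    refine ⟨k, ?_⟩
    simp only [ContinuousMap.smul_apply, ContinuousMap.sub_apply, ContinuousMap.const_apply,
      smul_eq_mul]
    rw [hk]
    field_simp
    ring
  obtain ⟨g1, hg1, hmain⟩ := kn hd hP ψ hψ (α • (K - ContinuousMap.const _ m)) (ε * α)
    (by positivity) hsurj
  refine ⟨α⁻¹ • g1, ?_, ?_⟩
  · obtain ⟨l, M', h1, h2, h3, h4⟩ := hg1
    refine ⟨fun j => α⁻¹ * l j, M', fun j => by have := h1 j; positivity, h2.mul_left _, ?_,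
      fun t => ?_⟩
    · rw [tsum_mul_left]
      calc α⁻¹ * ∑' j, l j ≤ α⁻¹ * (ε * α) := mul_le_mul_of_nonneg_left h3 (by positivity)
        _ = ε := by field_simp
    · rw [ContinuousMap.smul_apply, smul_eq_mul, h4, ← tsum_mul_left]
      exact tsum_congr fun j => by ring
  · intro ν _ hint hat
    obtain ⟨lam₀, hl0, hl⟩ := hmain ν hint hat
    refine ⟨lam₀ / α, by positivity, fun lam hlam hle => ?_⟩
    have hle' : α * lam ≤ lam₀ := by
      rw [le_div_iff₀ hα0] at hle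
      linarith
    have hkey : (α • (K - ContinuousMap.const _ m) + g1 : C(UnitAddTorus (Fin d), ℝ)) =
        α • ((K + α⁻¹ • g1) - ContinuousMap.const _ m) := by
      ext k
      simp only [ContinuousMap.add_apply, ContinuousMap.smul_apply, ContinuousMap.sub_apply,
        ContinuousMap.const_apply, smul_eq_mul]
      field_simp
      ring
    filter_upwards [hl (α * lam) (by positivity) hle'] with v hv
    rw [hkey] at hv
    have h3 := Al.aff d (K + α⁻¹ • g1) α m lam 0 (4 * d) v hα0 hv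
    have h4 : m + 0 / α = m := by simp
    have h5 : m + 4 * d / α = M := by
      rw [← hαM]
      field_simp
      ring
    rw [h4, h5] at h3
    exact h3

end

end Pool.Agent.K3h29.LH.Weak
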