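import Pool.Agent.K3h29.LH.GapE
import Pool.Agent.K3h29.LH.Pr
import Pool.Agent.K3h29.LH.Weak

/-!
Strong disorder: the construction.
-/

set_option autoImplicit false

namespace Pool.Agent.K3h29.LH.Strong

open MeasureTheory Filter Set
open scoped Topology
open Pool.Agent.W792.LL Pool.Agent.W792.WA Pool.Agent.K3h29.LH Pool.Agent.K3h29.LH.Scal
open Pool.Agent.K3h29.LH.Ch

noncomputable section

/-- Laws with an absolutely continuous part bounded below on an interval. -/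
def Lb (A B κ v₀ : ℝ) : Set MX :=
  {X | X ∈ Qf ∧ ENNReal.ofReal κ • volume.restrict (Icc A B) ≤ qlaw X ∧ v₀ ≤ vr (qlaw X)}

/-- Normalized form: mean estimates. -/
theorem sm {d : ℕ} {P : Phs d} (hP : AV P) {ψ : C(UnitAddCircle, ℝ)}
    (hψ : IsSemi ψ) {A B κ δ ε v₀ b : ℝ} (hε : 0 < ε) (hδ : 0 < δ) (hδ1 : δ ≤ 1) (hκ : 0 < κ)
    (hv0 : 0 < v₀) (hA : A + 2 * δ ≤ -b) (hB : 4 * d - b ≤ B - 2 * δ) :
    ∃ t₀ : ℝ, 0 < t₀ ∧ ∀ K : C(Tor d, ℝ), ‖K - cK d b‖ ≤ t₀ → ∀ N : ℕ,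
      ∃ (l : ℕ → ℝ) (M : ℕ → ℕ) (g : C(Tor d, ℝ)), (∀ j, 0 ≤ l j) ∧ Summable l ∧ ∑' j, l j ≤ ε ∧
        (∀ j, N ≤ M j) ∧ (∀ t, g t = ∑' j, l j * ψ (P (M j) t)) ∧
        ∀ X ∈ Lb A B κ v₀, MestK (K + g) (qlaw X) := by
  set r : ℝ := min (ε / 2) (δ / 12) with hr
  have hr0 : 0 < r := lt_min (by positivity) (by positivity)
  have hrε : r ≤ ε / 2 := min_le_left _ _
  have hrδ : r ≤ δ / 12 := min_le_right _ _
  set l : ℕ → ℝ := fun n => r * (1 / 100) ^ n with hl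
  set T : ℕ → ℝ := fun n => 100 / 99 * r * (1 / 100) ^ n with hT
  have hl0 : ∀ n, 0 < l n := fun n => by simp only [hl]; positivity
  have hsum : Summable l :=
    (summable_geometric_of_lt_one (by norm_num) (by norm_num)).mul_left r
  obtain ⟨ρ, hρ1, hρ2, hρ3, hρ4⟩ := Al.fut ψ hψ l hl0 hsum
  have htail : ∀ n, ∑' j, l (n + j) = T n := by
    intro n
    have h1 : ∀ j, l (n + j) = (r * (1 / 100) ^ n) * (1 / 100) ^ j := by
      intro j; simp only [hl]; rw [pow_add]; ring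
    simp only [h1]
    rw [tsum_mul_left, tsum_geometric_of_lt_one (by norm_num) (by norm_num)]
    simp only [hT]
    have h3 : ((1 : ℝ) - 1 / 100)⁻¹ = 100 / 99 := by norm_num
    rw [h3]
    ring
  have hρ3' : ∀ n, ρ n (Set.Icc (-(T n)) (T n))ᶜ = 0 := by
    intro n
    rw [← htail n]
    exact hρ3 n
  have hTp : ∀ n, 0 ≤ T n := fun n => by simp only [hT]; positivity
  have hTT : ∀ n, l n + T (n + 1) ≤ T n := by
    intro n
    simp only [hT, hl]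
    rw [pow_succ]
    have : 0 < r * (1 / 100 : ℝ) ^ n := by positivity
    linarith
  have hTt : Tendsto T atTop (𝓝 0) := by
    have h1 := (tendsto_pow_atTop_nhds_zero_of_lt_one (by norm_num : (0 : ℝ) ≤ 1 / 100)
      (by norm_num : (1 : ℝ) / 100 < 1)).const_mul (100 / 99 * r)
    rw [mul_zero] at h1
    exact h1
  have hl00 : l 0 = r := by simp [hl]
  have i1 := hρ1 1
  have e0 : ρ 0 = (lev ψ r).conv (ρ 1) := by
    have := hρ2 0
    rwa [hl00] at this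
  have hρ1s : ρ 1 (Set.Icc (-(r / 48)) (r / 48))ᶜ = 0 := by
    refine measure_mono_null (Set.compl_subset_compl.2 ?_) (hρ3' 1)
    have h1 : T 1 ≤ r / 48 := by
      simp only [hT]
      rw [pow_one]
      linarith
    exact Set.Icc_subset_Icc (by linarith) h1
  obtain ⟨t₀, σ, ht0, hσ, hgap⟩ := GapE.gapE (d := d) hψ (A := A) (B := B) (κ := κ) (δ := δ)
    (r := r) (v₀ := v₀) (b := b) (C := T 0) hr0 (by linarith) hδ hδ1 hκ hv0 hA hB (ρ 1) hρ1s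
    (by rw [← e0]; exact hρ3' 0) (by rw [← e0]; exact hρ4 0)
  refine ⟨t₀, ht0, fun K hK N => ?_⟩
  let D : Pr P K := {
    ψ := fun _ => ψ, l := l, ρ := ρ, T := T
    En := fun n => {X | n = 0 ∧ X ∈ Lb A B κ v₀}
    se := fun _ => σ
    Q := fun n K' => n = 0 → K' = K
    hψ := fun _ => IsSemi.lv hψ
    hl := hl0
    hT := hTT
    hTp := hTp
    hTt := hTt
    hρ1 := hρ1
    hρ2 := hρ2
    hρ3 := hρ3'
    hρ4 := hρ4
    hEv := fun n X hX => hv0.trans_le hX.2.2.2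
    hEq := fun n X hX => hX.2.1
    hse := fun n => hσ
    hQ0 := fun _ => rfl
    hQs := fun n K' _ => ⟨0, fun M _ h => absurd h (Nat.succ_ne_zero n)⟩
    hent := by
      rintro n K' - hQ X ⟨hn, hX⟩
      subst hn
      rw [hQ rfl, e0]
      exact hgap (qlaw X) hX.2.1 hX.2.2 K hK }
  obtain ⟨M, g, hMN, hg1, hg2⟩ := D.exists_g Al.cx Al.uuc Al.scl Al.zf Al.cay Al.mzp Al.uni Al.uni2
    (Weak.step2p hP) Al.netx2 (fun _ => N)
  refine ⟨l, M, g, fun j => (hl0 j).le, hsum, ?_, hMN, hg1, fun X hX => hg2 0 X ⟨rfl, hX⟩⟩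
  have h1 := htail 0
  simp only [zero_add] at h1
  rw [h1]
  simp only [hT, pow_zero, mul_one]
  linarith

/-- Normalized form. -/
theorem sn {d : ℕ} (hd : 0 < d) {P : Phs d} (hP : AV P) {ψ : C(UnitAddCircle, ℝ)}
    (hψ : IsSemi ψ) {A B κ δ ε b s : ℝ} (hε : 0 < ε) (hδ : 0 < δ) (hδ1 : δ ≤ 1) (hκ : 0 < κ)
    (hA : A + 2 * δ ≤ -b) (hB : 4 * d - b ≤ B - 2 * δ) (hs : 0 < s)
    (ν : Measure ℝ) [IsProbabilityMeasure ν] (hνd : ∀ a : ℝ, ν {a} < 1)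
    (hν : ENNReal.ofReal κ • volume.restrict (Icc A B) ≤ ν.map fun x => s * x) :
    ∃ t₀ : ℝ, 0 < t₀ ∧ ∀ K : C(Tor d, ℝ), ‖K - cK d b‖ ≤ t₀ → ∀ N : ℕ,
      ∃ (l : ℕ → ℝ) (M : ℕ → ℕ) (g : C(Tor d, ℝ)), (∀ j, 0 ≤ l j) ∧ Summable l ∧ ∑' j, l j ≤ ε ∧
        (∀ j, N ≤ M j) ∧ (∀ t, g t = ∑' j, l j * ψ (P (M j) t)) ∧
        ∀ᵐ v ∂(Pn ν (Fin d → ℤ)), ACIK (K + g) s v 0 (4 * d) := by
  have hPr : IsProbabilityMeasure (ν.map fun x => s * x) :=
    Measure.isProbabilityMeasure_map (by fun_prop)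
  have hvr : 0 < vr (ν.map fun x => s * x) := by
    refine Pool.Agent.W792.WA.Ch.vr_pos Al.cay _ fun a => ?_
    rw [Measure.map_apply (by fun_prop) (measurableSet_singleton a)]
    have : (fun x => s * x) ⁻¹' {a} = {a / s} := by
      ext x
      simp only [Set.mem_preimage, Set.mem_singleton_iff]
      rw [eq_div_iff hs.ne', mul_comm]
    rw [this]
    exact hνd _
  obtain ⟨t₀, ht0, h⟩ := sm hP hψ (ε := ε) (v₀ := vr (ν.map fun x => s * x)) hε hδ hδ1 hκ hvr hA hB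
  refine ⟨t₀, ht0, fun K hK N => ?_⟩
  obtain ⟨l, M, g, h1, h2, h3, h4, h5, h6⟩ := h K hK N
  refine ⟨l, M, g, h1, h2, h3, h4, h5, ?_⟩
  obtain ⟨X, hX1, hX2⟩ := Al.qnt2 (ν.map fun x => s * x)
  have hXE : X ∈ Lb A B κ (vr (ν.map fun x => s * x)) := by
    refine ⟨hX1, ?_, ?_⟩
    · rw [hX2]; exact hν
    · rw [hX2]
  exact Al.aeqk d ν s (K + g) hd hs (Weak.MestK_congr hX2 (h6 X hXE))

end

end Pool.Agent.K3h29.LH.Strong
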