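import Pool.Agent.K3h29.LH.Strong
import Pool.Agent.K3h29.LH.Amp
import Pool.Agent.K3h29.LH.LineFin

/-!
Strong disorder: the theorem for `-Δ + A + c ω`.
-/

set_option autoImplicit false

namespace Pool.Agent.K3h29.LH.StrongFin

open MeasureTheory Filter Set
open scoped Topology
open Pool.Agent.W792.LL Pool.Agent.W792.WA UnitAddTorus Pool.Agent.K3h29.LH
open Pool.Agent.K3h29.LH.Line Pool.Agent.K3h29.LH.Scal

noncomputable section

/-- Scaling of a lower bound by Lebesgue measure. -/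
theorem scale {A B κ s : ℝ} (hs : 0 < s) (ν : Measure ℝ)
    (hν : ENNReal.ofReal κ • volume.restrict (Icc A B) ≤ ν) :
    ENNReal.ofReal (κ / s) • volume.restrict (Icc (s * A) (s * B)) ≤ ν.map fun x => s * x := by
  have hm : Measurable fun x : ℝ => s * x := by fun_prop
  have h1 := Measure.map_mono hν hm
  refine le_trans (le_of_eq ?_) h1
  rw [Measure.map_smul]
  have hpre : (fun x : ℝ => s * x) ⁻¹' (Icc (s * A) (s * B)) = Icc A B := by
    ext x
    simp only [Set.mem_preimage, Set.mem_Icc]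
    constructor
    · rintro ⟨h1, h2⟩
      exact ⟨le_of_mul_le_mul_left h1 hs, le_of_mul_le_mul_left h2 hs⟩
    · rintro ⟨h1, h2⟩
      exact ⟨mul_le_mul_of_nonneg_left h1 hs.le, mul_le_mul_of_nonneg_left h2 hs.le⟩
  rw [← hpre, ← Measure.restrict_map hm measurableSet_Icc, Real.map_volume_mul_left hs.ne',
    Measure.restrict_smul, smul_smul]
  congr 1
  rw [abs_of_pos (inv_pos.2 hs), ← ENNReal.ofReal_mul' (inv_pos.2 hs).le, div_eq_mul_inv]

/-- No point masses of weight one. -/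
theorem nd {A B κ : ℝ} (hκ : 0 < κ) (hAB : A < B) (ν : Measure ℝ) [IsProbabilityMeasure ν]
    (hν : ENNReal.ofReal κ • volume.restrict (Icc A B) ≤ ν) (a : ℝ) : ν {a} < 1 := by
  have h1 : 0 < ν {a}ᶜ := by
    have h2 := hν {a}ᶜ
    refine lt_of_lt_of_le ?_ h2
    rw [Measure.smul_apply, Measure.restrict_apply (measurableSet_singleton a).compl, smul_eq_mul]
    refine ENNReal.mul_pos (by simpa using hκ) ?_
    have h3 : volume ({a}ᶜ ∩ Icc A B) = volume (Icc A B) := by
      have h4 : ({a}ᶜ ∩ Icc A B : Set ℝ) = Icc A B \ {a} := by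
        ext x
        simp [and_comm]
      rw [h4]
      exact measure_sdiff_null (by simp)
    rw [h3, Real.volume_Icc]
    simpa using hAB
  have h2 := prob_add_prob_compl (μ := ν) (measurableSet_singleton a)
  by_contra h3
  push Not at h3
  have h4 : ν {a} = 1 := le_antisymm prob_le_one h3
  rw [h4] at h2
  have h5 : ν {a}ᶜ = 0 := by
    have h6 : (1 : ENNReal) + ν {a}ᶜ = 1 + 0 := by rw [h2, add_zero]
    exact (ENNReal.add_right_inj ENNReal.one_ne_top).1 h6
  exact h1.ne' h5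

theorem bt_coeff' (ψ : C(UnitAddCircle, ℝ)) {l : ℕ → ℝ} (hl : Summable l) (h0 : ∀ j, 0 ≤ l j)
    (M : ℕ → ℕ) {D : ℝ} {n : ℤ} (hC : ∀ j, ‖fourierCoeff ((cx ψ).comp (th (M j))) n‖ ≤ D) :
    ‖fourierCoeff (cx (bt ψ l M)) n‖ ≤ (∑' j, l j) * D := by
  have h1 := (bt_summable ψ hl h0 M).hasSum.map ((fcH n).comp cxH) ((fcH_cont n).comp cxH_cont)
  have h3 : ∀ j, ‖((fcH n).comp cxH) (l j • ψ.comp (th (M j)))‖ ≤ l j * D := by
    intro j
    have e : ((fcH n).comp cxH) (l j • ψ.comp (th (M j)))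
        = (l j : ℂ) * fourierCoeff ((cx ψ).comp (th (M j))) n := by
      rw [← fc_smul]
      change fourierCoeff (⇑(cx (l j • ψ.comp (th (M j))))) n = _
      congr 2
      ext t
      exact Complex.ofReal_mul _ _
    rw [e, norm_mul, Complex.norm_real, Real.norm_eq_abs, abs_of_nonneg (h0 j)]
    exact mul_le_mul_of_nonneg_left (hC j) (h0 j)
  exact h1.norm_le_of_bounded (hl.hasSum.mul_right _) h3

lemma lap_bound (d : ℕ) (k : Tor d) : 0 ≤ lap d k ∧ lap d k ≤ 4 * d :=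
  Pool.Agent.W792.WA.Br.lap_nonneg' d k

/-- The theorem. -/
theorem main (d : ℕ) (hd : 0 < d) (v : Fin d → ℤ) (hv : v ≠ 0) {A B A' B' κ : ℝ} (hκ : 0 < κ)
    (hAA : A < A') (hAB : A' < B') (hBB : B' < B) (ν : Measure ℝ) [IsProbabilityMeasure ν]
    (hν : ENNReal.ofReal κ • volume.restrict (Icc A B) ≤ ν) {ε α : ℝ} (hε : 0 < ε)
    (hα : α < 1 / 2) :
    ∃ c₀ : ℝ, 0 < c₀ ∧ ∀ c : ℝ, c₀ ≤ c → ∃ β : C(UnitAddCircle, ℝ), (∀ t, β (-t) = β t) ∧
      (∀ t, |β t| ≤ ε * c) ∧
      (∀ n : ℤ, ‖fourierCoeff (cx β) n‖ ≤ ε / (1 + |(n : ℝ)|) ^ α) ∧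
      ∀ᵐ ω ∂(Pn ν (Fin d → ℤ)), ∀ Bb : C(Tor d, ℝ), (∀ k, Bb k = β (ln v k)) →
        ACIK (lap d + Bb) c ω (c * A') (c * B') := by
  obtain ⟨ψ, hψ, hψ2⟩ := Pool.Agent.W915.WA.WH.main
  have hsum := Pool.Agent.W332.WA.WB.main ψ hψ2
  have hd' : (0 : ℝ) < d := by exact_mod_cast hd
  -- exponents
  set α' : ℝ := max α 0 with hα'
  have hα'0 : 0 ≤ α' := le_max_right _ _
  have hαα : α ≤ α' := le_max_left _ _
  have hα'1 : α' < 1 / 2 := max_lt hα (by norm_num)
  set η : ℝ := 1 / 2 - α' with hη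
  have hη0 : 0 < η := by linarith
  have hη1 : η ≤ 1 / 2 := by linarith
  have hηα : 1 / 2 - η = α' := by rw [hη]; ring
  obtain ⟨C, hC0, hC⟩ := Amp.level' hψ hsum hη0 hη1
  -- scaling
  set s : ℝ := 4 * d / (B' - A') with hs
  have hBA : 0 < B' - A' := by linarith
  have hs0 : 0 < s := by positivity
  have hsBA : s * (B' - A') = 4 * d := by rw [hs]; field_simp
  set δ : ℝ := min 1 (min (s * (A' - A) / 2) (s * (B - B') / 2)) with hδ
  have hδ0 : 0 < δ := by
    have h1 : 0 < A' - A := by linarith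
    have h2 : 0 < B - B' := by linarith
    exact lt_min one_pos (lt_min (by positivity) (by positivity))
  have hδ1 : δ ≤ 1 := min_le_left _ _
  have hδ2 : δ ≤ s * (A' - A) / 2 := (min_le_right _ _).trans (min_le_left _ _)
  have hδ3 : δ ≤ s * (B - B') / 2 := (min_le_right _ _).trans (min_le_right _ _)
  obtain ⟨t₀, ht0, hsn⟩ := Strong.sn hd (Avg.main (PL v) (os v hv)) hψ (A := s * A) (B := s * B)
    (κ := κ / s) (δ := δ) (ε := ε * s) (b := -(s * A')) (s := s) (by positivity) hδ0 hδ1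
    (by positivity) (by linarith) (by linarith) hs0 ν
    (nd hκ (by linarith) ν hν) (scale hs0 ν hν)
  refine ⟨max 1 (4 * d * s / t₀), lt_max_of_lt_left one_pos, fun c hc => ?_⟩
  have hc1 : 1 ≤ c := (le_max_left _ _).trans hc
  have hc2 : 4 * d * s / t₀ ≤ c := (le_max_right _ _).trans hc
  have hc0 : 0 < c := by linarith
  have hsc : 0 < s / c := by positivity
  -- the kinetic energy
  set K₁ : C(Tor d, ℝ) := (s / c) • (lap d - ContinuousMap.const _ (c * A')) with hK₁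
  have hK₁a : ∀ k, K₁ k = (s / c) * (lap d k - c * A') := fun k => rfl
  have hK₁n : ‖K₁ - cK d (-(s * A'))‖ ≤ t₀ := by
    rw [ContinuousMap.norm_le _ ht0.le]
    intro k
    have e : (K₁ - cK d (-(s * A'))) k = (s / c) * lap d k := by
      change K₁ k - (-(s * A')) = _
      rw [hK₁a]
      field_simp
      ring
    obtain ⟨h1, h2⟩ := lap_bound d k
    rw [e, Real.norm_eq_abs, abs_of_nonneg (by positivity)]
    calc s / c * lap d k ≤ s / c * (4 * d) := mul_le_mul_of_nonneg_left h2 hsc.le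
      _ = (4 * d * s / t₀) * (t₀ / c) := by field_simp
      _ ≤ c * (t₀ / c) := mul_le_mul_of_nonneg_right hc2 (by positivity)
      _ = t₀ := by field_simp
  -- the frequency cutoff
  obtain ⟨N, hN⟩ := exists_nat_ge ((C * c) ^ (1 / η))
  have hN1 : C * c ≤ ((N + 1 : ℕ) : ℝ) ^ η := by
    have h1 : (C * c) ^ (1 / η) ≤ ((N + 1 : ℕ) : ℝ) := by
      push_cast
      linarith
    calc C * c = ((C * c) ^ (1 / η)) ^ η := by
          rw [← Real.rpow_mul (by positivity), one_div, inv_mul_cancel₀ hη0.ne', Real.rpow_one]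
      _ ≤ _ := Real.rpow_le_rpow (by positivity) h1 hη0.le
  obtain ⟨l, M, g, h1, h2, h3, h4, h5, h6⟩ := hsn K₁ hK₁n (N + 1)
  have hgβ : ∀ k, g k = bt ψ l M (ln v k) := by
    intro k
    rw [h5, bt_apply ψ h2 h1 M]
    rfl
  refine ⟨(c / s) • bt ψ l M, fun t => ?_, fun t => ?_, fun n => ?_, ?_⟩
  · change (c / s) * bt ψ l M (-t) = (c / s) * bt ψ l M t
    rw [bt_apply ψ h2 h1 M, bt_apply ψ h2 h1 M]
    simp only [th_neg]
  · change |(c / s) * bt ψ l M t| ≤ _
    have h7 : |bt ψ l M t| ≤ ε * s := by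
      rw [bt_apply ψ h2 h1 M]
      have h8 : ∀ j, ‖l j * ψ (th (M j) t)‖ ≤ l j := by
        intro j
        rw [Real.norm_eq_abs, abs_mul, abs_of_nonneg (h1 j)]
        exact mul_le_of_le_one_right (h1 j) (hψ.bound _)
      rw [← Real.norm_eq_abs]
      exact (tsum_of_norm_bounded h2.hasSum h8).trans h3
    rw [abs_mul, abs_of_pos (by positivity : 0 < c / s)]
    calc c / s * |bt ψ l M t| ≤ c / s * (ε * s) := mul_le_mul_of_nonneg_left h7 (by positivity)
      _ = ε * c := by field_simp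
  · have hn0 : (0 : ℝ) < 1 + |(n : ℝ)| := by positivity
    have hn1 : (1 : ℝ) ≤ 1 + |(n : ℝ)| := by linarith [abs_nonneg (n : ℝ)]
    have hp' : 0 < (1 + |(n : ℝ)|) ^ α' := Real.rpow_pos_of_pos hn0 _
    have hp : 0 < (1 + |(n : ℝ)|) ^ α := Real.rpow_pos_of_pos hn0 _
    have e : fourierCoeff (cx ((c / s) • bt ψ l M)) n
        = ((c / s : ℝ) : ℂ) * fourierCoeff (cx (bt ψ l M)) n := by
      rw [← fc_smul]
      congr 2
      ext t
      exact Complex.ofReal_mul _ _
    have hN0 : (0 : ℝ) < ((N + 1 : ℕ) : ℝ) := by exact_mod_cast Nat.succ_pos N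
    have hlev : ∀ j, ‖fourierCoeff ((cx ψ).comp (th (M j))) n‖
        ≤ C * ((N + 1 : ℕ) : ℝ) ^ (-η) / (1 + |(n : ℝ)|) ^ α' := by
      intro j
      have h7 := hC (M j) n (lt_of_lt_of_le (Nat.succ_pos N) (h4 j))
      rw [hηα] at h7
      refine h7.trans (div_le_div_of_nonneg_right ?_ hp'.le)
      refine mul_le_mul_of_nonneg_left ?_ hC0.le
      exact Real.rpow_le_rpow_of_nonpos hN0 (by exact_mod_cast h4 j) (by linarith)
    have h7 := bt_coeff' ψ h2 h1 M hlev
    rw [e, norm_mul, Complex.norm_real, Real.norm_eq_abs, abs_of_pos (by positivity : 0 < c / s)]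
    have hsum0 : 0 ≤ ∑' j, l j := tsum_nonneg h1
    have hNη : 0 < ((N + 1 : ℕ) : ℝ) ^ η := Real.rpow_pos_of_pos hN0 _
    have hCN : C * ((N + 1 : ℕ) : ℝ) ^ (-η) ≤ 1 / c := by
      rw [Real.rpow_neg hN0.le, ← div_eq_mul_inv, div_le_div_iff₀ hNη hc0]
      linarith
    calc c / s * ‖fourierCoeff (cx (bt ψ l M)) n‖
        ≤ c / s * ((∑' j, l j) * (C * ((N + 1 : ℕ) : ℝ) ^ (-η) / (1 + |(n : ℝ)|) ^ α')) :=
          mul_le_mul_of_nonneg_left h7 (by positivity)
      _ ≤ c / s * ((ε * s) * (1 / c / (1 + |(n : ℝ)|) ^ α')) := by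
          refine mul_le_mul_of_nonneg_left ?_ (by positivity)
          refine mul_le_mul h3 (div_le_div_of_nonneg_right hCN hp'.le) ?_ (by positivity)
          exact div_nonneg (mul_nonneg hC0.le (Real.rpow_nonneg hN0.le _)) hp'.le
      _ = ε / (1 + |(n : ℝ)|) ^ α' := by field_simp
      _ ≤ ε / (1 + |(n : ℝ)|) ^ α :=
          div_le_div_of_nonneg_left hε.le hp (Real.rpow_le_rpow_of_exponent_le hn1 hαα)
  · filter_upwards [h6] with ω hω Bb hBb
    have e1 : (s / c) • (lap d + Bb - ContinuousMap.const _ (c * A')) = K₁ + g := by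
      ext k
      change (s / c) * (lap d k + Bb k - c * A') = K₁ k + g k
      rw [hK₁a, hBb, hgβ]
      change (s / c) * (lap d k + (c / s) * bt ψ l M (ln v k) - c * A') = _
      field_simp
      ring
    have e2 : s / c * c = s := by field_simp
    have h7 := Al.aff d (lap d + Bb) (s / c) (c * A') c 0 (4 * d) ω hsc
    rw [e1, e2] at h7
    have h8 := h7 hω
    have e3 : c * A' + 0 / (s / c) = c * A' := by rw [zero_div, add_zero]
    have e4 : c * A' + 4 * d / (s / c) = c * B' := by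
      rw [← hsBA]
      field_simp
      ring
    rw [e3, e4] at h8
    exact h8

end

end Pool.Agent.K3h29.LH.StrongFin
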